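import Pool.Agent.Lib.MP_a8bb4d_al.Squarefree

/-!
# Decomposition of the push-forward of `R/J` for a monomial ideal `J`
-/

set_option autoImplicit false

namespace Pool.Agent.Lib.MP_a8bb4d_al

open MvPolynomial

universe u

variable {K : Type u} [Field K] {r : ℕ}

/-- `f ↦ class of f(x^N) a` as a map into the push-forward. -/
noncomputable def prePsi (J : Ideal (MvPolynomial (Fin r) K)) (N : ℕ)
    (a : MvPolynomial (Fin r) K) :
    MvPolynomial (Fin r) K →ₗ[MvPolynomial (Fin r) K] Push N (MvPolynomial (Fin r) K ⧸ J) where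
  toFun f := Push.toAdd.symm (Submodule.Quotient.mk (expand N f * a))
  map_add' f g := by
    rw [map_add, add_mul, Submodule.Quotient.mk_add, map_add]
  map_smul' f g := by
    apply (Push.toAdd (N := N)).injective
    rw [RingHom.id_apply, Push.toAdd_smul, AddEquiv.apply_symm_apply, AddEquiv.apply_symm_apply,
      smul_eq_mul, map_mul, mul_assoc]
    rfl

theorem toAdd_prePsi (J : Ideal (MvPolynomial (Fin r) K)) (N : ℕ)
    (a f : MvPolynomial (Fin r) K) :
    Push.toAdd (prePsi J N a f) = Submodule.Quotient.mk (expand N f * a) := rfl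

/-- the exponents `β` with `N β + γ ∈ E` -/
def resSet (N : ℕ) (E : Set (Fin r →₀ ℕ)) (γ : Fin r → Fin N) : Set (Fin r →₀ ℕ) :=
  {β | N • β + boxExp N γ ∈ E}

theorem resSet_upper {N : ℕ} {E : Set (Fin r →₀ ℕ)} (hE : IsUpperSet E) (γ : Fin r → Fin N) :
    IsUpperSet (resSet N E γ) := by
  intro α β h hα
  apply hE _ hα
  intro i
  have := h i
  simp only [Finsupp.coe_add, Finsupp.coe_smul, Pi.add_apply, Pi.smul_apply, smul_eq_mul]
  gcongr

theorem coeff_expand_mul_box {N : ℕ} (hN : 0 < N) (f : MvPolynomial (Fin r) K)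
    (γ γ' : Fin r → Fin N) (β : Fin r →₀ ℕ) :
    coeff (N • β + boxExp N γ) (expand N f * monomial (boxExp N γ') 1) =
      if γ' = γ then coeff β f else 0 := by
  classical
  split_ifs with h
  · subst h
    rw [coeff_mul_monomial, mul_one, coeff_expand_smul N hN.ne']
  · rw [coeff_mul_monomial']
    split_ifs with h1
    · have h2 : ∃ i, γ' i ≠ γ i := by
        by_contra h3
        push Not at h3
        exact h (funext h3)
      obtain ⟨i, hi⟩ := h2
      rw [coeff_expand_of_not_dvd (i := i), zero_mul]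
      have h4 := h1 i
      have e1 : (N • β + boxExp N γ - boxExp N γ') i = N * β i + (γ i : ℕ) - (γ' i : ℕ) := by
        simp [boxExp]
      have e2 : (boxExp N γ') i = (γ' i : ℕ) := by simp [boxExp]
      have e3 : (N • β + boxExp N γ) i = N * β i + (γ i : ℕ) := by simp [boxExp]
      rw [e2, e3] at h4
      rw [e1]
      intro hdvd
      obtain ⟨c, hc⟩ := hdvd
      have h5 : N * β i + (γ i : ℕ) = N * c + (γ' i : ℕ) := by omega
      have h6 := congrArg (fun t => t % N) h5
      simp only [Nat.mul_add_mod] at h6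
      rw [Nat.mod_eq_of_lt (γ i).isLt, Nat.mod_eq_of_lt (γ' i).isLt] at h6
      exact hi (Fin.ext h6.symm)
    · rfl

section

variable {N : ℕ} (E : Set (Fin r →₀ ℕ)) (hE : IsUpperSet E)

theorem resIdeal_le_ker (γ : Fin r → Fin N) :
    restrictSupportIdeal K (resSet N E γ) (resSet_upper hE γ) ≤
      LinearMap.ker (prePsi (restrictSupportIdeal K E hE) N (monomial (boxExp N γ) 1)) := by
  classical
  intro f hf
  rw [LinearMap.mem_ker]
  apply (Push.toAdd (N := N)).injective
  rw [toAdd_prePsi, map_zero, Submodule.Quotient.mk_eq_zero, mem_restrictSupportIdeal]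
  intro α hα
  rw [mem_support_iff, coeff_mul_monomial'] at hα
  split_ifs at hα with h1
  · rw [mul_one, ← mem_support_iff] at hα
    have h2 := support_expand_subset f hα
    rw [Finset.mem_image] at h2
    obtain ⟨β, hβ, h3⟩ := h2
    have h4 : α = N • β + boxExp N γ := by
      have h3' : N • β = α - boxExp N γ := h3
      rw [h3', tsub_add_cancel_of_le h1]
    rw [h4]
    exact mem_restrictSupportIdeal.mp hf β hβ
  · exact absurd rfl hα

/-- one component of the decomposition -/
noncomputable def psiComp (γ : Fin r → Fin N) :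
    (MvPolynomial (Fin r) K ⧸ restrictSupportIdeal K (resSet N E γ) (resSet_upper hE γ))
      →ₗ[MvPolynomial (Fin r) K] Push N (MvPolynomial (Fin r) K ⧸ restrictSupportIdeal K E hE) :=
  Submodule.liftQ _ (prePsi (restrictSupportIdeal K E hE) N (monomial (boxExp N γ) 1))
    (resIdeal_le_ker E hE γ)

theorem psiComp_mk (γ : Fin r → Fin N) (f : MvPolynomial (Fin r) K) :
    psiComp E hE γ (Submodule.Quotient.mk f) =
      prePsi (restrictSupportIdeal K E hE) N (monomial (boxExp N γ) 1) f := rfl

/-- the decomposition map -/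
noncomputable def psi (N : ℕ) :
    ((γ : Fin r → Fin N) → (MvPolynomial (Fin r) K ⧸ restrictSupportIdeal K (resSet N E γ)
      (resSet_upper hE γ))) →ₗ[MvPolynomial (Fin r) K]
        Push N (MvPolynomial (Fin r) K ⧸ restrictSupportIdeal K E hE) :=
  ∑ γ, (psiComp E hE γ).comp (LinearMap.proj γ)

theorem psi_apply (x : (γ : Fin r → Fin N) → (MvPolynomial (Fin r) K ⧸
      restrictSupportIdeal K (resSet N E γ) (resSet_upper hE γ))) :
    psi E hE N x = ∑ γ, psiComp E hE γ (x γ) := by
  simp [psi]

theorem psi_injective (hN : 0 < N) : Function.Injective (psi (K := K) E hE N) := by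
  classical
  rw [← LinearMap.ker_eq_bot, LinearMap.ker_eq_bot']
  intro x hx
  choose f hf using fun γ => Submodule.Quotient.mk_surjective _ (x γ)
  rw [psi_apply] at hx
  have h1 : ∑ γ, expand N (f γ) * monomial (boxExp N γ) 1 ∈ restrictSupportIdeal K E hE := by
    rw [← Submodule.Quotient.mk_eq_zero]
    have h2 := congrArg (Push.toAdd (N := N)) hx
    rw [map_zero, map_sum] at h2
    rw [← h2, ← Submodule.mkQ_apply, map_sum]
    apply Finset.sum_congr rfl
    intro γ _
    rw [← hf γ, psiComp_mk, toAdd_prePsi, Submodule.mkQ_apply]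
  funext γ
  rw [← hf γ, Pi.zero_apply, Submodule.Quotient.mk_eq_zero, mem_restrictSupportIdeal]
  intro β hβ
  apply mem_restrictSupportIdeal.mp h1
  rw [mem_support_iff, coeff_sum]
  simp_rw [coeff_expand_mul_box hN]
  rw [Finset.sum_ite_eq' Finset.univ γ (fun γ' => coeff β (f γ')), if_pos (Finset.mem_univ γ)]
  exact mem_support_iff.mp hβ

theorem psi_surjective (hN : 0 < N) : Function.Surjective (psi (K := K) E hE N) := by
  classical
  rw [← LinearMap.range_eq_top, eq_top_iff]
  intro y _
  obtain ⟨f, hf⟩ := Submodule.Quotient.mk_surjective _ (Push.toAdd y)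
  have hy : y = Push.toAdd.symm (Submodule.Quotient.mk f) := by
    rw [hf, AddEquiv.symm_apply_apply]
  rw [hy]
  clear hy hf
  induction f using MvPolynomial.induction_on' with
  | monomial α c =>
    obtain ⟨γ, hγ⟩ := modExp_eq_box hN α
    refine ⟨Pi.single γ (Submodule.Quotient.mk (monomial (divExp N α) c)), ?_⟩
    rw [psi_apply, Finset.sum_eq_single γ]
    · rw [Pi.single_eq_same, psiComp_mk]
      apply (Push.toAdd (N := N)).injective
      rw [toAdd_prePsi, AddEquiv.apply_symm_apply, expand_monomial, monomial_mul, mul_one, ← hγ,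
        divMod_exp]
    · intro γ' _ hne
      rw [Pi.single_eq_of_ne hne, map_zero]
    · intro h
      exact absurd (Finset.mem_univ γ) h
  | add p q hp hq =>
    rw [Submodule.Quotient.mk_add, map_add]
    exact Submodule.add_mem _ hp hq

end

theorem irr_smul_quot_lt' {J : Ideal (MvPolynomial (Fin r) K)} (hJ : J ≤ irr K r) :
    irr K r • (⊤ : Submodule (MvPolynomial (Fin r) K) (MvPolynomial (Fin r) K ⧸ J)) < ⊤ := by
  rw [lt_top_iff_ne_top]
  intro h
  have h1 := congrArg (Submodule.comap (Submodule.mkQ J)) h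
  rw [Submodule.comap_top, Submodule.comap_smul_top_of_surjective _ _ (Submodule.mkQ_surjective _),
    Submodule.ker_mkQ, smul_eq_mul, Ideal.mul_top, sup_eq_left.mpr hJ] at h1
  exact irr_ne_top h1

theorem restrictSupportIdeal_le_irr {E : Set (Fin r →₀ ℕ)} (hE : IsUpperSet E) (h0 : 0 ∉ E) :
    restrictSupportIdeal K E hE ≤ irr K r := by
  rw [← SR_singleton_empty]
  intro f hf
  rw [mem_SR]
  intro α hα G hG hs
  rw [Finset.mem_singleton] at hG
  subst hG
  have h1 := mem_restrictSupportIdeal.mp hf α hα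
  have : α = 0 := by
    rw [← Finsupp.support_eq_empty]
    exact Finset.subset_empty.mp hs
  rw [this] at h1
  exact h0 h1

/-- **Decomposition theorem for the depth.** -/
theorem DGE_quot_iff {N : ℕ} (hN : 0 < N) {E : Set (Fin r →₀ ℕ)} (hE : IsUpperSet E)
    (h0 : 0 ∉ E) {k : ℕ} :
    DGE (irr K r) (MvPolynomial (Fin r) K ⧸ restrictSupportIdeal K E hE) k ↔
      ∀ γ : Fin r → Fin N, DGE (irr K r) (MvPolynomial (Fin r) K ⧸
        restrictSupportIdeal K (resSet N E γ) (resSet_upper hE γ)) k := by
  rw [← DGE_push_iff hN (irr_smul_quot_lt' (restrictSupportIdeal_le_irr hE h0)),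
    ← DGE_congr (LinearEquiv.ofBijective (psi E hE N)
      ⟨psi_injective E hE hN, psi_surjective E hE hN⟩), DGE_pi_iff]

end Pool.Agent.Lib.MP_a8bb4d_al
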