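import Mathlib

/-!
# Depth of a module with respect to an ideal, through `Ext`

Elementary lemmas on the predicate `DGE m M k`, which says that `Ext^i(R/m, M) = 0` for `i < k`.
-/

set_option autoImplicit false

namespace Pool.Agent.Lib.MP_a8bb4d_al

open CategoryTheory Abelian

universe u

variable {R : Type u} [CommRing R]

/-- `Ext^i(R/m, M) = 0` for all `i < k`. -/
def DGE (m : Ideal R) (M : Type u) [AddCommGroup M] [Module R M] (k : ℕ) : Prop :=
  ∀ i < k, Subsingleton (Ext (ModuleCat.of R (R ⧸ m)) (ModuleCat.of R M) i)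

variable {m : Ideal R}
variable {A B C : Type u} [AddCommGroup A] [AddCommGroup B] [AddCommGroup C]
  [Module R A] [Module R B] [Module R C]

theorem DGE.mono {k l : ℕ} (h : DGE m A l) (hkl : k ≤ l) : DGE m A k :=
  fun i hi => h i (hi.trans_le hkl)

theorem DGE_zero : DGE m A 0 := fun i hi => absurd hi (Nat.not_lt_zero i)

theorem subsingleton_ext_iff {X Y : ModuleCat.{u} R} {n : ℕ} :
    Subsingleton (Ext X Y n) ↔ ∀ x : Ext X Y n, x = 0 :=
  ⟨fun _ x => Subsingleton.elim x 0, fun h => ⟨fun x y => (h x).trans (h y).symm⟩⟩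

/-- If `A` is a retract of `B` and `Ext^n(X, B) = 0`, then `Ext^n(X, A) = 0`. -/
theorem subsingleton_ext_of_retract (X : ModuleCat.{u} R) (n : ℕ) (i : A →ₗ[R] B) (p : B →ₗ[R] A)
    (hpi : p.comp i = LinearMap.id) (h : Subsingleton (Ext X (ModuleCat.of R B) n)) :
    Subsingleton (Ext X (ModuleCat.of R A) n) := by
  rw [subsingleton_ext_iff] at h ⊢
  intro x
  have h1 : ModuleCat.ofHom i ≫ ModuleCat.ofHom p = 𝟙 (ModuleCat.of R A) := by
    rw [← ModuleCat.ofHom_comp, hpi]
    rfl
  have h2 : (x.comp (Ext.mk₀ (ModuleCat.ofHom i)) (add_zero n)).comp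
      (Ext.mk₀ (ModuleCat.ofHom p)) (add_zero n) = x := by
    rw [Ext.comp_assoc_of_second_deg_zero, Ext.mk₀_comp_mk₀, h1, Ext.comp_mk₀_id]
  rw [← h2, h (x.comp (Ext.mk₀ (ModuleCat.ofHom i)) (add_zero n)), Ext.zero_comp]

theorem DGE.of_retract {k : ℕ} (i : A →ₗ[R] B) (p : B →ₗ[R] A)
    (hpi : p.comp i = LinearMap.id) (h : DGE m B k) : DGE m A k :=
  fun j hj => subsingleton_ext_of_retract _ j i p hpi (h j hj)

theorem DGE_congr {k : ℕ} (e : A ≃ₗ[R] B) : DGE m A k ↔ DGE m B k :=
  ⟨fun h => h.of_retract e.symm.toLinearMap e.toLinearMap (by ext; simp),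
    fun h => h.of_retract e.toLinearMap e.symm.toLinearMap (by ext; simp)⟩

theorem DGE_of_subsingleton [Subsingleton A] {k : ℕ} : DGE m A k := by
  intro i _
  rw [subsingleton_ext_iff]
  intro x
  have h1 : 𝟙 (ModuleCat.of R A) = 0 := by
    ext y
    exact Subsingleton.elim _ _
  have h2 := x.comp_mk₀_id
  rw [h1, Ext.mk₀_zero, Ext.comp_zero] at h2
  exact h2.symm

section SES

variable (f : A →ₗ[R] B) (g : B →ₗ[R] C)

/-- The short exact sequence in `ModuleCat R` attached to linear maps. -/
theorem shortExact_mk (hf : Function.Injective f) (hg : Function.Surjective g)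
    (hfg : Function.Exact f g) :
    (ModuleCat.shortComplexOfCompEqZero f g hfg.linearMap_comp_eq_zero).ShortExact :=
  ModuleCat.shortComplex_shortExact _ hfg hf hg

variable {f g}

theorem DGE_middle {k : ℕ} (hf : Function.Injective f) (hg : Function.Surjective g)
    (hfg : Function.Exact f g) (hA : DGE m A k) (hC : DGE m C k) : DGE m B k := by
  intro i hi
  rw [subsingleton_ext_iff]
  intro x
  have hS := shortExact_mk f g hf hg hfg
  obtain ⟨y, hy⟩ := Ext.covariant_sequence_exact₂ (ModuleCat.of R (R ⧸ m)) hS x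
    (by
      have := hC i hi
      exact Subsingleton.elim _ _)
  have := hA i hi
  rw [← hy, Subsingleton.elim y 0, Ext.zero_comp]

theorem DGE_left {k : ℕ} (hf : Function.Injective f) (hg : Function.Surjective g)
    (hfg : Function.Exact f g) (hB : DGE m B (k + 1)) (hC : DGE m C k) : DGE m A (k + 1) := by
  intro i hi
  rw [subsingleton_ext_iff]
  intro x
  have hS := shortExact_mk f g hf hg hfg
  have h1 : x.comp (Ext.mk₀ (ModuleCat.ofHom f)) (add_zero i) = 0 := by
    have := hB i hi
    exact Subsingleton.elim _ _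
  cases i with
  | zero =>
    have : Mono (ModuleCat.ofHom f) := (ModuleCat.mono_iff_injective _).mpr hf
    have hinj := Ext.postcomp_mk₀_injective_of_mono (ModuleCat.of R (R ⧸ m)) (ModuleCat.ofHom f)
    apply hinj
    rw [map_zero]
    exact h1
  | succ i =>
    obtain ⟨y, hy⟩ := Ext.covariant_sequence_exact₁ (ModuleCat.of R (R ⧸ m)) hS x h1 rfl
    have := hC i (by omega)
    rw [← hy, Subsingleton.elim y 0, Ext.zero_comp]

theorem DGE_right {k : ℕ} (hf : Function.Injective f) (hg : Function.Surjective g)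
    (hfg : Function.Exact f g) (hB : DGE m B k) (hA : DGE m A (k + 1)) : DGE m C k := by
  intro i hi
  rw [subsingleton_ext_iff]
  intro x
  have hS := shortExact_mk f g hf hg hfg
  have h1 : x.comp hS.extClass rfl = 0 := by
    have := hA (i + 1) (by omega)
    exact Subsingleton.elim _ _
  obtain ⟨y, hy⟩ := Ext.covariant_sequence_exact₃ (ModuleCat.of R (R ⧸ m)) hS x rfl h1
  have := hB i hi
  rw [← hy, Subsingleton.elim y 0, Ext.zero_comp]

/-- If the middle term has depth greater than `k` and the right term does not, then the left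
term does not have depth greater than `k + 1`. -/
theorem not_DGE_left {k : ℕ} (hf : Function.Injective f) (hg : Function.Surjective g)
    (hfg : Function.Exact f g) (hB : DGE m B (k + 1)) (hC : ¬ DGE m C (k + 1)) :
    ¬ DGE m A (k + 2) :=
  fun hA => hC (DGE_right hf hg hfg hB hA)

end SES


theorem DGE_pi {ι : Type} [Fintype ι] {M : ι → Type u} [∀ i, AddCommGroup (M i)]
    [∀ i, Module R (M i)] {k : ℕ} (h : ∀ i, DGE m (M i) k) : DGE m (∀ i, M i) k := by
  classical
  intro n hn
  rw [subsingleton_ext_iff]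
  intro x
  have hid : 𝟙 (ModuleCat.of R (∀ i, M i)) =
      ∑ i, ModuleCat.ofHom (LinearMap.proj i : (∀ i, M i) →ₗ[R] M i) ≫
        ModuleCat.ofHom (LinearMap.single R M i) := by
    simp_rw [← ModuleCat.ofHom_comp]
    apply ModuleCat.hom_ext
    apply LinearMap.ext
    intro y
    simp only [ModuleCat.hom_id, LinearMap.id_coe, id_eq, ModuleCat.hom_sum, ModuleCat.hom_ofHom,
      LinearMap.coe_sum, Finset.sum_apply, LinearMap.coe_comp, Function.comp_apply]
    funext j
    rw [Finset.sum_apply]
    rw [Finset.sum_eq_single j]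
    · simp
    · intro b _ hb
      simp [Pi.single_eq_of_ne hb.symm]
    · intro hj
      exact absurd (Finset.mem_univ j) hj
  rw [← x.comp_mk₀_id, hid, Ext.mk₀_sum, Ext.comp_sum]
  apply Finset.sum_eq_zero
  intro i _
  rw [← Ext.mk₀_comp_mk₀, ← Ext.comp_assoc_of_second_deg_zero]
  have := h i n hn
  rw [Subsingleton.elim (x.comp (Ext.mk₀ (ModuleCat.ofHom (LinearMap.proj i :
    (∀ i, M i) →ₗ[R] M i))) (add_zero n)) 0, Ext.zero_comp]

theorem DGE_pi_iff {ι : Type} [Fintype ι] {M : ι → Type u} [∀ i, AddCommGroup (M i)]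
    [∀ i, Module R (M i)] {k : ℕ} : DGE m (∀ i, M i) k ↔ ∀ i, DGE m (M i) k := by
  classical
  refine ⟨fun h i => h.of_retract (LinearMap.single R M i) (LinearMap.proj i) ?_, DGE_pi⟩
  ext y
  simp

theorem DGE_prod {k : ℕ} (hA : DGE m A k) (hB : DGE m B k) : DGE m (A × B) k :=
  DGE_middle (f := LinearMap.inl R A B) (g := LinearMap.snd R A B) LinearMap.inl_injective
    LinearMap.snd_surjective (by
      intro x
      constructor
      · intro hx
        exact ⟨x.1, Prod.ext rfl hx.symm⟩
      · rintro ⟨y, rfl⟩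
        rfl) hA hB

/-- If `x ∈ m` is regular on `A`, with quotient `C = A/xA`, then the depth of `A` is at least the
depth of `C` plus one. -/
theorem DGE_succ_of_mul {k : ℕ} {x : R} (hx : x ∈ m) {g : A →ₗ[R] C}
    (hinj : Function.Injective (LinearMap.lsmul R A x)) (hg : Function.Surjective g)
    (hfg : Function.Exact (LinearMap.lsmul R A x) g) (hC : DGE m C k) : DGE m A (k + 1) := by
  intro i hi
  rw [subsingleton_ext_iff]
  intro y
  have hS := shortExact_mk (LinearMap.lsmul R A x) g hinj hg hfg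
  have hann : x ∈ Module.annihilator R (ModuleCat.of R (R ⧸ m)) := by
    rw [Module.mem_annihilator]
    intro z
    obtain ⟨z, rfl⟩ := Ideal.Quotient.mk_surjective z
    have : x • (Ideal.Quotient.mk m z) = Ideal.Quotient.mk m (x * z) := rfl
    rw [this, Ideal.Quotient.eq_zero_iff_mem]
    exact m.mul_mem_right z hx
  have h1 : y.comp (Ext.mk₀ (ModuleCat.ofHom (LinearMap.lsmul R A x))) (add_zero i) = 0 := by
    have h2 := Ext.postcomp_smul_id_eq_zero_of_mem_annihilator (M := ModuleCat.of R A) hann i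
    have h3 := congrArg (fun f => f.hom y) h2
    exact h3
  cases i with
  | zero =>
    have : Mono (ModuleCat.ofHom (LinearMap.lsmul R A x)) :=
      (ModuleCat.mono_iff_injective _).mpr hinj
    have hinj := Ext.postcomp_mk₀_injective_of_mono (ModuleCat.of R (R ⧸ m))
      (ModuleCat.ofHom (LinearMap.lsmul R A x))
    apply hinj
    rw [map_zero]
    exact h1
  | succ i =>
    obtain ⟨z, hz⟩ := Ext.covariant_sequence_exact₁ (ModuleCat.of R (R ⧸ m)) hS y h1 rfl
    have := hC i (by omega)
    rw [← hz, Subsingleton.elim z 0, Ext.zero_comp]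

theorem lsmul_injective_of_regular {x : R} (hx : IsSMulRegular A x) :
    Function.Injective (LinearMap.lsmul R A x) := hx

theorem DGE_quot_of_regular {k : ℕ} {x : R} (hx : IsSMulRegular A x) (h : DGE m A (k + 1)) :
    DGE m (QuotSMulTop x A) k :=
  DGE_right (f := LinearMap.lsmul R A x) (g := Submodule.mkQ _) hx (Submodule.mkQ_surjective _)
    (LinearMap.exact_lsmul_mkQ_smul_top A x) (h.mono (by omega)) h

theorem not_DGE_one_self [Nontrivial (R ⧸ m)] : ¬ DGE m (R ⧸ m) 1 := by
  intro h
  have h0 := h 0 Nat.zero_lt_one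
  have h1 : Subsingleton (ModuleCat.of R (R ⧸ m) ⟶ ModuleCat.of R (R ⧸ m)) :=
    Ext.addEquiv₀.symm.subsingleton
  have h2 : 𝟙 (ModuleCat.of R (R ⧸ m)) = 0 := Subsingleton.elim _ _
  have h3 : (1 : R ⧸ m) = 0 := by
    have := congrArg (fun f => f.hom (1 : R ⧸ m)) h2
    simp at this
  exact one_ne_zero h3

/-! ### Link with regular sequences -/

section Rees

variable [IsNoetherianRing R]

open RingTheory.Sequence in
theorem DGE_iff_exists_isRegular [Module.Finite R A] (hA : m • (⊤ : Submodule R A) < ⊤) (k : ℕ) :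
    DGE m A k ↔ ∃ rs : List R, rs.length = k ∧ (∀ r ∈ rs, r ∈ m) ∧ IsRegular A rs := by
  have htfae := ModuleCat.exists_isRegular_tfae m k (ModuleCat.of R A) hA
  have hm : m ≠ ⊤ := by
    rintro rfl
    rw [Submodule.top_smul] at hA
    exact lt_irrefl _ hA
  have : Nontrivial (R ⧸ m) := Ideal.Quotient.nontrivial_iff.mpr hm
  have hsupp : Module.support R (R ⧸ m) = PrimeSpectrum.zeroLocus m := by
    rw [Module.support_eq_zeroLocus, Ideal.annihilator_quotient]
  constructor
  · intro h
    have h3 : ∃ N : ModuleCat.{u} R, Nontrivial N ∧ Module.Finite R N ∧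
      Module.support R N = PrimeSpectrum.zeroLocus m ∧
        ∀ i < k, Subsingleton (Ext N (ModuleCat.of R A) i) :=
      ⟨ModuleCat.of R (R ⧸ m), this, Module.Finite.quotient R m, hsupp, h⟩
    exact (htfae.out 2 3).mp h3
  · intro h
    have h1 := (htfae.out 3 0).mp h
    exact h1 (ModuleCat.of R (R ⧸ m)) this (Module.Finite.quotient R m) hsupp.subset

end Rees

end Pool.Agent.Lib.MP_a8bb4d_al
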