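import Mathlib

/-!
# The product of the row sums bounds the determinant
-/

set_option autoImplicit false

namespace Pool.Agent.Lib.MP_a8bb4d_al

open Matrix

theorem abs_det_le_prod {n : ℕ} (M : Matrix (Fin n) (Fin n) ℤ) :
    |M.det| ≤ ∏ k, ∑ i, |M k i| := by
  classical
  have h1 : |M.det| ≤ ∑ σ : Equiv.Perm (Fin n), ∏ i, |M i (σ i)| := by
    rw [← Matrix.det_transpose, Matrix.det_apply']
    refine (Finset.abs_sum_le_sum_abs _ _).trans (le_of_eq ?_)
    apply Finset.sum_congr rfl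
    intro σ _
    rw [abs_mul, Finset.abs_prod]
    refine (congrArg (· * ∏ i, |M i (σ i)|) ?_).trans (one_mul _)
    rcases Int.units_eq_one_or (Equiv.Perm.sign σ) with h | h <;> rw [h] <;> simp
  refine h1.trans ?_
  rw [Finset.prod_univ_sum]
  rw [Fintype.piFinset_univ]
  let e : Equiv.Perm (Fin n) ↪ (Fin n → Fin n) := ⟨fun σ => σ, Equiv.coe_fn_injective⟩
  have h2 : ∑ σ : Equiv.Perm (Fin n), ∏ i, |M i (σ i)| =
      ∑ f ∈ Finset.univ.map e, ∏ i, |M i (f i)| := by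
    rw [Finset.sum_map]
    rfl
  rw [h2]
  apply Finset.sum_le_sum_of_subset_of_nonneg (Finset.subset_univ _)
  intro f _ _
  exact Finset.prod_nonneg (fun i _ => abs_nonneg _)

theorem abs_det_le_pow {n : ℕ} (M : Matrix (Fin n) (Fin n) ℤ) {d : ℕ}
    (h : ∀ k, ∑ i, |M k i| ≤ (d : ℤ)) : |M.det| ≤ (d : ℤ) ^ n := by
  refine (abs_det_le_prod M).trans ?_
  calc ∏ k, ∑ i, |M k i| ≤ ∏ _k : Fin n, (d : ℤ) :=
        Finset.prod_le_prod (fun k _ => Finset.sum_nonneg (fun i _ => abs_nonneg _))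
          (fun k _ => h k)
    _ = (d : ℤ) ^ n := by simp

end Pool.Agent.Lib.MP_a8bb4d_al
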