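import Mathlib

/-!
# Simultaneous approximation and rational combinations
-/

set_option autoImplicit false

namespace Pool.Agent.Lib.MP_a8bb4d_al

theorem dirichlet {κ : Type*} (S : Finset κ) (μ : κ → ℝ) (hμ : ∀ v ∈ S, 0 ≤ μ v) {M : ℕ}
    (hM : 1 ≤ M) :
    ∃ k : ℕ, 1 ≤ k ∧ ∃ m : κ → ℕ, ∀ v ∈ S, |(k : ℝ) * μ v - m v| < 1 / M := by
  classical
  have hM0 : (0 : ℝ) < M := by exact_mod_cast hM
  have hbox : ∀ x : ℝ, ⌊(M : ℝ) * Int.fract x⌋₊ < M := by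
    intro x
    rw [Nat.floor_lt (mul_nonneg hM0.le (Int.fract_nonneg x))]
    have := mul_lt_mul_of_pos_left (Int.fract_lt_one x) hM0
    linarith
  let F : ℕ → (S → Fin M) := fun k v => ⟨⌊(M : ℝ) * Int.fract ((k : ℝ) * μ v)⌋₊, hbox _⟩
  have hex : ∃ k₁ k₂ : ℕ, k₁ < k₂ ∧ F k₁ = F k₂ := by
    obtain ⟨k₁, k₂, hne, heq⟩ := Finite.exists_ne_map_eq_of_infinite F
    rcases lt_or_gt_of_ne hne with h | h
    · exact ⟨k₁, k₂, h, heq⟩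
    · exact ⟨k₂, k₁, h, heq.symm⟩
  obtain ⟨k₁, k₂, hlt, heq⟩ := hex
  refine ⟨k₂ - k₁, by omega, fun v => (⌊(k₂ : ℝ) * μ v⌋ - ⌊(k₁ : ℝ) * μ v⌋).toNat, ?_⟩
  intro v hv
  have hle : ⌊(k₁ : ℝ) * μ v⌋ ≤ ⌊(k₂ : ℝ) * μ v⌋ := by
    apply Int.floor_mono
    apply mul_le_mul_of_nonneg_right _ (hμ v hv)
    exact_mod_cast hlt.le
  have h1 : (((⌊(k₂ : ℝ) * μ v⌋ - ⌊(k₁ : ℝ) * μ v⌋).toNat : ℕ) : ℝ) =
      (⌊(k₂ : ℝ) * μ v⌋ : ℝ) - (⌊(k₁ : ℝ) * μ v⌋ : ℝ) := by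
    have h2 : (((⌊(k₂ : ℝ) * μ v⌋ - ⌊(k₁ : ℝ) * μ v⌋).toNat : ℕ) : ℤ) =
        ⌊(k₂ : ℝ) * μ v⌋ - ⌊(k₁ : ℝ) * μ v⌋ := Int.toNat_of_nonneg (by omega)
    have h3 := congrArg (fun t : ℤ => (t : ℝ)) h2
    simp only [Int.cast_natCast, Int.cast_sub] at h3
    exact h3
  rw [h1, Nat.cast_sub hlt.le]
  have h4 : ((k₂ : ℝ) - k₁) * μ v - ((⌊(k₂ : ℝ) * μ v⌋ : ℝ) - (⌊(k₁ : ℝ) * μ v⌋ : ℝ)) =
      Int.fract ((k₂ : ℝ) * μ v) - Int.fract ((k₁ : ℝ) * μ v) := by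
    rw [Int.fract, Int.fract]
    ring
  rw [h4]
  have h5 : ⌊(M : ℝ) * Int.fract ((k₁ : ℝ) * μ v)⌋₊ = ⌊(M : ℝ) * Int.fract ((k₂ : ℝ) * μ v)⌋₊ := by
    have := congrFun heq ⟨v, hv⟩
    exact congrArg Fin.val this
  have h6 := Nat.floor_le (mul_nonneg hM0.le (Int.fract_nonneg ((k₁ : ℝ) * μ v)))
  have h7 := Nat.lt_floor_add_one ((M : ℝ) * Int.fract ((k₁ : ℝ) * μ v))
  have h8 := Nat.floor_le (mul_nonneg hM0.le (Int.fract_nonneg ((k₂ : ℝ) * μ v)))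
  have h9 := Nat.lt_floor_add_one ((M : ℝ) * Int.fract ((k₂ : ℝ) * μ v))
  rw [h5] at h6 h7
  have h10 : |Int.fract ((k₂ : ℝ) * μ v) - Int.fract ((k₁ : ℝ) * μ v)| * (M : ℝ) =
      |(Int.fract ((k₂ : ℝ) * μ v) - Int.fract ((k₁ : ℝ) * μ v)) * (M : ℝ)| := by
    rw [abs_mul, abs_of_pos hM0]
  rw [lt_div_iff₀ hM0, h10, abs_lt]
  constructor <;> nlinarith

/-- Clearing the denominators of a real combination. -/
theorem exists_integral_combination {r : ℕ} (G : Finset (Fin r →₀ ℕ)) (lam : (Fin r →₀ ℕ) → ℝ)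
    (h0 : ∀ v ∈ G, 0 ≤ lam v) (h1 : ∑ v ∈ G, lam v = 1) (n : ℕ) (α : Fin r →₀ ℕ)
    (hle : ∀ i, ∑ v ∈ G, (n : ℝ) * lam v * (v i : ℝ) ≤ (α i : ℝ)) :
    ∃ (k : ℕ) (m : (Fin r →₀ ℕ) → ℕ), 1 ≤ k ∧ ∑ v ∈ G, m v = n * k ∧
      ∑ v ∈ G, m v • v ≤ k • α := by
  classical
  let M : ℕ := G.card + ∑ v ∈ G, ∑ i, v i + 1
  have hM : 1 ≤ M := Nat.le_add_left _ _
  have hM0 : (0 : ℝ) < M := by exact_mod_cast hM
  obtain ⟨k, hk, m, hm⟩ := dirichlet G (fun v => (n : ℝ) * lam v)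
    (fun v hv => mul_nonneg (Nat.cast_nonneg _) (h0 v hv)) hM
  refine ⟨k, m, hk, ?_, ?_⟩
  · -- the sums agree
    have h2 : |((n * k : ℕ) : ℝ) - ((∑ v ∈ G, m v : ℕ) : ℝ)| < 1 := by
      have h3 : ((n * k : ℕ) : ℝ) - ((∑ v ∈ G, m v : ℕ) : ℝ) =
          ∑ v ∈ G, ((k : ℝ) * ((n : ℝ) * lam v) - m v) := by
        rw [Finset.sum_sub_distrib, Nat.cast_sum, ← Finset.mul_sum, ← Finset.mul_sum, h1,
          Nat.cast_mul]
        ring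
      rw [h3]
      calc |∑ v ∈ G, ((k : ℝ) * ((n : ℝ) * lam v) - m v)|
          ≤ ∑ v ∈ G, |(k : ℝ) * ((n : ℝ) * lam v) - m v| := Finset.abs_sum_le_sum_abs _ _
        _ ≤ ∑ v ∈ G, 1 / (M : ℝ) := Finset.sum_le_sum (fun v hv => (hm v hv).le)
        _ = (G.card : ℝ) / M := by rw [Finset.sum_const, nsmul_eq_mul]; ring
        _ < 1 := by
          rw [div_lt_one hM0]
          have : G.card < M := by
            simp only [M]
            omega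
          exact_mod_cast this
    rw [abs_lt] at h2
    have h3 : ((n * k : ℕ) : ℝ) < ((∑ v ∈ G, m v + 1 : ℕ) : ℝ) := by
      rw [Nat.cast_add, Nat.cast_one]
      linarith
    have h4 : ((∑ v ∈ G, m v : ℕ) : ℝ) < ((n * k + 1 : ℕ) : ℝ) := by
      rw [Nat.cast_add, Nat.cast_one]
      linarith
    have h5 : n * k < ∑ v ∈ G, m v + 1 := by exact_mod_cast h3
    have h6 : ∑ v ∈ G, m v < n * k + 1 := by exact_mod_cast h4
    omega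
  · intro i
    have h2 : ((∑ v ∈ G, m v * v i : ℕ) : ℝ) < ((k * α i + 1 : ℕ) : ℝ) := by
      rw [Nat.cast_sum, Nat.cast_add, Nat.cast_mul, Nat.cast_one]
      have h3 : ∀ v ∈ G, ((m v * v i : ℕ) : ℝ) ≤
          (k : ℝ) * ((n : ℝ) * lam v * (v i : ℝ)) + (1 / (M : ℝ)) * (v i : ℝ) := by
        intro v hv
        have h4 := (abs_lt.mp (hm v hv)).1
        have h5 : (m v : ℝ) ≤ (k : ℝ) * ((n : ℝ) * lam v) + 1 / M := by linarith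
        have h6 := mul_le_mul_of_nonneg_right h5 (Nat.cast_nonneg (α := ℝ) (v i))
        rw [Nat.cast_mul]
        linarith
      have h4 := Finset.sum_le_sum h3
      rw [Finset.sum_add_distrib, ← Finset.mul_sum, ← Finset.mul_sum] at h4
      have h5 := mul_le_mul_of_nonneg_left (hle i) (Nat.cast_nonneg (α := ℝ) k)
      have h6 : (1 / (M : ℝ)) * ∑ v ∈ G, (v i : ℝ) < 1 := by
        rw [one_div, inv_mul_lt_iff₀ hM0, mul_one]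
        have h7 : ∑ v ∈ G, v i < M := by
          have h8 : ∑ v ∈ G, v i ≤ ∑ v ∈ G, ∑ i, v i :=
            Finset.sum_le_sum (fun v _ => Finset.single_le_sum (f := fun i => v i)
              (fun _ _ => Nat.zero_le _) (Finset.mem_univ i))
          simp only [M]
          omega
        exact_mod_cast h7
      linarith
    have h3 : ∑ v ∈ G, m v * v i < k * α i + 1 := by exact_mod_cast h2
    rw [Finsupp.finsetSum_apply]
    simp only [Finsupp.smul_apply, smul_eq_mul]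
    omega

end Pool.Agent.Lib.MP_a8bb4d_al
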