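import Mathlib

/-!
# Sweeping along generic lines in an arrangement of half-spaces
-/

set_option autoImplicit false
set_option linter.unusedSectionVars false

namespace Pool.Agent.Lib.MP_a8bb4d_al

open Filter Topology

/-! ### A convex set is not covered by finitely many proper hyperplanes -/

theorem exists_avoid {E : Type*} [AddCommGroup E] [Module ℝ E] {C : Set E} (hC : Convex ℝ C)
    (hne : C.Nonempty) {β : Type*} [DecidableEq β] (f : β → E →ₗ[ℝ] ℝ) (c : β → ℝ) (S : Finset β)
    (h : ∀ p ∈ S, ∃ w ∈ C, f p w ≠ c p) : ∃ w ∈ C, ∀ p ∈ S, f p w ≠ c p := by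
  induction S using Finset.induction_on with
  | empty =>
    obtain ⟨w, hw⟩ := hne
    exact ⟨w, hw, fun p hp => absurd hp (Finset.notMem_empty p)⟩
  | insert s S hs ih =>
    obtain ⟨x, hx, hxS⟩ := ih (fun p hp => h p (Finset.mem_insert_of_mem hp))
    obtain ⟨y, hy, hys⟩ := h s (Finset.mem_insert_self s S)
    -- bad parameters
    have hbad : ∀ p ∈ insert s S, {t : ℝ | f p (x + t • (y - x)) = c p}.Subsingleton := by
      intro p hp t ht t' ht'
      by_contra hne'
      have ht1 : f p x + t * f p (y - x) = c p := by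
        have := ht
        simp only [Set.mem_ofPred_eq, map_add, map_smul, smul_eq_mul] at this
        exact this
      have ht2 : f p x + t' * f p (y - x) = c p := by
        have := ht'
        simp only [Set.mem_ofPred_eq, map_add, map_smul, smul_eq_mul] at this
        exact this
      have h3 : (t - t') * f p (y - x) = 0 := by linarith
      have h4 : f p (y - x) = 0 := by
        rcases mul_eq_zero.mp h3 with h | h
        · exact absurd (sub_eq_zero.mp h) hne'
        · exact h
      have h5 : f p x = c p := by rw [h4] at ht1; linarith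
      rcases Finset.mem_insert.mp hp with rfl | hp'
      · apply hys
        have : f p y = f p x := by
          have := h4
          rw [map_sub] at this
          linarith
        rw [this, h5]
      · exact hxS p hp' h5
    have hfin : (⋃ p ∈ insert s S, {t : ℝ | f p (x + t • (y - x)) = c p}).Finite := by
      apply Set.Finite.biUnion (Finset.finite_toSet (insert s S))
      intro p hp
      exact (hbad p hp).finite
    obtain ⟨t, ht, htbad⟩ := ((Set.Icc_infinite (zero_lt_one (α := ℝ))).sdiff hfin).nonempty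
    refine ⟨x + t • (y - x), ?_, ?_⟩
    · have := hC hx hy (sub_nonneg.mpr ht.2) ht.1 (by ring)
      convert this using 1
      module
    · intro p hp hcon
      apply htbad
      rw [Set.mem_iUnion₂]
      exact ⟨p, hp, hcon⟩

theorem finrank_sup_singleton {V : Type*} [AddCommGroup V] [Module ℝ V] [FiniteDimensional ℝ V]
    (p : Submodule ℝ V) {x : V} (hx : x ∉ p) :
    Module.finrank ℝ (p ⊔ Submodule.span ℝ {x} : Submodule ℝ V) = Module.finrank ℝ p + 1 := by
  have h1 := Submodule.finrank_sup_add_finrank_inf_eq p (Submodule.span ℝ {x})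
  have hx0 : x ≠ 0 := fun h => hx (h ▸ p.zero_mem)
  rw [finrank_span_singleton hx0] at h1
  have h2 : p ⊓ Submodule.span ℝ {x} = ⊥ := by
    rw [eq_bot_iff]
    intro y hy
    obtain ⟨hy1, hy2⟩ := Submodule.mem_inf.mp hy
    obtain ⟨c, rfl⟩ := Submodule.mem_span_singleton.mp hy2
    by_cases hc : c = 0
    · simp [hc]
    · exfalso
      apply hx
      have := p.smul_mem c⁻¹ hy1
      rwa [smul_smul, inv_mul_cancel₀ hc, one_smul] at this
  rw [h2, finrank_bot] at h1
  omega

section arrangement

variable {r : ℕ} {ι : Type} [Fintype ι] [DecidableEq ι] (a : ι → Fin r → ℝ) (b : ι → ℝ)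

/-- the linear functional `x ↦ ∑ a_j(i) x_i` -/
noncomputable def L (j : ι) : (Fin r → ℝ) →ₗ[ℝ] ℝ := ∑ i, a j i • LinearMap.proj i

theorem L_apply (j : ι) (x : Fin r → ℝ) : L a j x = ∑ i, a j i * x i := by
  simp [L]

/-- the points with positive coordinates -/
def IsPos (x : Fin r → ℝ) : Prop := ∀ i, 0 < x i

/-- `w` lies on the hyperplanes of `J` and strictly inside the other half-spaces -/
def IsStrict (J : Finset ι) (w : Fin r → ℝ) : Prop :=
  IsPos w ∧ (∀ j ∈ J, L a j w = b j) ∧ ∀ j ∉ J, b j < L a j w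

/-- `J` is the set of constraints active at some positive point of the polyhedron -/
def IsFace (J : Finset ι) : Prop := ∃ w, IsStrict a b J w

/-- the constraints violated by `z` -/
noncomputable def viol (z : Fin r → ℝ) : Finset ι := Finset.univ.filter (fun j => L a j z < b j)

/-- the coordinates not seen by the constraint `j` -/
noncomputable def zeroSet (j : ι) : Finset (Fin r) := Finset.univ.filter (fun i => a j i = 0)

/-- the coordinates not seen by any constraint in `J` -/
noncomputable def EE (J : Finset ι) : Finset (Fin r) := Finset.univ.filter (fun i => ∀ j ∈ J, a j i = 0)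

/-- the rank of the functionals in `J` -/
noncomputable def rk (J : Finset ι) : ℕ := Module.finrank ℝ (Submodule.span ℝ (L a '' (J : Set ι)))

theorem mem_viol {z : Fin r → ℝ} {j : ι} : j ∈ viol a b z ↔ L a j z < b j := by
  simp [viol]

theorem mem_zeroSet {j : ι} {i : Fin r} : i ∈ zeroSet a j ↔ a j i = 0 := by
  simp [zeroSet]

theorem mem_EE {J : Finset ι} {i : Fin r} : i ∈ EE a J ↔ ∀ j ∈ J, a j i = 0 := by
  simp [EE]

variable {a b}

theorem IsPos.add_smul {w u : Fin r → ℝ} (hw : IsPos w) :
    ∀ᶠ ε in 𝓝[>] (0 : ℝ), IsPos (w + ε • u) := by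
  unfold IsPos
  rw [Filter.eventually_all]
  intro i
  have h1 : Tendsto (fun ε : ℝ => (w + ε • u) i) (𝓝[>] 0) (𝓝 (w i)) := by
    have : Tendsto (fun ε : ℝ => w i + ε * u i) (𝓝 0) (𝓝 (w i + 0 * u i)) :=
      tendsto_const_nhds.add (tendsto_id.mul_const _)
    rw [zero_mul, add_zero] at this
    exact this.mono_left nhdsWithin_le_nhds
  exact h1.eventually (lt_mem_nhds (hw i))

theorem eventually_strict {J : Finset ι} {w u : Fin r → ℝ} (hJ : ∀ j ∉ J, b j < L a j w) :
    ∀ᶠ ε in 𝓝[>] (0 : ℝ), ∀ j ∉ J, b j < L a j (w + ε • u) := by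
  rw [Filter.eventually_all]
  intro j
  by_cases hj : j ∈ J
  · exact Filter.Eventually.of_forall (fun ε h => absurd hj h)
  · have h1 : Tendsto (fun ε : ℝ => L a j (w + ε • u)) (𝓝[>] 0) (𝓝 (L a j w)) := by
      have h2 : Tendsto (fun ε : ℝ => L a j w + ε * L a j u) (𝓝 0) (𝓝 (L a j w + 0 * L a j u)) :=
        tendsto_const_nhds.add (tendsto_id.mul_const _)
      rw [zero_mul, add_zero] at h2
      have h3 : (fun ε : ℝ => L a j (w + ε • u)) = fun ε : ℝ => L a j w + ε * L a j u := by
        funext ε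
        rw [map_add, map_smul, smul_eq_mul]
      rw [h3]
      exact h2.mono_left nhdsWithin_le_nhds
    filter_upwards [h1.eventually (lt_mem_nhds (hJ j hj))] with ε hε _
    exact hε

theorem exists_small {J : Finset ι} {w : Fin r → ℝ} (hw : IsStrict a b J w) (u : Fin r → ℝ) :
    ∃ ε : ℝ, 0 < ε ∧ IsPos (w + ε • u) ∧ ∀ j ∉ J, b j < L a j (w + ε • u) := by
  have h := (eventually_mem_nhdsWithin (a := (0 : ℝ)) (s := Set.Ioi 0)).and
    ((IsPos.add_smul (u := u) hw.1).and (eventually_strict (u := u) hw.2.2))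
  obtain ⟨ε, h1, h2, h3⟩ := h.exists
  exact ⟨ε, h1, h2, h3⟩

theorem convex_strict (J : Finset ι) : Convex ℝ {w | IsStrict a b J w} := by
  intro x hx y hy s t hs ht hst
  refine ⟨?_, ?_, ?_⟩
  · intro i
    have h1 := hx.1 i
    have h2 := hy.1 i
    simp only [Pi.add_apply, Pi.smul_apply, smul_eq_mul]
    rcases hs.eq_or_lt with rfl | hs'
    · have : t = 1 := by linarith
      subst this
      linarith
    · have := mul_pos hs' h1
      have := mul_nonneg ht h2.le
      linarith
  · intro j hj
    rw [map_add, map_smul, map_smul, hx.2.1 j hj, hy.2.1 j hj, smul_eq_mul, smul_eq_mul, ← add_mul,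
      hst, one_mul]
  · intro j hj
    have h1 := hx.2.2 j hj
    have h2 := hy.2.2 j hj
    rw [map_add, map_smul, map_smul, smul_eq_mul, smul_eq_mul]
    rcases hs.eq_or_lt with rfl | hs'
    · have : t = 1 := by linarith
      subst this
      linarith
    · have h3 := mul_lt_mul_of_pos_left h1 hs'
      have h4 := mul_le_mul_of_nonneg_left h2.le ht
      have h5 : b j = s * b j + t * b j := by rw [← add_mul, hst, one_mul]
      linarith

/-- A functional constant on the strict points of `J` is a combination of those of `J`. -/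
theorem mem_span_of_const {J : Finset ι} {m : (Fin r → ℝ) →ₗ[ℝ] ℝ} {c : ℝ}
    {w : Fin r → ℝ} (hw : IsStrict a b J w) (h : ∀ x, IsStrict a b J x → m x = c) :
    m ∈ Submodule.span ℝ (L a '' (J : Set ι)) := by
  have h1 : m ∈ Submodule.span ℝ (Set.range (fun j : J => L a j)) := by
    apply mem_span_of_iInf_ker_le_ker
    intro u hu
    rw [Submodule.mem_iInf] at hu
    rw [LinearMap.mem_ker]
    obtain ⟨ε, hε, hp, hs⟩ := exists_small hw u
    have h2 : IsStrict a b J (w + ε • u) := by
      refine ⟨hp, ?_, hs⟩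
      intro j hj
      have h3 : L a j u = 0 := hu ⟨j, hj⟩
      rw [map_add, map_smul, h3, smul_zero, add_zero, hw.2.1 j hj]
    have h3 := h _ h2
    rw [map_add, map_smul, h w hw, smul_eq_mul] at h3
    have h4 : ε * m u = 0 := by linarith
    rcases mul_eq_zero.mp h4 with h5 | h5
    · exact absurd h5 hε.ne'
    · exact h5
  convert h1 using 2
  ext x
  simp

/-- Generic strict points. -/
theorem exists_generic {J : Finset ι} (hJ : IsFace a b J) {z : Fin r → ℝ} (V : Finset ι) :
    ∃ w, IsStrict a b J w ∧ ∀ j ∈ V, ∀ j' ∈ V, b j - L a j z ≠ 0 →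
      (b j - L a j z) * (L a j' (w - z)) = (b j' - L a j' z) * (L a j (w - z)) →
      ∃ c : ℝ, L a j' - c • L a j ∈ Submodule.span ℝ (L a '' (J : Set ι)) := by
  classical
  obtain ⟨w₀, hw₀⟩ := hJ
  let f : ι × ι → ((Fin r → ℝ) →ₗ[ℝ] ℝ) := fun p =>
    (b p.1 - L a p.1 z) • L a p.2 - (b p.2 - L a p.2 z) • L a p.1
  let S : Finset (ι × ι) := (V ×ˢ V).filter (fun p => ∃ w, IsStrict a b J w ∧ f p w ≠ f p z)
  obtain ⟨w, hw, hav⟩ := exists_avoid (convex_strict (a := a) (b := b) J) ⟨w₀, hw₀⟩ f
    (fun p => f p z) S (by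
      intro p hp
      obtain ⟨w, hw, h⟩ := (Finset.mem_filter.mp hp).2
      exact ⟨w, hw, h⟩)
  refine ⟨w, hw, ?_⟩
  intro j hj j' hj' hne heq
  by_contra hcon
  have hnot : (j, j') ∉ S := by
    intro hin
    apply hav _ hin
    simp only [f, LinearMap.sub_apply, LinearMap.smul_apply, smul_eq_mul]
    rw [map_sub, map_sub] at heq
    linarith
  have hconst : ∀ x, IsStrict a b J x → f (j, j') x = f (j, j') z := by
    intro x hx
    by_contra hne'
    exact hnot (Finset.mem_filter.mpr ⟨Finset.mem_product.mpr ⟨hj, hj'⟩, x, hx, hne'⟩)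
  have hmem := mem_span_of_const hw₀ hconst
  apply hcon
  refine ⟨(b j' - L a j' z) / (b j - L a j z), ?_⟩
  have h1 := Submodule.smul_mem _ (b j - L a j z)⁻¹ hmem
  convert h1 using 1
  simp only [f]
  rw [smul_sub, smul_smul, smul_smul, inv_mul_cancel₀ hne, one_smul, div_eq_inv_mul]

theorem L_single (j : ι) (i : Fin r) : L a j (Pi.single i 1) = a j i := by
  rw [L_apply, Finset.sum_eq_single i]
  · simp
  · intro k _ hk
    rw [Pi.single_eq_of_ne hk, mul_zero]
  · intro h
    exact absurd (Finset.mem_univ i) h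

theorem eval_span_eq_zero {J : Finset ι} {m : (Fin r → ℝ) →ₗ[ℝ] ℝ}
    (hm : m ∈ Submodule.span ℝ (L a '' (J : Set ι))) {u : Fin r → ℝ}
    (hu : ∀ j ∈ J, L a j u = 0) : m u = 0 := by
  induction hm using Submodule.span_induction with
  | mem x hx =>
    obtain ⟨j, hj, rfl⟩ := hx
    exact hu j hj
  | zero => rfl
  | add x y _ _ hx hy => rw [LinearMap.add_apply, hx, hy, add_zero]
  | smul c x _ hx => rw [LinearMap.smul_apply, hx, smul_zero]

theorem exists_sweep {J₀ : Finset ι} (hJ₀ : IsFace a b J₀)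
    {z : Fin r → ℝ} (hzJ : ∀ j ∈ J₀, L a j z = b j) :
    ∃ w, IsStrict a b J₀ w ∧ ∀ t : ℝ, 0 < t → t < 1 → ∀ j₀ ∈ viol a b z,
      L a j₀ (z + t • (w - z)) = b j₀ →
      (∀ j ∈ (viol a b z).filter (fun j => L a j (z + t • (w - z)) = b j),
        EE a J₀ ∩ zeroSet a j =
          EE a (J₀ ∪ (viol a b z).filter (fun j => L a j (z + t • (w - z)) = b j))) ∧
      rk a (J₀ ∪ (viol a b z).filter (fun j => L a j (z + t • (w - z)) = b j)) = rk a J₀ + 1 := by
  classical
  obtain ⟨w, hw, hgen⟩ := exists_generic hJ₀ (z := z) (viol a b z)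
  refine ⟨w, hw, ?_⟩
  intro t ht0 ht1 j₀ hj₀ hj₀t
  set S := (viol a b z).filter (fun j => L a j (z + t • (w - z)) = b j) with hS
  have hj₀S : j₀ ∈ S := Finset.mem_filter.mpr ⟨hj₀, hj₀t⟩
  -- basic facts on the elements of `S`
  have hS1 : ∀ j ∈ S, L a j z < b j ∧ t * L a j (w - z) = b j - L a j z ∧ 0 < L a j (w - z) := by
    intro j hj
    obtain ⟨h1, h2⟩ := Finset.mem_filter.mp hj
    rw [mem_viol] at h1
    have h3 : t * L a j (w - z) = b j - L a j z := by
      have := h2
      rw [map_add, map_smul, smul_eq_mul] at this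
      linarith
    refine ⟨h1, h3, ?_⟩
    have h4 : 0 < t * L a j (w - z) := by rw [h3]; linarith
    exact (pos_iff_pos_of_mul_pos h4).mp ht0
  have hJ₀u : ∀ k ∈ J₀, L a k (w - z) = 0 := by
    intro k hk
    rw [map_sub, hw.2.1 k hk, hzJ k hk, sub_self]
  -- pairwise dependence
  have hdep : ∀ j ∈ S, ∀ j' ∈ S, ∃ c : ℝ, 0 < c ∧
      L a j' - c • L a j ∈ Submodule.span ℝ (L a '' (J₀ : Set ι)) := by
    intro j hj j' hj'
    obtain ⟨h1, h2, h3⟩ := hS1 j hj
    obtain ⟨h1', h2', h3'⟩ := hS1 j' hj'
    obtain ⟨c, hc⟩ := hgen j (Finset.mem_filter.mp hj).1 j' (Finset.mem_filter.mp hj').1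
      (by linarith) (by rw [← h2, ← h2']; ring)
    refine ⟨c, ?_, hc⟩
    have h4 := eval_span_eq_zero hc hJ₀u
    rw [LinearMap.sub_apply, LinearMap.smul_apply, smul_eq_mul] at h4
    have h5 : 0 < c * L a j (w - z) := by linarith
    exact (pos_iff_pos_of_mul_pos h5).mpr h3
  have hzero : ∀ j ∈ S, ∀ j' ∈ S, ∀ i ∈ EE a J₀, a j i = 0 → a j' i = 0 := by
    intro j hj j' hj' i hi h0
    obtain ⟨c, _, hc⟩ := hdep j hj j' hj'
    have h4 := eval_span_eq_zero hc (u := Pi.single i 1) (by
      intro k hk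
      rw [L_single]
      exact (mem_EE a).mp hi k hk)
    rw [LinearMap.sub_apply, LinearMap.smul_apply, L_single, L_single, h0, smul_zero,
      sub_zero] at h4
    exact h4
  constructor
  · intro j hj
    ext i
    rw [Finset.mem_inter, mem_zeroSet, mem_EE, mem_EE]
    constructor
    · rintro ⟨h1, h2⟩ k hk
      rcases Finset.mem_union.mp hk with hk | hk
      · exact h1 k hk
      · exact hzero j hj k hk i ((mem_EE a).mpr h1) h2
    · intro h
      exact ⟨fun k hk => h k (Finset.mem_union_left _ hk), h j (Finset.mem_union_right _ hj)⟩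
  · have hnot : L a j₀ ∉ Submodule.span ℝ (L a '' (J₀ : Set ι)) := by
      intro h
      have h1 := eval_span_eq_zero h hJ₀u
      have h2 := (hS1 j₀ hj₀S).2.2
      linarith
    have hspan : Submodule.span ℝ (L a '' ((J₀ ∪ S : Finset ι) : Set ι)) =
        Submodule.span ℝ (L a '' (J₀ : Set ι)) ⊔ Submodule.span ℝ {L a j₀} := by
      apply le_antisymm
      · rw [Submodule.span_le]
        rintro _ ⟨j, hj, rfl⟩
        rcases Finset.mem_union.mp hj with hj | hj
        · exact Submodule.mem_sup_left (Submodule.subset_span ⟨j, hj, rfl⟩)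
        · obtain ⟨c, _, hc⟩ := hdep j₀ hj₀S j hj
          have : L a j = (L a j - c • L a j₀) + c • L a j₀ := by simp
          rw [this]
          exact Submodule.add_mem_sup hc (Submodule.smul_mem _ _ (Submodule.mem_span_singleton_self _))
      · apply sup_le
        · apply Submodule.span_mono
          apply Set.image_mono
          intro j hj
          exact Finset.mem_coe.mpr (Finset.mem_union_left _ hj)
        · rw [Submodule.span_singleton_le_iff_mem]
          exact Submodule.subset_span ⟨j₀, Finset.mem_coe.mpr (Finset.mem_union_right _ hj₀S), rfl⟩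
    unfold rk
    rw [hspan]
    exact finrank_sup_singleton _ hnot

/-- Basic facts on the points of a segment from a positive point to a strict point. -/
theorem segment_facts {J₀ : Finset ι} {z w : Fin r → ℝ} (hz : IsPos z)
    (hzJ : ∀ j ∈ J₀, L a j z = b j) (hw : IsStrict a b J₀ w) {t : ℝ} (ht0 : 0 < t) (ht1 : t < 1) :
    IsPos (z + t • (w - z)) ∧ (∀ j ∈ J₀, L a j (z + t • (w - z)) = b j) ∧
      (∀ j ∉ J₀, j ∉ viol a b z → b j < L a j (z + t • (w - z))) := by
  refine ⟨?_, ?_, ?_⟩
  · intro i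
    have h1 := hz i
    have h2 := hw.1 i
    simp only [Pi.add_apply, Pi.smul_apply, Pi.sub_apply, smul_eq_mul]
    have h3 : 0 < t * w i := mul_pos ht0 h2
    have h4 : 0 < (1 - t) * z i := mul_pos (by linarith) h1
    linarith
  · intro j hj
    rw [map_add, map_smul, map_sub, hzJ j hj, hw.2.1 j hj, sub_self, smul_zero, add_zero]
  · intro j hj hjv
    have h1 : b j ≤ L a j z := by
      by_contra h
      exact hjv (mem_viol (a := a) (b := b) |>.mpr (not_le.mp h))
    have h2 := hw.2.2 j hj
    rw [map_add, map_smul, map_sub, smul_eq_mul]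
    have h3 : t * b j < t * L a j w := mul_lt_mul_of_pos_left h2 ht0
    have h4 : (1 - t) * b j ≤ (1 - t) * L a j z := mul_le_mul_of_nonneg_left h1 (by linarith)
    linarith

/-- The crossing time of a violated constraint. -/
theorem crossing_time {J₀ : Finset ι} {z w : Fin r → ℝ} (hzJ : ∀ j ∈ J₀, L a j z = b j)
    (hw : IsStrict a b J₀ w) {j : ι} (hj : j ∈ viol a b z) :
    ∃ τ : ℝ, 0 < τ ∧ τ < 1 ∧ ∀ t : ℝ, (L a j (z + t • (w - z)) < b j ↔ t < τ) ∧
      (L a j (z + t • (w - z)) = b j ↔ t = τ) ∧ (b j < L a j (z + t • (w - z)) ↔ τ < t) := by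
  have hjv := mem_viol (a := a) (b := b) |>.mp hj
  have hjJ : j ∉ J₀ := fun h => by
    have := hzJ j h
    linarith
  have hwj := hw.2.2 j hjJ
  have hd : 0 < L a j (w - z) := by rw [map_sub]; linarith
  refine ⟨(b j - L a j z) / L a j (w - z), div_pos (by linarith) hd, ?_, ?_⟩
  · rw [div_lt_one hd, map_sub]
    linarith
  · intro t
    have h1 : L a j (z + t • (w - z)) = L a j z + t * L a j (w - z) := by
      rw [map_add, map_smul, smul_eq_mul]
    rw [h1, lt_div_iff₀ hd, div_lt_iff₀ hd, eq_div_iff hd.ne']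
    refine ⟨⟨fun h => by linarith, fun h => by linarith⟩, ⟨fun h => by linarith, fun h => by linarith⟩,
      ⟨fun h => by linarith, fun h => by linarith⟩⟩

end arrangement

end Pool.Agent.Lib.MP_a8bb4d_al
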