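import Mathlib

/-!
# The integral closure of an ideal
-/

set_option autoImplicit false

namespace Pool.Agent.Lib.MP_a8bb4d_al

open Polynomial

universe u

variable {R : Type u} [CommRing R]

/-- `x` is integral over the ideal `𝔞`: it satisfies an equation
`x ^ k + c 1 * x ^ (k - 1) + ⋯ + c k = 0` with `k ≥ 1` and `c i ∈ 𝔞 ^ i`. -/
def IntOver (𝔞 : Ideal R) (x : R) : Prop :=
  ∃ (k : ℕ) (c : ℕ → R), 1 ≤ k ∧ (∀ i ∈ Finset.Icc 1 k, c i ∈ 𝔞 ^ i) ∧
    x ^ k + ∑ i ∈ Finset.Icc 1 k, c i * x ^ (k - i) = 0

theorem sum_range_eq_sum_Icc (k : ℕ) (f : ℕ → R) :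
    ∑ l ∈ Finset.range k, f l = ∑ i ∈ Finset.Icc 1 k, f (k - i) := by
  apply Finset.sum_nbij' (fun l => k - l) (fun i => k - i)
  · intro l hl
    rw [Finset.mem_range] at hl
    rw [Finset.mem_Icc]
    omega
  · intro i hi
    rw [Finset.mem_Icc] at hi
    rw [Finset.mem_range]
    omega
  · intro l hl
    rw [Finset.mem_range] at hl
    omega
  · intro i hi
    rw [Finset.mem_Icc] at hi
    omega
  · intro l hl
    rw [Finset.mem_range] at hl
    congr 1
    omega

theorem intOver_iff (𝔞 : Ideal R) (x : R) :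
    IntOver 𝔞 x ↔ IsIntegral (reesAlgebra 𝔞) (monomial 1 x : R[X]) := by
  constructor
  · rintro ⟨k, c, hk, hc, heq⟩
    let q : (reesAlgebra 𝔞)[X] := ∑ i ∈ (Finset.Icc 1 k).attach,
      C (⟨monomial i (c i), reesAlgebra.monomial_mem.mpr (hc i i.2)⟩ : reesAlgebra 𝔞) *
        X ^ (k - (i : ℕ))
    have hq : q.degree < k := by
      rw [← Polynomial.mem_degreeLT]
      apply Submodule.sum_mem
      intro i _
      rw [Polynomial.mem_degreeLT]
      refine lt_of_le_of_lt (Polynomial.degree_C_mul_X_pow_le _ _) ?_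
      have := Finset.mem_Icc.mp i.2
      exact_mod_cast (show k - (i : ℕ) < k by omega)
    refine ⟨X ^ k + q, Polynomial.monic_X_pow_add hq, ?_⟩
    rw [Polynomial.eval₂_add, Polynomial.eval₂_X_pow, Polynomial.eval₂_finsetSum]
    simp_rw [Polynomial.eval₂_mul, Polynomial.eval₂_C, Polynomial.eval₂_X_pow]
    show (monomial 1 x : R[X]) ^ k + ∑ i ∈ (Finset.Icc 1 k).attach,
      (monomial (i : ℕ) (c i) : R[X]) * (monomial 1 x) ^ (k - (i : ℕ)) = 0
    rw [Finset.sum_attach (Finset.Icc 1 k)
      (fun i => (monomial i (c i) : R[X]) * (monomial 1 x) ^ (k - i))]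
    have h1 : ∀ i ∈ Finset.Icc 1 k, (monomial i (c i) : R[X]) * (monomial 1 x) ^ (k - i) =
        monomial k (c i * x ^ (k - i)) := by
      intro i hi
      have := Finset.mem_Icc.mp hi
      rw [Polynomial.monomial_pow, Polynomial.monomial_mul_monomial,
        show i + 1 * (k - i) = k by omega]
    rw [Finset.sum_congr rfl h1, Polynomial.monomial_pow, one_mul, ← map_sum, ← map_add, heq,
      map_zero]
  · rintro ⟨p, hp, heq⟩
    rcases subsingleton_or_nontrivial R with hR | hR
    · exact ⟨1, fun _ => 0, le_rfl, fun i _ => Submodule.zero_mem _, Subsingleton.elim _ _⟩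
    · by_cases hk : p.natDegree = 0
      · have h1 : p = 1 := Polynomial.eq_one_of_monic_natDegree_zero hp hk
        rw [h1, Polynomial.eval₂_one] at heq
        exact absurd heq one_ne_zero
      · set k := p.natDegree with hkdef
        refine ⟨k, fun i => ((p.coeff (k - i) : reesAlgebra 𝔞) : R[X]).coeff i, by omega, ?_, ?_⟩
        · intro i _
          exact (p.coeff (k - i)).2 i
        · rw [Polynomial.eval₂_eq_sum_range, ← hkdef] at heq
          have h2 := congrArg (fun q : R[X] => q.coeff k) heq
          simp only [Polynomial.finsetSum_coeff, Polynomial.coeff_zero] at h2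
          have h3 : ∀ l ∈ Finset.range (k + 1),
              ((algebraMap (reesAlgebra 𝔞) R[X]) (p.coeff l) * (monomial 1 x) ^ l).coeff k =
                ((p.coeff l : reesAlgebra 𝔞) : R[X]).coeff (k - l) * x ^ l := by
            intro l hl
            rw [Finset.mem_range] at hl
            have h4 : (monomial 1 x : R[X]) ^ l = C (x ^ l) * X ^ l := by
              rw [Polynomial.monomial_pow, one_mul, Polynomial.C_mul_X_pow_eq_monomial]
            rw [h4, ← mul_assoc, Polynomial.coeff_mul_X_pow', if_pos (by omega),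
              Polynomial.coeff_mul_C]
            rfl
          rw [Finset.sum_congr rfl h3, Finset.sum_range_succ, sum_range_eq_sum_Icc] at h2
          have h5 : ((p.coeff k : reesAlgebra 𝔞) : R[X]) = 1 := by
            rw [hkdef, hp.coeff_natDegree]
            rfl
          rw [Nat.sub_self, h5, Polynomial.coeff_one_zero, one_mul, add_comm] at h2
          convert h2 using 2
          apply Finset.sum_congr rfl
          intro i hi
          have := Finset.mem_Icc.mp hi
          have h6 : k - (k - i) = i := by omega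
          rw [h6]

/-- The integral closure of an ideal `𝔞`: the ideal of the elements integral over `𝔞`. -/
def intClosure (𝔞 : Ideal R) : Ideal R where
  carrier := {x | IntOver 𝔞 x}
  add_mem' := by
    intro a b ha hb
    rw [Set.mem_ofPred_eq, intOver_iff] at ha hb ⊢
    rw [map_add]
    exact ha.add hb
  zero_mem' := by
    rw [Set.mem_ofPred_eq, intOver_iff, map_zero]
    exact isIntegral_zero
  smul_mem' := by
    intro c x hx
    rw [Set.mem_ofPred_eq, intOver_iff] at hx ⊢
    have h1 : (monomial 1 (c • x) : R[X]) =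
        algebraMap (reesAlgebra 𝔞) R[X] (algebraMap R (reesAlgebra 𝔞) c) * monomial 1 x := by
      rw [← IsScalarTower.algebraMap_apply, Polynomial.algebraMap_apply, Algebra.algebraMap_self,
        RingHom.id_apply, Polynomial.C_mul_monomial, smul_eq_mul]
    rw [h1]
    exact isIntegral_algebraMap.mul hx

theorem mem_intClosure {𝔞 : Ideal R} {x : R} : x ∈ intClosure 𝔞 ↔ IntOver 𝔞 x := Iff.rfl

end Pool.Agent.Lib.MP_a8bb4d_al
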