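import Pool.Agent.Lib.MP_a8bb4d_al.Newton
import Pool.Agent.Lib.MP_a8bb4d_al.Geometry

/-!
# Lattice points violating exactly the constraints of a face
-/

set_option autoImplicit false

namespace Pool.Agent.Lib.MP_a8bb4d_al

open Module

variable {r : ℕ} {G : Finset (Fin r →₀ ℕ)} {B : ℕ}

/-- coefficients of a constraint -/
def aC (j : Con G B) (i : Fin r) : ℝ := ((j.1.1 i : ℕ) : ℝ)

/-- right-hand side of a constraint -/
def bC (j : Con G B) : ℝ := ((j.1.2 : ℕ) : ℝ)

/-- left-hand side of a constraint at a lattice point -/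
def sC (j : Con G B) (v : Fin r →₀ ℕ) : ℕ := ∑ i, (j.1.1 i : ℕ) * v i

theorem L_toR (j : Con G B) (v : Fin r →₀ ℕ) : L aC j (toR v) = (sC j v : ℝ) := by
  rw [L_apply, sC, Nat.cast_sum]
  apply Finset.sum_congr rfl
  intro i _
  rw [Nat.cast_mul]
  rfl

theorem sC_ge (j : Con G B) {v : Fin r →₀ ℕ} (hv : v ∈ G) : (j.1.2 : ℕ) ≤ sC j v := j.2.2 v hv

theorem sC_add (j : Con G B) (v w : Fin r →₀ ℕ) : sC j (v + w) = sC j v + sC j w := by
  unfold sC
  rw [← Finset.sum_add_distrib]
  apply Finset.sum_congr rfl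
  intro i _
  rw [Finsupp.add_apply, mul_add]

theorem sC_smul (j : Con G B) (n : ℕ) (v : Fin r →₀ ℕ) : sC j (n • v) = n * sC j v := by
  unfold sC
  rw [Finset.mul_sum]
  apply Finset.sum_congr rfl
  intro i _
  rw [Finsupp.smul_apply, smul_eq_mul]
  ring

theorem sC_sum (j : Con G B) {κ : Type*} (s : Finset κ) (f : κ → (Fin r →₀ ℕ)) :
    sC j (∑ k ∈ s, f k) = ∑ k ∈ s, sC j (f k) := by
  classical
  induction s using Finset.induction_on with
  | empty => simp [sC]
  | insert a s ha ih => rw [Finset.sum_insert ha, Finset.sum_insert ha, sC_add, ih]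

theorem aC_nonneg (j : Con G B) (i : Fin r) : 0 ≤ aC j i := Nat.cast_nonneg _

theorem exists_lattice {d : ℕ} (hd : 1 ≤ d) (hdeg : ∀ v ∈ G, ∑ i, v i ≤ d)
    (hG0 : ∀ v ∈ G, v ≠ 0) {Js : Finset (Con G (d ^ r))} (hJs : IsFace aC bC Js)
    (hne : Js.Nonempty) {n : ℕ} (hn : r * d ^ r + 1 ≤ n) :
    ∃ α : Fin r →₀ ℕ, ∀ j : Con G (d ^ r), j ∈ Js ↔ sC j α < n * (j.1.2 : ℕ) := by
  classical
  obtain ⟨w, hpos, heq, hlt⟩ := hJs
  have hle : ∀ j : Con G (d ^ r), ((j.1.2 : ℕ) : ℝ) ≤ L aC j w := by
    intro j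
    by_cases hj : j ∈ Js
    · rw [heq j hj]
      exact le_rfl
    · exact (hlt j hj).le
  obtain ⟨lam, hlam0, hlam1, hlamle⟩ := farkas hd hdeg (z := w) (fun i => (hpos i).le) (by
    intro p
    have := hle p
    rw [L_apply] at this
    exact this)
  -- the slack
  let u : Fin r → ℝ := fun i => w i - ∑ v ∈ G, lam v * (v i : ℝ)
  have hu0 : ∀ i, 0 ≤ u i := fun i => sub_nonneg.mpr (hlamle i)
  have hwdec : ∀ j : Con G (d ^ r), L aC j w = ∑ v ∈ G, lam v * (sC j v : ℝ) + L aC j u := by
    intro j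
    have h1 : w = ∑ v ∈ G, lam v • toR v + u := by
      ext i
      simp only [Pi.add_apply, Finset.sum_apply, Pi.smul_apply, smul_eq_mul, toR, u]
      ring
    conv_lhs => rw [h1]
    rw [map_add, map_sum]
    congr 1
    apply Finset.sum_congr rfl
    intro v _
    rw [map_smul, L_toR, smul_eq_mul]
  have hLu0 : ∀ j : Con G (d ^ r), 0 ≤ L aC j u := by
    intro j
    rw [L_apply]
    exact Finset.sum_nonneg (fun i _ => mul_nonneg (aC_nonneg j i) (hu0 i))
  have hsum_b : ∀ j : Con G (d ^ r), ∑ v ∈ G, lam v * ((sC j v : ℝ) - bC j) =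
      ∑ v ∈ G, lam v * (sC j v : ℝ) - bC j := by
    intro j
    simp_rw [mul_sub]
    rw [Finset.sum_sub_distrib, ← Finset.sum_mul, hlam1, one_mul]
  have hterm : ∀ j : Con G (d ^ r), ∀ v ∈ G, 0 ≤ lam v * ((sC j v : ℝ) - bC j) := by
    intro j v hv
    apply mul_nonneg (hlam0 v hv)
    have h1 : ((j.1.2 : ℕ) : ℝ) ≤ (sC j v : ℝ) := by exact_mod_cast sC_ge j hv
    rw [bC]
    linarith
  -- equality cases on the face
  have hface1 : ∀ j ∈ Js, ∀ v ∈ G, 0 < lam v → sC j v = (j.1.2 : ℕ) := by
    intro j hj v hv hl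
    have h1 := hwdec j
    rw [heq j hj] at h1
    have h2 : ∑ v ∈ G, lam v * ((sC j v : ℝ) - bC j) = 0 := by
      apply le_antisymm
      · rw [hsum_b]
        have := hLu0 j
        linarith
      · exact Finset.sum_nonneg (hterm j)
    have h3 := (Finset.sum_eq_zero_iff_of_nonneg (hterm j)).mp h2 v hv
    rcases mul_eq_zero.mp h3 with h4 | h4
    · exact absurd h4 hl.ne'
    · have h5 : (sC j v : ℝ) = ((j.1.2 : ℕ) : ℝ) := by
        rw [bC] at h4
        linarith
      exact_mod_cast h5
  have hface2 : ∀ j ∈ Js, ∀ i, aC j i ≠ 0 → u i = 0 := by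
    intro j hj i hi
    have h1 := hwdec j
    rw [heq j hj] at h1
    have h2 : 0 ≤ ∑ v ∈ G, lam v * ((sC j v : ℝ) - bC j) := Finset.sum_nonneg (hterm j)
    rw [hsum_b] at h2
    have h3 : L aC j u = 0 := le_antisymm (by linarith) (hLu0 j)
    rw [L_apply] at h3
    have h4 := (Finset.sum_eq_zero_iff_of_nonneg
      (fun i _ => mul_nonneg (aC_nonneg j i) (hu0 i))).mp h3 i (Finset.mem_univ i)
    rcases mul_eq_zero.mp h4 with h5 | h5
    · exact absurd h5 hi
    · exact h5
  -- a small set of generators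
  let Vp : Finset (Fin r →₀ ℕ) := G.filter (fun v => 0 < lam v)
  have hVp : Vp.Nonempty := by
    by_contra hemp
    rw [Finset.not_nonempty_iff_eq_empty] at hemp
    have h1 : ∑ v ∈ G, lam v = 0 := by
      apply Finset.sum_eq_zero
      intro v hv
      have h2 : ¬ 0 < lam v := by
        intro h
        have : v ∈ Vp := Finset.mem_filter.mpr ⟨hv, h⟩
        rw [hemp] at this
        exact absurd this (Finset.notMem_empty v)
      exact le_antisymm (not_lt.mp h2) (hlam0 v hv)
    rw [hlam1] at h1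
    norm_num at h1
  obtain ⟨m, f, hm, hf, hspan⟩ : ∃ (m : ℕ) (f : Fin m → Fin r → ℝ),
      m = finrank ℝ (Submodule.span ℝ (toR '' (Vp : Set (Fin r →₀ ℕ)))) ∧
      (∀ k, f k ∈ toR '' (Vp : Set (Fin r →₀ ℕ))) ∧
      Submodule.span ℝ (Set.range f) = Submodule.span ℝ (toR '' (Vp : Set (Fin r →₀ ℕ))) := by
    obtain ⟨f, hf, hspan, -⟩ :=
      Submodule.exists_fun_fin_finrank_span_eq ℝ (toR '' (Vp : Set (Fin r →₀ ℕ)))
    exact ⟨_, f, rfl, hf, hspan⟩
  have hmr : m ≤ r := by
    have := Submodule.finrank_le (Submodule.span ℝ (toR '' (Vp : Set (Fin r →₀ ℕ))))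
    rwa [Module.finrank_fin_fun, ← hm] at this
  have hm0 : 0 < m := by
    rw [Nat.pos_iff_ne_zero]
    intro h0
    rw [hm, Submodule.finrank_eq_zero] at h0
    obtain ⟨v, hv⟩ := hVp
    have h1 : toR v ∈ Submodule.span ℝ (toR '' (Vp : Set (Fin r →₀ ℕ))) :=
      Submodule.subset_span ⟨v, hv, rfl⟩
    rw [h0, Submodule.mem_bot] at h1
    apply hG0 v (Finset.mem_filter.mp hv).1
    apply toR_injective
    rw [h1]
    ext i
    simp [toR]
  choose v hv hvf using hf
  have hvG : ∀ k, v k ∈ G := fun k => (Finset.mem_filter.mp (hv k)).1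
  have hvl : ∀ k, 0 < lam (v k) := fun k => (Finset.mem_filter.mp (hv k)).2
  let k₀ : Fin m := ⟨0, hm0⟩
  have hmB : m * d ^ r ≤ n - 1 := by
    have := Nat.mul_le_mul_right (d ^ r) hmr
    omega
  have hm1 : (m - 1) * d ^ r + d ^ r = m * d ^ r := by
    obtain ⟨m', hm'⟩ : ∃ m', m = m' + 1 := ⟨m - 1, by omega⟩
    rw [hm', Nat.add_sub_cancel]
    ring
  let c : Fin m → ℕ := fun k => if k = k₀ then n - 1 - (m - 1) * d ^ r else d ^ r
  have hcB : ∀ k, d ^ r ≤ c k := by
    intro k
    simp only [c]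
    split_ifs
    · omega
    · exact le_rfl
  have hcsum : ∑ k, c k = n - 1 := by
    have h1 : ∑ k, c k = c k₀ + ∑ k ∈ Finset.univ.erase k₀, c k :=
      (Finset.add_sum_erase _ _ (Finset.mem_univ k₀)).symm
    have h2 : ∑ k ∈ Finset.univ.erase k₀, c k = (m - 1) * d ^ r := by
      have : ∀ k ∈ Finset.univ.erase k₀, c k = d ^ r := by
        intro k hk
        simp only [c, if_neg (Finset.ne_of_mem_erase hk)]
      rw [Finset.sum_congr rfl this, Finset.sum_const, Finset.card_erase_of_mem (Finset.mem_univ _),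
        Finset.card_univ, Fintype.card_fin, smul_eq_mul]
    rw [h1, h2]
    simp only [c, if_true]
    omega
  let e : Fin r →₀ ℕ := Finsupp.equivFunOnFinite.symm (fun i => if i ∈ EE aC Js then 1 else 0)
  have hsCe : ∀ j : Con G (d ^ r), sC j e = ∑ i, if i ∈ EE aC Js then (j.1.1 i : ℕ) else 0 := by
    intro j
    unfold sC
    apply Finset.sum_congr rfl
    intro i _
    simp only [e, Finsupp.equivFunOnFinite_symm_apply_apply]
    split_ifs <;> simp
  refine ⟨∑ k, c k • v k + (n * d ^ r) • e, ?_⟩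
  intro j
  have hval : sC j (∑ k, c k • v k + (n * d ^ r) • e) =
      ∑ k, c k * sC j (v k) + (n * d ^ r) * sC j e := by
    rw [sC_add, sC_sum, sC_smul]
    congr 1
    apply Finset.sum_congr rfl
    intro k _
    rw [sC_smul]
  rw [hval]
  have hb1 : 1 ≤ (j.1.2 : ℕ) := j.2.1
  have hbB : (j.1.2 : ℕ) ≤ d ^ r := by
    have := j.1.2.isLt
    omega
  constructor
  · intro hj
    have h1 : ∑ k, c k * sC j (v k) = (n - 1) * (j.1.2 : ℕ) := by
      rw [← hcsum, Finset.sum_mul]
      apply Finset.sum_congr rfl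
      intro k _
      rw [hface1 j hj (v k) (hvG k) (hvl k)]
    have h2 : sC j e = 0 := by
      rw [hsCe]
      apply Finset.sum_eq_zero
      intro i _
      split_ifs with hi
      · have h3 := (mem_EE aC).mp hi j hj
        rw [aC] at h3
        exact_mod_cast h3
      · rfl
    rw [h1, h2, mul_zero, add_zero]
    apply Nat.mul_lt_mul_of_pos_right _ (by omega)
    omega
  · intro hlt'
    by_contra hj
    apply absurd hlt'
    rw [not_lt]
    by_cases hA : ∃ i ∈ EE aC Js, (j.1.1 i : ℕ) ≠ 0
    · obtain ⟨i, hi, hne'⟩ := hA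
      have h1 : 1 ≤ sC j e := by
        rw [hsCe]
        have h2 : (if i ∈ EE aC Js then (j.1.1 i : ℕ) else 0) ≤
            ∑ i, if i ∈ EE aC Js then (j.1.1 i : ℕ) else 0 :=
          Finset.single_le_sum (f := fun i => if i ∈ EE aC Js then (j.1.1 i : ℕ) else 0)
            (fun _ _ => Nat.zero_le _) (Finset.mem_univ i)
        rw [if_pos hi] at h2
        omega
      calc n * (j.1.2 : ℕ) ≤ n * d ^ r := Nat.mul_le_mul_left _ hbB
        _ ≤ (n * d ^ r) * sC j e := Nat.le_mul_of_pos_right _ h1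
        _ ≤ _ := Nat.le_add_left _ _
    · push Not at hA
      -- some generator is strictly inside
      have hk : ∃ k, (j.1.2 : ℕ) + 1 ≤ sC j (v k) := by
        by_contra hcon
        push Not at hcon
        have hvk : ∀ k, sC j (v k) = (j.1.2 : ℕ) := by
          intro k
          have h1 := hcon k
          have h2 := sC_ge j (hvG k)
          omega
        obtain ⟨j₀, hj₀⟩ := hne
        have hb0 : bC j₀ ≠ 0 := by
          have h1 := j₀.2.1
          rw [bC]
          have : ((j₀.1.2 : ℕ) : ℝ) ≠ 0 := by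
            rw [Nat.cast_ne_zero]
            omega
          exact this
        let ψ : (Fin r → ℝ) →ₗ[ℝ] ℝ := bC j₀ • L aC j - bC j • L aC j₀
        have hψ : ∀ x ∈ Submodule.span ℝ (Set.range f), ψ x = 0 := by
          intro x hx
          induction hx using Submodule.span_induction with
          | mem x hx =>
            obtain ⟨k, rfl⟩ := hx
            rw [← hvf k]
            simp only [ψ, LinearMap.sub_apply, LinearMap.smul_apply, smul_eq_mul, L_toR]
            rw [hvk k, hface1 j₀ hj₀ (v k) (hvG k) (hvl k)]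
            rw [bC, bC]
            ring
          | zero => exact map_zero _
          | add x y _ _ hx hy => rw [map_add, hx, hy, add_zero]
          | smul t x _ hx => rw [map_smul, hx, smul_zero]
        have hall : ∀ x ∈ G, 0 < lam x → (sC j x : ℝ) = bC j := by
          intro x hx hl
          have h1 : toR x ∈ Submodule.span ℝ (Set.range f) := by
            rw [hspan]
            exact Submodule.subset_span ⟨x, Finset.mem_coe.mpr (Finset.mem_filter.mpr ⟨hx, hl⟩), rfl⟩
          have h2 := hψ _ h1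
          simp only [ψ, LinearMap.sub_apply, LinearMap.smul_apply, smul_eq_mul, L_toR] at h2
          rw [hface1 j₀ hj₀ x hx hl] at h2
          have h3 : ((j₀.1.2 : ℕ) : ℝ) = bC j₀ := rfl
          rw [h3] at h2
          have h4 : bC j₀ * ((sC j x : ℝ) - bC j) = 0 := by linarith
          rcases mul_eq_zero.mp h4 with h5 | h5
          · exact absurd h5 hb0
          · linarith
        have h1 := hlt j hj
        rw [hwdec j] at h1
        have h2 : ∑ x ∈ G, lam x * (sC j x : ℝ) = bC j := by
          have h3 : ∑ x ∈ G, lam x * ((sC j x : ℝ) - bC j) = 0 := by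
            apply Finset.sum_eq_zero
            intro x hx
            rcases (hlam0 x hx).eq_or_lt with h0 | h0
            · rw [← h0, zero_mul]
            · rw [hall x hx h0, sub_self, mul_zero]
          rw [hsum_b] at h3
          linarith
        have h3 : L aC j u = 0 := by
          rw [L_apply]
          apply Finset.sum_eq_zero
          intro i _
          by_cases hi : i ∈ EE aC Js
          · have h4 := hA i hi
            have h5 : aC j i = 0 := by
              rw [aC, h4, Nat.cast_zero]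
            rw [h5, zero_mul]
          · rw [mem_EE] at hi
            push Not at hi
            obtain ⟨j', hj', hi'⟩ := hi
            rw [hface2 j' hj' i hi', mul_zero]
        rw [h2, h3, add_zero] at h1
        exact lt_irrefl _ h1
      obtain ⟨k, hk⟩ := hk
      have h1 : (n - 1) * (j.1.2 : ℕ) + d ^ r ≤ ∑ k, c k * sC j (v k) := by
        have h2 : ∀ k', c k' * (j.1.2 : ℕ) + (if k' = k then c k else 0) ≤ c k' * sC j (v k') := by
          intro k'
          split_ifs with h
          · subst h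
            calc c k' * (j.1.2 : ℕ) + c k' = c k' * ((j.1.2 : ℕ) + 1) := by ring
              _ ≤ _ := Nat.mul_le_mul_left _ hk
          · rw [add_zero]
            exact Nat.mul_le_mul_left _ (sC_ge j (hvG k'))
        have h3 := Finset.sum_le_sum (fun k' (_ : k' ∈ Finset.univ) => h2 k')
        rw [Finset.sum_add_distrib, ← Finset.sum_mul, hcsum, Finset.sum_ite_eq' Finset.univ k,
          if_pos (Finset.mem_univ k)] at h3
        have h4 := hcB k
        omega
      have h5 : n * (j.1.2 : ℕ) = (n - 1) * (j.1.2 : ℕ) + (j.1.2 : ℕ) := by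
        obtain ⟨n', rfl⟩ : ∃ n', n = n' + 1 := ⟨n - 1, by omega⟩
        rw [Nat.add_sub_cancel]
        ring
      rw [h5]
      omega

end Pool.Agent.Lib.MP_a8bb4d_al
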