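import Pool.Agent.Lib.MP_a8bb4d_al.Powers
import Pool.Agent.Lib.MP_a8bb4d_al.IntClosure
import Pool.Agent.Lib.MP_a8bb4d_al.Dirichlet

/-!
# The integral closure of the powers of a monomial ideal
-/

set_option autoImplicit false

namespace Pool.Agent.Lib.MP_a8bb4d_al

open MvPolynomial

universe u

variable {r : ℕ} {K : Type u} [Field K]

/-! ### Weights -/

/-- the value of the weight `w` -/
def wt (w : Fin r → ℕ) (α : Fin r →₀ ℕ) : ℕ := ∑ i, w i * α i

theorem wt_add (w : Fin r → ℕ) (α β : Fin r →₀ ℕ) : wt w (α + β) = wt w α + wt w β := by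
  unfold wt
  rw [← Finset.sum_add_distrib]
  apply Finset.sum_congr rfl
  intro i _
  rw [Finsupp.add_apply, mul_add]

theorem wt_upper (w : Fin r → ℕ) (m : ℕ) : IsUpperSet {α : Fin r →₀ ℕ | m ≤ wt w α} := by
  intro α β h hα
  exact le_trans hα (Finset.sum_le_sum (fun i _ => Nat.mul_le_mul_left _ (h i)))

/-- the ideal of polynomials all of whose monomials have weight at least `m` -/
noncomputable def ordIdeal (K : Type u) [Field K] (w : Fin r → ℕ) (m : ℕ) :
    Ideal (MvPolynomial (Fin r) K) :=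
  restrictSupportIdeal K {α : Fin r →₀ ℕ | m ≤ wt w α} (wt_upper w m)

theorem mem_ordIdeal {w : Fin r → ℕ} {m : ℕ} {f : MvPolynomial (Fin r) K} :
    f ∈ ordIdeal K w m ↔ ∀ α ∈ f.support, m ≤ wt w α := mem_restrictSupportIdeal

theorem mul_mem_ordIdeal {w : Fin r → ℕ} {m m' : ℕ} {f g : MvPolynomial (Fin r) K}
    (hf : f ∈ ordIdeal K w m) (hg : g ∈ ordIdeal K w m') : f * g ∈ ordIdeal K w (m + m') := by
  classical
  rw [mem_ordIdeal] at hf hg ⊢
  intro α hα
  obtain ⟨β, hβ, γ, hγ, rfl⟩ := Finset.mem_add.mp (support_mul f g hα)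
  rw [wt_add]
  exact Nat.add_le_add (hf β hβ) (hg γ hγ)

theorem ordIdeal_mono {w : Fin r → ℕ} {m m' : ℕ} (h : m ≤ m') : ordIdeal K w m' ≤ ordIdeal K w m := by
  intro f hf
  rw [mem_ordIdeal] at hf ⊢
  exact fun α hα => h.trans (hf α hα)

theorem pow_mem_ordIdeal {w : Fin r → ℕ} {m : ℕ} {f : MvPolynomial (Fin r) K}
    (hf : f ∈ ordIdeal K w m) (k : ℕ) : f ^ k ∈ ordIdeal K w (k * m) := by
  induction k with
  | zero =>
    rw [mem_ordIdeal]
    intro α _
    rw [zero_mul]
    exact Nat.zero_le _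
  | succ k ih =>
    rw [pow_succ, Nat.succ_mul]
    exact mul_mem_ordIdeal ih hf

theorem pow_le_ordIdeal {w : Fin r → ℕ} {m : ℕ} {I : Ideal (MvPolynomial (Fin r) K)}
    (hI : I ≤ ordIdeal K w m) (k : ℕ) : I ^ k ≤ ordIdeal K w (k * m) := by
  induction k with
  | zero =>
    intro f _
    rw [mem_ordIdeal]
    intro α _
    rw [zero_mul]
    exact Nat.zero_le _
  | succ k ih =>
    rw [pow_succ, Nat.succ_mul, Ideal.mul_le]
    intro f hf g hg
    exact mul_mem_ordIdeal (ih hf) (hI hg)

theorem weight_eq_wt (w : Fin r → ℕ) (α : Fin r →₀ ℕ) : Finsupp.weight w α = wt w α := by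
  rw [Finsupp.weight_apply, Finsupp.sum_fintype _ _ (fun i => by simp)]
  unfold wt
  apply Finset.sum_congr rfl
  intro i _
  rw [smul_eq_mul, mul_comm]

theorem mem_ordIdeal_iff {w : Fin r → ℕ} {m : ℕ} {f : MvPolynomial (Fin r) K} :
    f ∈ ordIdeal K w m ↔ (m : ℕ∞) ≤ MvPowerSeries.weightedOrder w (f : MvPowerSeries (Fin r) K) := by
  rw [mem_ordIdeal]
  constructor
  · intro h
    apply MvPowerSeries.le_weightedOrder
    intro α hα
    rw [MvPolynomial.coeff_coe]
    by_contra hne
    have h1 := h α (MvPolynomial.mem_support_iff.mpr hne)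
    rw [weight_eq_wt] at hα
    have h2 : wt w α < m := by exact_mod_cast hα
    omega
  · intro h α hα
    rw [MvPolynomial.mem_support_iff, ← MvPolynomial.coeff_coe] at hα
    have h1 := MvPowerSeries.weightedOrder_le w hα
    rw [weight_eq_wt] at h1
    exact_mod_cast h.trans h1

theorem weightedOrder_pow' (w : Fin r → ℕ) (f : MvPowerSeries (Fin r) K) {e : ℕ}
    (he : MvPowerSeries.weightedOrder w f = e) (k : ℕ) :
    MvPowerSeries.weightedOrder w (f ^ k) = ((k * e : ℕ) : ℕ∞) := by
  induction k with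
  | zero => rw [pow_zero, MvPowerSeries.weightedOrder_one, zero_mul, Nat.cast_zero]
  | succ k ih =>
    rw [pow_succ, MvPowerSeries.weightedOrder_mul, ih, he, Nat.succ_mul, Nat.cast_add]

/-- Elements integral over an ideal of weight at least `m` have weight at least `m`. -/
theorem intClosure_le_ordIdeal {w : Fin r → ℕ} {m : ℕ} {I : Ideal (MvPolynomial (Fin r) K)}
    (hI : I ≤ ordIdeal K w m) : intClosure I ≤ ordIdeal K w m := by
  intro x hx
  obtain ⟨k, c, hk, hc, heq⟩ := mem_intClosure.mp hx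
  by_contra hcon
  rw [mem_ordIdeal_iff, not_le] at hcon
  obtain ⟨e, he⟩ := ENat.ne_top_iff_exists.mp (ne_top_of_lt hcon)
  rw [← he] at hcon
  have hem : e < m := by exact_mod_cast hcon
  have hxe : x ∈ ordIdeal K w e := mem_ordIdeal_iff.mpr he.le
  have hpow : x ^ k ∈ ordIdeal K w (k * e + 1) := by
    have h1 : x ^ k = -∑ i ∈ Finset.Icc 1 k, c i * x ^ (k - i) := eq_neg_of_add_eq_zero_left heq
    rw [h1]
    apply Submodule.neg_mem
    apply Submodule.sum_mem
    intro i hi
    have h2 := mul_mem_ordIdeal (pow_le_ordIdeal hI i (hc i hi)) (pow_mem_ordIdeal hxe (k - i))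
    apply ordIdeal_mono _ h2
    have hi' := Finset.mem_Icc.mp hi
    obtain ⟨l, hl⟩ : ∃ l, k = i + l := ⟨k - i, by omega⟩
    have h3 : k - i = l := by omega
    rw [h3, hl]
    have h4 : i * (e + 1) ≤ i * m := Nat.mul_le_mul_left _ hem
    nlinarith
  rw [mem_ordIdeal_iff, MvPolynomial.coe_pow, weightedOrder_pow' w _ he.symm] at hpow
  have h5 : k * e + 1 ≤ k * e := by exact_mod_cast hpow
  omega

/-! ### The monomial ideal generated by a finite set of exponents -/

theorem monomial_mem_pow {G : Finset (Fin r →₀ ℕ)} {I : Ideal (MvPolynomial (Fin r) K)}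
    (hG : ∀ v ∈ G, (monomial v (1 : K)) ∈ I) (m : (Fin r →₀ ℕ) → ℕ) (S : Finset (Fin r →₀ ℕ))
    (hS : S ⊆ G) : (monomial (∑ v ∈ S, m v • v) (1 : K)) ∈ I ^ (∑ v ∈ S, m v) := by
  classical
  induction S using Finset.induction_on with
  | empty => simp
  | insert a S ha ih =>
    rw [Finset.sum_insert ha, Finset.sum_insert ha, pow_add]
    have h1 : (monomial (m a • a + ∑ v ∈ S, m v • v) (1 : K)) =
        (monomial a 1) ^ (m a) * monomial (∑ v ∈ S, m v • v) 1 := by
      rw [monomial_pow, monomial_mul, one_pow, one_mul]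
    rw [h1]
    apply Ideal.mul_mem_mul
    · exact Ideal.pow_mem_pow (hG a (hS (Finset.mem_insert_self a S))) _
    · exact ih (fun v hv => hS (Finset.mem_insert_of_mem hv))

/-- **The integral closure of `I ^ n`.** -/
theorem intClosure_pow_eq {G : Finset (Fin r →₀ ℕ)} {I : Ideal (MvPolynomial (Fin r) K)}
    (hI : I = Ideal.span ((fun v => monomial v (1 : K)) '' (G : Set (Fin r →₀ ℕ)))) {d : ℕ}
    (hd : 1 ≤ d) (hdeg : ∀ v ∈ G, ∑ i, v i ≤ d) {n : ℕ} (hn : 1 ≤ n) :
    intClosure (I ^ n) = restrictSupportIdeal K (EN G (d ^ r) n) (EN_upper n) := by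
  classical
  have hGI : ∀ v ∈ G, (monomial v (1 : K)) ∈ I := by
    intro v hv
    rw [hI]
    exact Ideal.subset_span ⟨v, hv, rfl⟩
  apply le_antisymm
  · intro x hx
    rw [mem_restrictSupportIdeal]
    intro α hα j
    let w : Fin r → ℕ := fun i => (j.1.1 i : ℕ)
    have h1 : I ≤ ordIdeal K w (j.1.2 : ℕ) := by
      rw [hI, Ideal.span_le]
      rintro _ ⟨v, hv, rfl⟩
      rw [SetLike.mem_coe, mem_ordIdeal]
      intro β hβ
      have h2 := support_monomial_subset hβ
      rw [Finset.mem_singleton] at h2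
      rw [h2]
      exact j.2.2 v hv
    have h2 := intClosure_le_ordIdeal (pow_le_ordIdeal h1 n) hx
    exact mem_ordIdeal.mp h2 α hα
  · -- monomials
    have hmono : ∀ α ∈ EN G (d ^ r) n, (monomial α (1 : K)) ∈ intClosure (I ^ n) := by
      intro α hα
      have hn0 : (0 : ℝ) < n := by exact_mod_cast hn
      obtain ⟨lam, hl0, hl1, hlle⟩ := farkas hd hdeg (z := fun i => (α i : ℝ) / n)
        (fun i => div_nonneg (Nat.cast_nonneg _) hn0.le) (by
          intro p
          have h1 := hα p
          have h2 : ((n * (p.1.2 : ℕ) : ℕ) : ℝ) ≤ (sC p α : ℝ) := by exact_mod_cast h1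
          have h3 : ∑ i, ((p.1.1 i : ℕ) : ℝ) * ((α i : ℝ) / n) = (sC p α : ℝ) / n := by
            rw [sC, Nat.cast_sum, Finset.sum_div]
            apply Finset.sum_congr rfl
            intro i _
            rw [Nat.cast_mul]
            ring
          rw [h3, le_div_iff₀ hn0]
          rw [Nat.cast_mul] at h2
          linarith)
      obtain ⟨k, m, hk, hsum, hle⟩ := exists_integral_combination G lam hl0 hl1 n α (by
        intro i
        have h1 := hlle i
        rw [le_div_iff₀ hn0] at h1
        have h2 : ∑ v ∈ G, (n : ℝ) * lam v * (v i : ℝ) = (∑ v ∈ G, lam v * (v i : ℝ)) * n := by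
          rw [Finset.sum_mul]
          apply Finset.sum_congr rfl
          intro v _
          ring
        rw [h2]
        exact h1)
      have hmem : (monomial (k • α) (1 : K)) ∈ (I ^ n) ^ k := by
        have h1 := monomial_mem_pow hGI m G (Finset.Subset.refl G)
        rw [hsum, pow_mul] at h1
        have h2 : (monomial (k • α) (1 : K)) =
            monomial (k • α - ∑ v ∈ G, m v • v) 1 * monomial (∑ v ∈ G, m v • v) 1 := by
          rw [monomial_mul, one_mul, tsub_add_cancel_of_le hle]
        rw [h2]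
        exact Ideal.mul_mem_left _ _ h1
      rw [mem_intClosure]
      refine ⟨k, fun i => if i = k then -monomial (k • α) 1 else 0, hk, ?_, ?_⟩
      · intro i _
        by_cases hi : i = k
        · simp only [if_pos hi]
          rw [hi]
          exact Submodule.neg_mem _ hmem
        · simp only [if_neg hi]
          exact Submodule.zero_mem _
      · rw [Finset.sum_eq_single k]
        · simp only [if_true]
          rw [Nat.sub_self, pow_zero, mul_one, monomial_pow, one_pow, add_neg_cancel]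
        · intro i _ hi
          simp only [if_neg hi]
          rw [zero_mul]
        · intro hnot
          exact absurd (Finset.mem_Icc.mpr ⟨hk, le_rfl⟩) hnot
    intro f hf
    rw [mem_restrictSupportIdeal] at hf
    rw [f.as_sum]
    apply Submodule.sum_mem
    intro α hα
    have h1 : (monomial α (f.coeff α) : MvPolynomial (Fin r) K) =
        C (f.coeff α) * monomial α 1 := by
      rw [C_mul_monomial, mul_one]
    rw [h1]
    exact Ideal.mul_mem_left _ _ (hmono α (hf α hα))

end Pool.Agent.Lib.MP_a8bb4d_al
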