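import Mathlib

/-!
# Moving to a vertex
-/

set_option autoImplicit false

namespace Pool.Agent.Lib.MP_a8bb4d_al

open Module

variable {r : ℕ}

theorem exists_orth {S : Submodule ℝ (Fin r → ℝ)} (hS : S ≠ ⊤) :
    ∃ u : Fin r → ℝ, u ≠ 0 ∧ ∀ f ∈ S, f ⬝ᵥ u = 0 := by
  obtain ⟨f, hf, hle⟩ := Submodule.exists_le_ker_of_lt_top S (lt_top_iff_ne_top.mpr hS)
  refine ⟨fun i => f (Pi.single i 1), ?_, ?_⟩
  · intro h
    apply hf
    apply LinearMap.pi_ext'
    intro i
    ext
    simpa using congrFun h i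
  · intro g hg
    have h1 : f g = 0 := hle hg
    have h2 : g = ∑ i, g i • (Pi.single i (1 : ℝ) : Fin r → ℝ) := by
      ext j
      simp [Finset.sum_apply, Pi.single_apply]
    rw [h2, map_sum] at h1
    rw [dotProduct]
    simpa [map_smul, smul_eq_mul] using h1

theorem exists_spanning {κ : Type} [Finite κ] (φ : κ → Fin r → ℝ) (c : κ → ℝ) (z : Fin r → ℝ)
    (hneg : ∀ u : Fin r → ℝ, u ≠ 0 → ∃ u' : Fin r → ℝ, (u' = u ∨ u' = -u) ∧ z ⬝ᵥ u' ≤ 0 ∧
      ∃ k, φ k ⬝ᵥ u' < 0) :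
    ∀ (m : ℕ) (a : Fin r → ℝ), (∀ k, c k ≤ φ k ⬝ᵥ a) →
      r ≤ finrank ℝ (Submodule.span ℝ (φ '' {k | φ k ⬝ᵥ a = c k})) + m →
      ∃ a' : Fin r → ℝ, (∀ k, c k ≤ φ k ⬝ᵥ a') ∧ z ⬝ᵥ a' ≤ z ⬝ᵥ a ∧
        Submodule.span ℝ (φ '' {k | φ k ⬝ᵥ a' = c k}) = ⊤ := by
  classical
  have := Fintype.ofFinite κ
  intro m
  induction m with
  | zero =>
    intro a ha hr
    refine ⟨a, ha, le_rfl, ?_⟩
    apply Submodule.eq_top_of_finrank_eq
    rw [Module.finrank_fin_fun]
    apply le_antisymm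
    · have := Submodule.finrank_le (Submodule.span ℝ (φ '' {k | φ k ⬝ᵥ a = c k}))
      rwa [Module.finrank_fin_fun] at this
    · simpa using hr
  | succ m ih =>
    intro a ha hr
    by_cases htop : Submodule.span ℝ (φ '' {k | φ k ⬝ᵥ a = c k}) = ⊤
    · exact ⟨a, ha, le_rfl, htop⟩
    · obtain ⟨u₀, hu₀, horth₀⟩ := exists_orth htop
      obtain ⟨u, hu, hzu, k₀, hk₀⟩ := hneg u₀ hu₀
      have horth : ∀ f ∈ Submodule.span ℝ (φ '' {k | φ k ⬝ᵥ a = c k}), f ⬝ᵥ u = 0 := by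
        intro f hf
        rcases hu with rfl | rfl
        · exact horth₀ f hf
        · rw [dotProduct_neg, horth₀ f hf, neg_zero]
      let N : Finset κ := Finset.univ.filter (fun k => φ k ⬝ᵥ u < 0)
      have hN : N.Nonempty := ⟨k₀, Finset.mem_filter.mpr ⟨Finset.mem_univ _, hk₀⟩⟩
      obtain ⟨ks, hks, hmin⟩ := Finset.exists_min_image N
        (fun k => (φ k ⬝ᵥ a - c k) / (-(φ k ⬝ᵥ u))) hN
      have hksneg : φ ks ⬝ᵥ u < 0 := (Finset.mem_filter.mp hks).2
      set t : ℝ := (φ ks ⬝ᵥ a - c ks) / (-(φ ks ⬝ᵥ u)) with ht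
      have ht0 : 0 ≤ t := by
        apply div_nonneg
        · have := ha ks
          linarith
        · linarith
      have hval : ∀ k, φ k ⬝ᵥ (a + t • u) = φ k ⬝ᵥ a + t * (φ k ⬝ᵥ u) := by
        intro k
        rw [dotProduct_add, dotProduct_smul, smul_eq_mul]
      have hadm : ∀ k, c k ≤ φ k ⬝ᵥ (a + t • u) := by
        intro k
        rw [hval]
        by_cases hk : φ k ⬝ᵥ u < 0
        · have h1 := hmin k (Finset.mem_filter.mpr ⟨Finset.mem_univ _, hk⟩)
          have h2 : t ≤ (φ k ⬝ᵥ a - c k) / (-(φ k ⬝ᵥ u)) := h1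
          rw [le_div_iff₀ (by linarith)] at h2
          linarith
        · have h1 := mul_nonneg ht0 (not_lt.mp hk)
          have h2 := ha k
          linarith
      have htight : ∀ k, φ k ⬝ᵥ a = c k → φ k ⬝ᵥ (a + t • u) = c k := by
        intro k hk
        rw [hval, horth (φ k) (Submodule.subset_span ⟨k, hk, rfl⟩), mul_zero, add_zero, hk]
      have htight' : φ ks ⬝ᵥ (a + t • u) = c ks := by
        rw [hval, ht]
        have hne : φ ks ⬝ᵥ u ≠ 0 := hksneg.ne
        rw [div_neg, neg_mul, div_mul_cancel₀ _ hne]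
        ring
      have hlt : Submodule.span ℝ (φ '' {k | φ k ⬝ᵥ a = c k}) <
          Submodule.span ℝ (φ '' {k | φ k ⬝ᵥ (a + t • u) = c k}) := by
        apply lt_of_le_of_ne
        · apply Submodule.span_mono
          apply Set.image_mono
          intro k hk
          exact htight k hk
        · intro heq
          have h1 : φ ks ∈ Submodule.span ℝ (φ '' {k | φ k ⬝ᵥ a = c k}) := by
            rw [heq]
            exact Submodule.subset_span ⟨ks, htight', rfl⟩
          have h2 := horth _ h1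
          linarith
      have hfr := Submodule.finrank_lt_finrank_of_lt hlt
      obtain ⟨a', h1, h2, h3⟩ := ih (a + t • u) hadm (by omega)
      refine ⟨a', h1, h2.trans ?_, h3⟩
      rw [dotProduct_add, dotProduct_smul, smul_eq_mul]
      have := mul_nonneg ht0 (neg_nonneg.mpr hzu)
      linarith

end Pool.Agent.Lib.MP_a8bb4d_al
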