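import Pool.Agent.Lib.MP_a8bb4d_al.DetBound
import Pool.Agent.Lib.MP_a8bb4d_al.Vertex

/-!
# A finite set of integral inequalities with small coefficients cutting out the Newton polyhedron
-/

set_option autoImplicit false

namespace Pool.Agent.Lib.MP_a8bb4d_al

open Module

variable {r : ℕ}

/-- the real vector of an exponent -/
def toR (v : Fin r →₀ ℕ) : Fin r → ℝ := fun i => (v i : ℝ)

theorem toR_injective : Function.Injective (toR (r := r)) := by
  intro v w h
  ext i
  have := congrFun h i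
  simpa [toR] using this

/-- Separation. -/
theorem exists_separating {G : Finset (Fin r →₀ ℕ)} {z : Fin r → ℝ} (hz : ∀ i, 0 ≤ z i)
    (hno : ¬ ∃ lam : (Fin r →₀ ℕ) → ℝ, (∀ v ∈ G, 0 ≤ lam v) ∧ ∑ v ∈ G, lam v = 1 ∧
      ∀ i, ∑ v ∈ G, lam v * (v i : ℝ) ≤ z i) :
    ∃ a : Fin r → ℝ, (∀ i, 0 ≤ a i) ∧ (∀ v ∈ G, 1 ≤ toR v ⬝ᵥ a) ∧ z ⬝ᵥ a < 1 := by
  classical
  have hdisj : Disjoint (convexHull ℝ ((G.image toR : Finset (Fin r → ℝ)) : Set (Fin r → ℝ)))
      (Set.Iic z) := by
    rw [Set.disjoint_left]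
    intro x hx hxz
    rw [Finset.mem_convexHull'] at hx
    obtain ⟨w, hw0, hw1, hwx⟩ := hx
    apply hno
    refine ⟨fun v => w (toR v), ?_, ?_, ?_⟩
    · intro v hv
      exact hw0 _ (Finset.mem_image_of_mem _ hv)
    · rw [Finset.sum_image (fun a _ b _ h => toR_injective h)] at hw1
      exact hw1
    · intro i
      rw [Finset.sum_image (fun a _ b _ h => toR_injective h)] at hwx
      have h1 := congrFun hwx i
      rw [Finset.sum_apply] at h1
      simp only [Pi.smul_apply, smul_eq_mul, toR] at h1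
      simp only []
      rw [h1]
      exact hxz i
  obtain ⟨f, u, v, hfu, huv, hfv⟩ := geometric_hahn_banach_compact_closed
    (convex_convexHull ℝ ((G.image toR : Finset (Fin r → ℝ)) : Set (Fin r → ℝ)))
    ((G.image toR).finite_toSet.isCompact_convexHull ℝ) (convex_Iic z) isClosed_Iic hdisj
  have hf : ∀ x : Fin r → ℝ, f x = ∑ i, x i * f (Pi.single i 1) := by
    intro x
    have h2 : x = ∑ i, x i • (Pi.single i (1 : ℝ) : Fin r → ℝ) := by
      ext j
      simp [Finset.sum_apply, Pi.single_apply]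
    conv_lhs => rw [h2]
    rw [map_sum]
    simp [map_smul, smul_eq_mul]
  have hf0 : ∀ i, f (Pi.single i 1) ≤ 0 := by
    intro i
    by_contra hpos
    push Not at hpos
    have h1 : ∀ t : ℝ, 0 ≤ t → v < f z - t * f (Pi.single i 1) := by
      intro t ht
      have h2 : z - t • (Pi.single i (1 : ℝ) : Fin r → ℝ) ∈ Set.Iic z := by
        intro j
        simp only [Pi.sub_apply, Pi.smul_apply, smul_eq_mul]
        have : 0 ≤ t * (Pi.single i (1 : ℝ) : Fin r → ℝ) j := by
          apply mul_nonneg ht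
          rw [Pi.single_apply]
          split_ifs <;> norm_num
        linarith
      have h3 := hfv _ h2
      rw [map_sub, map_smul, smul_eq_mul] at h3
      exact h3
    have h4 := h1 (|f z - v| / f (Pi.single i 1)) (div_nonneg (abs_nonneg _) hpos.le)
    rw [div_mul_cancel₀ _ hpos.ne'] at h4
    have h5 := le_abs_self (f z - v)
    linarith
  have hfz : v < f z := hfv z (Set.mem_Iic.mpr le_rfl)
  have hfz0 : f z ≤ 0 := by
    rw [hf]
    exact Finset.sum_nonpos (fun i _ => mul_nonpos_of_nonneg_of_nonpos (hz i) (hf0 i))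
  have hu : 0 < -u := by linarith
  refine ⟨fun i => (-f (Pi.single i 1)) / (-u), ?_, ?_, ?_⟩
  · intro i
    exact div_nonneg (by linarith [hf0 i]) hu.le
  · intro w hw
    have h1 := hfu (toR w) (subset_convexHull ℝ _ (by
      rw [Finset.mem_coe]
      exact Finset.mem_image_of_mem _ hw))
    have h2 : toR w ⬝ᵥ (fun i => (-f (Pi.single i 1)) / (-u)) = (-f (toR w)) / (-u) := by
      rw [hf (toR w), dotProduct, ← Finset.sum_neg_distrib, Finset.sum_div]
      apply Finset.sum_congr rfl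
      intro i _
      ring
    rw [h2, le_div_iff₀ hu]
    linarith
  · have h2 : z ⬝ᵥ (fun i => (-f (Pi.single i 1)) / (-u)) = (-f z) / (-u) := by
      rw [hf z, dotProduct, ← Finset.sum_neg_distrib, Finset.sum_div]
      apply Finset.sum_congr rfl
      intro i _
      ring
    rw [h2, div_lt_one hu]
    linarith

/-- A vertex of the blocking polyhedron. -/
theorem exists_vertex {G : Finset (Fin r →₀ ℕ)} {z : Fin r → ℝ} (hz : ∀ i, 0 ≤ z i)
    {a₀ : Fin r → ℝ} (h0 : ∀ i, 0 ≤ a₀ i) (hG : ∀ v ∈ G, 1 ≤ toR v ⬝ᵥ a₀) (hz0 : z ⬝ᵥ a₀ < 1) :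
    ∃ (a : Fin r → ℝ) (g : Fin r → Fin r → ℝ), (∀ i, 0 ≤ a i) ∧ (∀ v ∈ G, 1 ≤ toR v ⬝ᵥ a) ∧
      z ⬝ᵥ a < 1 ∧ LinearIndependent ℝ g ∧
      ∀ k, (∃ i, g k = Pi.single i 1 ∧ a i = 0) ∨ (∃ v ∈ G, g k = toR v ∧ toR v ⬝ᵥ a = 1) := by
  classical
  let φ : (Fin r ⊕ G) → Fin r → ℝ := Sum.elim (fun i => Pi.single i 1) (fun v => toR v)
  let c : (Fin r ⊕ G) → ℝ := Sum.elim (fun _ => 0) (fun _ => 1)
  have hsingle : ∀ (i : Fin r) (x : Fin r → ℝ), (Pi.single i (1 : ℝ) : Fin r → ℝ) ⬝ᵥ x = x i := by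
    intro i x
    rw [single_dotProduct, one_mul]
  have hneg : ∀ u : Fin r → ℝ, u ≠ 0 → ∃ u' : Fin r → ℝ, (u' = u ∨ u' = -u) ∧ z ⬝ᵥ u' ≤ 0 ∧
      ∃ k, φ k ⬝ᵥ u' < 0 := by
    intro u hu
    -- a vector without negative coordinate has nonnegative product with `z`
    have key : ∀ w : Fin r → ℝ, (∀ i, 0 ≤ w i) → 0 ≤ z ⬝ᵥ w := fun w hw =>
      Finset.sum_nonneg (fun i _ => mul_nonneg (hz i) (hw i))
    have hne : ∃ i, u i ≠ 0 := Function.ne_iff.mp hu
    by_cases h1 : ∃ i, u i < 0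
    · by_cases h2 : z ⬝ᵥ u ≤ 0
      · obtain ⟨i, hi⟩ := h1
        exact ⟨u, Or.inl rfl, h2, Sum.inl i, by simpa [φ, hsingle] using hi⟩
      · have h3 : ∃ i, 0 < u i := by
          by_contra hcon
          push Not at hcon
          have := key (-u) (fun i => by simpa using hcon i)
          rw [dotProduct_neg] at this
          linarith
        obtain ⟨i, hi⟩ := h3
        refine ⟨-u, Or.inr rfl, ?_, Sum.inl i, by simpa [φ, hsingle] using hi⟩
        rw [dotProduct_neg]
        linarith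
    · push Not at h1
      obtain ⟨i, hi⟩ := hne
      refine ⟨-u, Or.inr rfl, ?_, Sum.inl i, ?_⟩
      · rw [dotProduct_neg]
        have := key u h1
        linarith
      · have : 0 < u i := lt_of_le_of_ne (h1 i) (Ne.symm hi)
        simpa [φ, hsingle] using this
  have hadm : ∀ k, c k ≤ φ k ⬝ᵥ a₀ := by
    rintro (i | v)
    · simpa [φ, c, hsingle] using h0 i
    · simpa [φ, c] using hG v.1 v.2
  obtain ⟨a, ha, hza, hspan⟩ := exists_spanning φ c z hneg r a₀ hadm (by omega)
  obtain ⟨f, hf, -, hli⟩ := Submodule.exists_fun_fin_finrank_span_eq ℝ (φ '' {k | φ k ⬝ᵥ a = c k})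
  have hfr : finrank ℝ (Submodule.span ℝ (φ '' {k | φ k ⬝ᵥ a = c k})) = r := by
    rw [hspan, finrank_top, Module.finrank_fin_fun]
  refine ⟨a, f ∘ Fin.cast hfr.symm, ?_, ?_, lt_of_le_of_lt hza hz0,
    hli.comp _ (Fin.cast_injective _), ?_⟩
  · intro i
    have := ha (Sum.inl i)
    simpa [φ, c, hsingle] using this
  · intro v hv
    have := ha (Sum.inr ⟨v, hv⟩)
    simpa [φ, c] using this
  · intro k
    obtain ⟨k', hk', heq⟩ := hf (Fin.cast hfr.symm k)
    rcases k' with i | v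
    · left
      refine ⟨i, heq.symm, ?_⟩
      have : φ (Sum.inl i) ⬝ᵥ a = c (Sum.inl i) := hk'
      simpa [φ, c, hsingle] using this
    · right
      refine ⟨v.1, v.2, heq.symm, ?_⟩
      have : φ (Sum.inr v) ⬝ᵥ a = c (Sum.inr v) := hk'
      simpa [φ, c] using this

/-- the constraints with integral coefficients at most `B` -/
abbrev Con (G : Finset (Fin r →₀ ℕ)) (B : ℕ) : Type :=
  {p : (Fin r → Fin (B + 1)) × Fin (B + 1) //
    1 ≤ (p.2 : ℕ) ∧ ∀ v ∈ G, (p.2 : ℕ) ≤ ∑ i, (p.1 i : ℕ) * v i}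

/-- **Farkas lemma with small integral coefficients.** -/
theorem farkas {G : Finset (Fin r →₀ ℕ)} {d : ℕ} (hd : 1 ≤ d) (hdeg : ∀ v ∈ G, ∑ i, v i ≤ d)
    {z : Fin r → ℝ} (hz : ∀ i, 0 ≤ z i)
    (h : ∀ p : Con G (d ^ r), ((p.1.2 : ℕ) : ℝ) ≤ ∑ i, ((p.1.1 i : ℕ) : ℝ) * z i) :
    ∃ lam : (Fin r →₀ ℕ) → ℝ, (∀ v ∈ G, 0 ≤ lam v) ∧ ∑ v ∈ G, lam v = 1 ∧
      ∀ i, ∑ v ∈ G, lam v * (v i : ℝ) ≤ z i := by
  classical
  by_contra hno
  obtain ⟨a₀, h1, h2, h3⟩ := exists_separating hz hno
  obtain ⟨a, g, ha0, haG, hza, hli, hg⟩ := exists_vertex hz h1 h2 h3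
  -- integral data for the rows
  have hrow : ∀ k, ∃ (q : Fin r → ℤ) (e : ℤ), (∀ i, ((q i : ℤ) : ℝ) = g k i) ∧
      (e : ℝ) = g k ⬝ᵥ a ∧ ∑ i, |q i| ≤ (d : ℤ) ∧ (∀ i, q i ≠ 0 → a i ≤ 1) := by
    intro k
    rcases hg k with ⟨i, hi, hai⟩ | ⟨v, hv, hgv, hva⟩
    · refine ⟨Pi.single i 1, 0, ?_, ?_, ?_, ?_⟩
      · intro j
        rw [hi, Pi.single_apply, Pi.single_apply]
        split_ifs <;> simp
      · rw [hi, single_dotProduct, one_mul, hai, Int.cast_zero]
      · have h5 : ∑ j, |(Pi.single i (1 : ℤ) : Fin r → ℤ) j| = 1 := by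
          rw [Finset.sum_eq_single i]
          · simp
          · intro j _ hj
            rw [Pi.single_eq_of_ne hj, abs_zero]
          · intro h
            exact absurd (Finset.mem_univ i) h
        rw [h5]
        exact_mod_cast hd
      · intro j hj
        have : j = i := by
          by_contra hne
          exact hj (Pi.single_eq_of_ne hne _)
        rw [this, hai]
        norm_num
    · refine ⟨fun i => (v i : ℤ), 1, ?_, ?_, ?_, ?_⟩
      · intro j
        rw [hgv, toR]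
        simp
      · rw [hgv, hva, Int.cast_one]
      · have h5 : ∑ i, |((v i : ℕ) : ℤ)| = ((∑ i, v i : ℕ) : ℤ) := by
          rw [Nat.cast_sum]
          apply Finset.sum_congr rfl
          intro i _
          exact abs_of_nonneg (Int.natCast_nonneg _)
        rw [h5]
        exact_mod_cast hdeg v hv
      · intro i hi
        have h5 : 1 ≤ v i := by
          have : v i ≠ 0 := by
            intro h0
            exact hi (by simp [h0])
          omega
        have h6 : toR v i * a i ≤ toR v ⬝ᵥ a :=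
          Finset.single_le_sum (f := fun i => toR v i * a i)
            (fun j _ => mul_nonneg (Nat.cast_nonneg _) (ha0 j)) (Finset.mem_univ i)
        rw [hva] at h6
        have h7 : (1 : ℝ) ≤ toR v i := by
          rw [toR]
          exact_mod_cast h5
        have h8 := mul_le_mul_of_nonneg_right h7 (ha0 i)
        linarith
  choose q e hq he hqd hqa using hrow
  let M : Matrix (Fin r) (Fin r) ℤ := Matrix.of q
  let MR : Matrix (Fin r) (Fin r) ℝ := (Int.castRingHom ℝ).mapMatrix M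
  have hMR : ∀ k i, MR k i = g k i := by
    intro k i
    exact hq k i
  have hMRrow : MR.row = g := by
    funext k i
    exact hMR k i
  have hunit : IsUnit MR := by
    rw [← Matrix.linearIndependent_rows_iff_isUnit, hMRrow]
    exact hli
  have hdetR : MR.det ≠ 0 := by
    rw [Matrix.isUnit_iff_isUnit_det] at hunit
    exact hunit.ne_zero
  have hdetcast : ((M.det : ℤ) : ℝ) = MR.det := by
    exact (Int.castRingHom ℝ).map_det M
  have hdet : M.det ≠ 0 := by
    intro h0
    apply hdetR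
    rw [← hdetcast, h0, Int.cast_zero]
  -- Cramer
  have hMa : MR.mulVec a = fun k => (e k : ℝ) := by
    funext k
    rw [he k]
    show (fun i => MR k i) ⬝ᵥ a = g k ⬝ᵥ a
    rw [show (fun i => MR k i) = g k from funext (hMR k)]
  have hcramer : ∀ i, ((M.det : ℤ) : ℝ) * a i = (((M.adjugate.mulVec e) i : ℤ) : ℝ) := by
    intro i
    have h5 : (MR.adjugate.mulVec (MR.mulVec a)) i = MR.det * a i := by
      rw [Matrix.mulVec_mulVec, Matrix.adjugate_mul, Matrix.smul_mulVec, Matrix.one_mulVec]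
      rfl
    rw [hdetcast, ← h5, hMa]
    have h6 := (Int.castRingHom ℝ).map_mulVec M.adjugate e i
    have h7 : (Int.castRingHom ℝ) ((M.adjugate.mulVec e) i) =
        (((M.adjugate.mulVec e) i : ℤ) : ℝ) := rfl
    rw [← h7, h6]
    have h8 : M.adjugate.map (Int.castRingHom ℝ) = MR.adjugate := by
      have := (Int.castRingHom ℝ).map_adjugate M
      rw [RingHom.mapMatrix_apply] at this
      exact this
    rw [h8]
    rfl
  -- each coordinate is at most one
  have ha1 : ∀ i, a i ≤ 1 := by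
    intro i
    by_contra hcon
    apply hdet
    apply Matrix.det_eq_zero_of_column_eq_zero i
    intro k
    by_contra hne
    exact hcon (hqa k i hne)
  set D : ℕ := M.det.natAbs with hD
  have hD1 : 1 ≤ D := Int.natAbs_pos.mpr hdet
  have hDle : D ≤ d ^ r := by
    have h5 := abs_det_le_pow M (d := d) (fun k => hqd k)
    rw [Int.abs_eq_natAbs] at h5
    exact_mod_cast h5
  let A : Fin r → ℕ := fun i => ((M.adjugate.mulVec e) i).natAbs
  have hA : ∀ i, (A i : ℝ) = (D : ℝ) * a i := by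
    intro i
    have h5 := hcramer i
    have h6 : |((M.det : ℤ) : ℝ) * a i| = |(((M.adjugate.mulVec e) i : ℤ) : ℝ)| := by rw [h5]
    rw [abs_mul, abs_of_nonneg (ha0 i), ← Int.cast_abs, ← Int.cast_abs, Int.abs_eq_natAbs,
      Int.abs_eq_natAbs] at h6
    rw [Int.cast_natCast, Int.cast_natCast] at h6
    rw [hD]
    exact h6.symm
  have hAle : ∀ i, A i ≤ D := by
    intro i
    have h5 : (A i : ℝ) ≤ (D : ℝ) := by
      rw [hA i]
      have := mul_le_mul_of_nonneg_left (ha1 i) (Nat.cast_nonneg (α := ℝ) D)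
      linarith
    exact_mod_cast h5
  have hmem : 1 ≤ D ∧ ∀ v ∈ G, D ≤ ∑ i, A i * v i := by
    refine ⟨hD1, ?_⟩
    intro v hv
    have h5 : (D : ℝ) ≤ ((∑ i, A i * v i : ℕ) : ℝ) := by
      rw [Nat.cast_sum]
      have h6 : ∑ i, ((A i * v i : ℕ) : ℝ) = (D : ℝ) * (toR v ⬝ᵥ a) := by
        rw [dotProduct, Finset.mul_sum]
        apply Finset.sum_congr rfl
        intro i _
        rw [Nat.cast_mul, hA i, toR]
        ring
      rw [h6]
      have := mul_le_mul_of_nonneg_left (haG v hv) (Nat.cast_nonneg (α := ℝ) D)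
      linarith
    exact_mod_cast h5
  have hcon := h ⟨(fun i => ⟨A i, by have := hAle i; omega⟩, ⟨D, by omega⟩), hmem⟩
  simp only at hcon
  have h6 : ∑ i, ((A i : ℕ) : ℝ) * z i = (D : ℝ) * (z ⬝ᵥ a) := by
    rw [dotProduct, Finset.mul_sum]
    apply Finset.sum_congr rfl
    intro i _
    rw [hA i]
    ring
  rw [h6] at hcon
  have hDpos : (0 : ℝ) < (D : ℝ) := by exact_mod_cast hD1
  have := mul_lt_mul_of_pos_left hza hDpos
  linarith

end Pool.Agent.Lib.MP_a8bb4d_al
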