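import Pool.Agent.Lib.MP_a8bb4d_al.Sweep

/-!
# The minimal value of the invariant and the two bounds
-/

set_option autoImplicit false
set_option linter.unusedSectionVars false

namespace Pool.Agent.Lib.MP_a8bb4d_al

open MvPolynomial

universe u

variable {r : ℕ} {ι : Type} [Fintype ι] [DecidableEq ι] {a : ι → Fin r → ℝ} {b : ι → ℝ}

theorem rk_empty : rk a (∅ : Finset ι) = 0 := by
  unfold rk
  simp

theorem EE_empty : EE a (∅ : Finset ι) = Finset.univ := by
  ext i
  simp [mem_EE]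

theorem fam_of_empty (V : Finset ι) : fam a ∅ V = V.image (zeroSet a) := by
  unfold fam
  rw [EE_empty]
  apply Finset.image_congr
  intro j _
  simp

theorem isFace_empty (ha : ∀ j i, 0 ≤ a j i) (ha0 : ∀ j, ∃ i, 0 < a j i) :
    IsFace a b (∅ : Finset ι) := by
  let e : Fin r → ℝ := fun _ => 1
  have hepos : ∀ j, 0 < L a j e := by
    intro j
    rw [L_apply]
    obtain ⟨i, hi⟩ := ha0 j
    apply Finset.sum_pos' (fun i _ => by simpa [e] using ha j i)
    exact ⟨i, Finset.mem_univ i, by simpa [e] using hi⟩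
  have h1 : ∀ j, ∀ᶠ c : ℝ in Filter.atTop, b j < L a j (c • e) := by
    intro j
    have h2 : (fun c : ℝ => L a j (c • e)) = fun c : ℝ => c * L a j e := by
      funext c
      rw [map_smul, smul_eq_mul]
    have h3 : Filter.Tendsto (fun c : ℝ => L a j (c • e)) Filter.atTop Filter.atTop := by
      rw [h2]
      exact Filter.tendsto_id.atTop_mul_const (hepos j)
    exact h3.eventually (Filter.eventually_gt_atTop (b j))
  have h2 : ∀ᶠ c : ℝ in Filter.atTop, ∀ j, b j < L a j (c • e) := Filter.eventually_all.mpr h1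
  obtain ⟨c, hc1, hc2⟩ := ((Filter.eventually_gt_atTop (0 : ℝ)).and h2).exists
  refine ⟨c • e, ?_, ?_, ?_⟩
  · intro i
    simp only [Pi.smul_apply, smul_eq_mul, e, mul_one]
    exact hc1
  · intro j hj
    exact absurd hj (Finset.notMem_empty j)
  · intro j _
    exact hc2 j

/-- Push a nonnegative point inside the positive orthant. -/
theorem exists_perturb (ha : ∀ j i, 0 ≤ a j i) {z : Fin r → ℝ} (hz : ∀ i, 0 ≤ z i) :
    ∃ z', IsPos z' ∧ viol a b z' = viol a b z := by
  let e : Fin r → ℝ := fun _ => 1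
  have he : ∀ j, 0 ≤ L a j e := by
    intro j
    rw [L_apply]
    exact Finset.sum_nonneg (fun i _ => by simpa [e] using ha j i)
  have h1 : ∀ j ∈ viol a b z, ∀ᶠ c in nhdsWithin (0 : ℝ) (Set.Ioi 0), L a j (z + c • e) < b j := by
    intro j hj
    rw [mem_viol] at hj
    have h2 : Filter.Tendsto (fun c : ℝ => L a j z + c * L a j e) (nhds 0)
        (nhds (L a j z + 0 * L a j e)) :=
      tendsto_const_nhds.add (Filter.tendsto_id.mul_const _)
    rw [zero_mul, add_zero] at h2
    have h3 : (fun c : ℝ => L a j (z + c • e)) = fun c : ℝ => L a j z + c * L a j e := by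
      funext c
      rw [map_add, map_smul, smul_eq_mul]
    have h4 : Filter.Tendsto (fun c : ℝ => L a j (z + c • e)) (nhdsWithin 0 (Set.Ioi 0))
        (nhds (L a j z)) := by
      rw [h3]
      exact h2.mono_left nhdsWithin_le_nhds
    exact h4.eventually (gt_mem_nhds hj)
  have h2 : ∀ᶠ c in nhdsWithin (0 : ℝ) (Set.Ioi 0), ∀ j ∈ viol a b z, L a j (z + c • e) < b j :=
    (Filter.eventually_all_finset (viol a b z)).mpr h1
  obtain ⟨c, hc1, hc2⟩ :=
    ((eventually_mem_nhdsWithin (a := (0 : ℝ)) (s := Set.Ioi 0)).and h2).exists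
  have hc1' : 0 < c := hc1
  refine ⟨z + c • e, ?_, ?_⟩
  · intro i
    have := hz i
    simp only [Pi.add_apply, Pi.smul_apply, smul_eq_mul, e, mul_one]
    linarith
  · ext j
    by_cases hj : j ∈ viol a b z
    · simp only [hj, iff_true]
      rw [mem_viol]
      exact hc2 j hj
    · simp only [hj, iff_false]
      rw [mem_viol] at hj ⊢
      rw [not_lt] at hj ⊢
      rw [map_add, map_smul, smul_eq_mul]
      have := mul_nonneg hc1'.le (he j)
      linarith

theorem rk_pos (ha0 : ∀ j, ∃ i, 0 < a j i) {J : Finset ι} (hJ : J.Nonempty) : 0 < rk a J := by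
  obtain ⟨j, hj⟩ := hJ
  unfold rk
  rw [Nat.pos_iff_ne_zero]
  intro h
  have h0 : Submodule.span ℝ (L a '' (J : Set ι)) = ⊥ := Submodule.finrank_eq_zero.mp h
  have h1 : L a j = 0 := by
    rw [← Submodule.mem_bot ℝ, ← h0]
    exact Submodule.subset_span ⟨j, Finset.mem_coe.mpr hj, rfl⟩
  obtain ⟨i, hi⟩ := ha0 j
  have h2 : L a j (Pi.single i 1) = 0 := by rw [h1]; rfl
  rw [L_single] at h2
  linarith

theorem exists_nonempty_face (ha : ∀ j i, 0 ≤ a j i) (ha0 : ∀ j, ∃ i, 0 < a j i)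
    (hb : ∃ j, 0 < b j) : ∃ J : Finset ι, J.Nonempty ∧ IsFace a b J := by
  obtain ⟨z, hz, hv⟩ := exists_perturb (a := a) (b := b) ha (z := 0) (fun i => le_rfl)
  have hV : (viol a b z).Nonempty := by
    rw [hv]
    obtain ⟨j, hj⟩ := hb
    refine ⟨j, ?_⟩
    rw [mem_viol, map_zero]
    exact hj
  obtain ⟨S, hS, _, hface, _⟩ := last_crossing (isFace_empty (b := b) ha ha0) hz
    (fun j hj => absurd hj (Finset.notMem_empty j)) hV
  exact ⟨∅ ∪ S, by rwa [Finset.empty_union], hface⟩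

/-- **The two bounds.** -/
theorem sweep_main (K : Type u) [Field K] (ha : ∀ j i, 0 ≤ a j i) (ha0 : ∀ j, ∃ i, 0 < a j i)
    (hb : ∃ j, 0 < b j) :
    ∃ (D : ℕ) (Js : Finset ι), Js.Nonempty ∧ IsFace a b Js ∧
      (∀ z : Fin r → ℝ, (∀ i, 0 ≤ z i) → Dep K ((viol a b z).image (zeroSet a)) D) ∧
      ¬ Dep K (Js.image (zeroSet a)) (D + 1) := by
  classical
  let F : Finset (Finset ι) := Finset.univ.filter (fun J => J.Nonempty ∧ IsFace a b J)
  have hF : F.Nonempty := by
    obtain ⟨J, h1, h2⟩ := exists_nonempty_face (b := b) ha ha0 hb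
    exact ⟨J, Finset.mem_filter.mpr ⟨Finset.mem_univ J, h1, h2⟩⟩
  obtain ⟨Js, hJsF, hmin⟩ := Finset.exists_min_image F (fun J => (EE a J).card + rk a J) hF
  obtain ⟨-, hJsne, hJs⟩ := Finset.mem_filter.mp hJsF
  have hpos : 0 < (EE a Js).card + rk a Js := by
    have := rk_pos (a := a) ha0 hJsne
    omega
  obtain ⟨D, hD⟩ : ∃ D, (EE a Js).card + rk a Js = D + 1 := ⟨(EE a Js).card + rk a Js - 1, by omega⟩
  have hD' : ∀ J : Finset ι, J.Nonempty → IsFace a b J → D + 1 ≤ (EE a J).card + rk a J := by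
    intro J h1 h2
    rw [← hD]
    exact hmin J (Finset.mem_filter.mpr ⟨Finset.mem_univ J, h1, h2⟩)
  refine ⟨D, Js, hJsne, hJs, ?_, ?_⟩
  · intro z hz
    obtain ⟨z', hz', hv⟩ := exists_perturb (a := a) (b := b) ha hz
    rw [← hv, ← fam_of_empty]
    apply lower_bound ha hD' _ ∅ le_rfl (isFace_empty ha ha0) _ z' hz'
      (fun j hj => absurd hj (Finset.notMem_empty j)) le_rfl
    rw [rk_empty, add_zero]
  · have h := upper_bound (K := K) ha hD' hJs hD _ ∅ le_rfl (isFace_empty ha ha0)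
      (Finset.ssubset_iff_subset_ne.mpr ⟨Finset.empty_subset _, hJsne.ne_empty.symm⟩) D
      (by rw [rk_empty, add_zero])
    rw [Finset.sdiff_empty, fam_of_empty] at h
    exact h

end Pool.Agent.Lib.MP_a8bb4d_al
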