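import Pool.Agent.Lib.MP_a8bb4d_al.Decomp
import Pool.Agent.Lib.MP_a8bb4d_al.SweepMain
import Pool.Agent.Lib.MP_a8bb4d_al.Lattice

/-!
# Depth of the ideals cut out by the lattice constraints
-/

set_option autoImplicit false

namespace Pool.Agent.Lib.MP_a8bb4d_al

open MvPolynomial

universe u

variable {r : ℕ} {G : Finset (Fin r →₀ ℕ)} {B : ℕ}

/-- the exponents satisfying the constraints dilated by `n` -/
def EN (G : Finset (Fin r →₀ ℕ)) (B n : ℕ) : Set (Fin r →₀ ℕ) :=
  {α | ∀ j : Con G B, n * (j.1.2 : ℕ) ≤ sC j α}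

theorem sC_mono (j : Con G B) {v w : Fin r →₀ ℕ} (h : v ≤ w) : sC j v ≤ sC j w :=
  Finset.sum_le_sum (fun i _ => Nat.mul_le_mul_left _ (h i))

theorem EN_upper (n : ℕ) : IsUpperSet (EN G B n) := by
  intro α β h hα j
  exact (hα j).trans (sC_mono j h)

theorem viol_iff {n : ℕ} (hn : 1 ≤ n) (α : Fin r →₀ ℕ) (j : Con G B) :
    j ∈ viol aC bC (fun i => (α i : ℝ) / n) ↔ sC j α < n * (j.1.2 : ℕ) := by
  have hn0 : (0 : ℝ) < n := by exact_mod_cast hn
  have h1 : L aC j (fun i => (α i : ℝ) / n) = (sC j α : ℝ) / n := by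
    rw [← L_toR, L_apply, L_apply, Finset.sum_div]
    apply Finset.sum_congr rfl
    intro i _
    rw [toR]
    ring
  rw [mem_viol, h1, div_lt_iff₀ hn0, bC]
  constructor
  · intro h
    have h2 : (sC j α : ℝ) < ((n * (j.1.2 : ℕ) : ℕ) : ℝ) := by
      rw [Nat.cast_mul]
      linarith
    exact_mod_cast h2
  · intro h
    have h2 : (sC j α : ℝ) < ((n * (j.1.2 : ℕ) : ℕ) : ℝ) := by exact_mod_cast h
    rw [Nat.cast_mul] at h2
    linarith

theorem boxExp_apply {N : ℕ} (γ : Fin r → Fin N) (i : Fin r) : boxExp N γ i = (γ i : ℕ) := by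
  simp [boxExp]

theorem resSet_EN {n N : ℕ} (hn : 1 ≤ n) (hN : ∀ j : Con G B, n * (j.1.2 : ℕ) ≤ N)
    (γ : Fin r → Fin N) :
    resSet N (EN G B n) γ =
      srSet ((viol (aC (G := G) (B := B)) bC (fun i => (boxExp N γ i : ℝ) / n)).image
        (zeroSet aC)) := by
  ext β
  have h1 : β ∈ resSet N (EN G B n) γ ↔
      ∀ j : Con G B, n * (j.1.2 : ℕ) ≤ N * sC j β + sC j (boxExp N γ) := by
    constructor
    · intro h j
      have := h j
      rwa [sC_add, sC_smul] at this
    · intro h j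
      rw [sC_add, sC_smul]
      exact h j
  have h2 : ∀ j : Con G B, (β.support ⊆ zeroSet aC j ↔ sC j β = 0) := by
    intro j
    constructor
    · intro h
      unfold sC
      apply Finset.sum_eq_zero
      intro i _
      by_cases hi : β i = 0
      · rw [hi, mul_zero]
      · have h3 := h (Finsupp.mem_support_iff.mpr hi)
        rw [mem_zeroSet, aC] at h3
        have h4 : (j.1.1 i : ℕ) = 0 := by exact_mod_cast h3
        rw [h4, zero_mul]
    · intro h i hi
      unfold sC at h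
      have h3 := (Finset.sum_eq_zero_iff.mp h) i (Finset.mem_univ i)
      rw [mem_zeroSet, aC]
      rcases Nat.mul_eq_zero.mp h3 with h4 | h4
      · rw [h4, Nat.cast_zero]
      · exact absurd h4 (Finsupp.mem_support_iff.mp hi)
  rw [h1]
  constructor
  · intro h Gs hGs hsub
    obtain ⟨j, hj, rfl⟩ := Finset.mem_image.mp hGs
    rw [viol_iff hn] at hj
    have h3 := h j
    rw [(h2 j).mp hsub, mul_zero, zero_add] at h3
    omega
  · intro h j
    by_cases hj : sC j (boxExp N γ) < n * (j.1.2 : ℕ)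
    · have h3 := h _ (Finset.mem_image_of_mem _ ((viol_iff hn _ j).mpr hj))
      rw [h2 j] at h3
      have h4 : 1 ≤ sC j β := Nat.one_le_iff_ne_zero.mpr h3
      calc n * (j.1.2 : ℕ) ≤ N := hN j
        _ ≤ N * sC j β := Nat.le_mul_of_pos_right _ h4
        _ ≤ _ := Nat.le_add_right _ _
    · omega

theorem restrictSupportIdeal_congr {K : Type u} [Field K] {E E' : Set (Fin r →₀ ℕ)}
    (hE : IsUpperSet E) (hE' : IsUpperSet E') (h : E = E') :
    restrictSupportIdeal K E hE = restrictSupportIdeal K E' hE' := by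
  subst h
  rfl

/-- **Depth of the dilated ideals.** -/
theorem depth_main (K : Type u) [Field K] {d : ℕ} (hd : 1 ≤ d) (hG : G.Nonempty)
    (hdeg : ∀ v ∈ G, ∑ i, v i ≤ d) (hG0 : ∀ v ∈ G, v ≠ 0) :
    ∃ D : ℕ, (∀ n, 1 ≤ n → DGE (irr K r)
        (MvPolynomial (Fin r) K ⧸ restrictSupportIdeal K (EN G (d ^ r) n) (EN_upper n)) D) ∧
      ∀ n, r * d ^ r + 1 ≤ n → ¬ DGE (irr K r)
        (MvPolynomial (Fin r) K ⧸ restrictSupportIdeal K (EN G (d ^ r) n) (EN_upper n)) (D + 1) := by
  have hB : 1 ≤ d ^ r := Nat.one_le_pow _ _ hd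
  have ha : ∀ (j : Con G (d ^ r)) i, 0 ≤ aC j i := aC_nonneg
  have ha0 : ∀ j : Con G (d ^ r), ∃ i, 0 < aC j i := by
    intro j
    by_contra hcon
    push Not at hcon
    obtain ⟨v, hv⟩ := hG
    have h1 := j.2.2 v hv
    have h2 : ∑ i, (j.1.1 i : ℕ) * v i = 0 := by
      apply Finset.sum_eq_zero
      intro i _
      have h3 := le_antisymm (hcon i) (ha j i)
      rw [aC] at h3
      have h4 : (j.1.1 i : ℕ) = 0 := by exact_mod_cast h3
      rw [h4, zero_mul]
    have h3 := j.2.1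
    omega
  -- the constraint `∑ x_i ≥ 1`
  have hone : ∀ v ∈ G, 1 ≤ ∑ i, v i := by
    intro v hv
    have h1 : ∃ i, v i ≠ 0 := by
      by_contra hcon
      push Not at hcon
      exact hG0 v hv (Finsupp.ext hcon)
    obtain ⟨i, hi⟩ := h1
    have h2 : v i ≤ ∑ i, v i :=
      Finset.single_le_sum (f := fun i => v i) (fun _ _ => Nat.zero_le _) (Finset.mem_univ i)
    omega
  let j₁ : Con G (d ^ r) := ⟨(fun _ => ⟨1, by omega⟩, ⟨1, by omega⟩), by
    refine ⟨le_rfl, ?_⟩
    intro v hv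
    simpa using hone v hv⟩
  have hb : ∃ j : Con G (d ^ r), 0 < bC j := ⟨j₁, by simp [bC, j₁]⟩
  obtain ⟨D, Js, hne, hface, hlow, hup⟩ := sweep_main (a := aC) (b := bC) K ha ha0 hb
  have h0 : ∀ n, 1 ≤ n → (0 : Fin r →₀ ℕ) ∉ EN G (d ^ r) n := by
    intro n hn h
    have h1 := h j₁
    have h2 : sC j₁ 0 = 0 := by
      unfold sC
      simp
    have h3 : ((j₁.1.2 : Fin _) : ℕ) = 1 := rfl
    rw [h2, h3] at h1
    omega
  refine ⟨D, ?_, ?_⟩
  · intro n hn
    have hN : 0 < n * d ^ r := Nat.mul_pos hn hB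
    rw [DGE_quot_iff hN (EN_upper n) (h0 n hn)]
    intro γ
    rw [restrictSupportIdeal_congr _ (srSet_upper _) (resSet_EN hn (fun j => by
      have := j.1.2.isLt
      exact Nat.mul_le_mul_left _ (by omega)) γ)]
    exact hlow _ (fun i => div_nonneg (Nat.cast_nonneg _) (Nat.cast_nonneg _))
  · intro n hn hcon
    have hn1 : 1 ≤ n := by omega
    obtain ⟨α, hα⟩ := exists_lattice hd hdeg hG0 hface hne hn
    -- a large box
    let N : ℕ := n * d ^ r + ∑ i, α i + 1
    have hN : 0 < N := by omega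
    have hαN : ∀ i, α i < N := by
      intro i
      have h2 : α i ≤ ∑ i, α i :=
        Finset.single_le_sum (f := fun i => α i) (fun _ _ => Nat.zero_le _) (Finset.mem_univ i)
      omega
    let γ : Fin r → Fin N := fun i => ⟨α i, hαN i⟩
    have hγ : boxExp N γ = α := by
      ext i
      rw [boxExp_apply]
    rw [DGE_quot_iff hN (EN_upper n) (h0 n hn1)] at hcon
    have h1 := hcon γ
    rw [restrictSupportIdeal_congr _ (srSet_upper _) (resSet_EN hn1 (fun j => by
      have h3 := j.1.2.isLt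
      have h4 : n * (j.1.2 : ℕ) ≤ n * d ^ r := Nat.mul_le_mul_left _ (by omega)
      omega) γ), hγ] at h1
    apply hup
    have h2 : Js = viol aC bC (fun i => (α i : ℝ) / n) := by
      ext j
      rw [hα j, viol_iff hn1]
    rw [h2]
    exact h1

end Pool.Agent.Lib.MP_a8bb4d_al
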