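import Pool.Agent.Lib.MP_a8bb4d_al.Depth

/-!
# Push-forward of modules along `x_i ↦ x_i ^ N`

For a module `M` over the polynomial ring, `Push N M` is the same group with the polynomial ring
acting through `X_i ↦ X_i ^ N`.  The depth with respect to the irrelevant ideal does not change.
-/

set_option autoImplicit false

namespace Pool.Agent.Lib.MP_a8bb4d_al

open MvPolynomial

universe u

variable {K : Type u} [Field K] {r : ℕ}

/-- the irrelevant ideal `(X_1, ..., X_r)` -/
noncomputable def irr (K : Type u) [Field K] (r : ℕ) : Ideal (MvPolynomial (Fin r) K) :=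
  Ideal.span (Set.range X)

theorem X_mem_irr (i : Fin r) : (X i : MvPolynomial (Fin r) K) ∈ irr K r :=
  Ideal.subset_span ⟨i, rfl⟩

/-- The group `M` with the polynomial ring acting through `X_i ↦ X_i ^ N`. -/
def Push (_N : ℕ) (M : Type u) : Type u := M

section

variable {N : ℕ} {M : Type u} [AddCommGroup M]

instance : AddCommGroup (Push N M) := inferInstanceAs (AddCommGroup M)

/-- the identity as an additive equivalence -/
def Push.toAdd : Push N M ≃+ M := AddEquiv.refl M

variable [Module (MvPolynomial (Fin r) K) M]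

noncomputable instance : Module (MvPolynomial (Fin r) K) (Push N M) :=
  Module.compHom M (expand N : MvPolynomial (Fin r) K →ₐ[K] MvPolynomial (Fin r) K).toRingHom

theorem Push.toAdd_smul (f : MvPolynomial (Fin r) K) (x : Push N M) :
    Push.toAdd (f • x) = (expand N f) • (Push.toAdd x) := rfl

variable {M' : Type u} [AddCommGroup M'] [Module (MvPolynomial (Fin r) K) M']

/-- functoriality of the push-forward -/
noncomputable def Push.map (g : M →ₗ[MvPolynomial (Fin r) K] M') :
    Push N M →ₗ[MvPolynomial (Fin r) K] Push N M' where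
  toFun := g
  map_add' := g.map_add
  map_smul' f x := g.map_smul (expand N f) x

end

/-- reduction of an exponent modulo `N` -/
noncomputable def modExp (N : ℕ) (α : Fin r →₀ ℕ) : Fin r →₀ ℕ := Finsupp.equivFunOnFinite.symm (fun i => α i % N)

/-- quotient of an exponent by `N` -/
noncomputable def divExp (N : ℕ) (α : Fin r →₀ ℕ) : Fin r →₀ ℕ := Finsupp.equivFunOnFinite.symm (fun i => α i / N)

theorem divMod_exp (N : ℕ) (α : Fin r →₀ ℕ) : N • divExp N α + modExp N α = α := by
  ext i
  simp [divExp, modExp, Nat.div_add_mod]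

/-- the exponents with all entries smaller than `N` -/
noncomputable def boxExp (N : ℕ) (γ : Fin r → Fin N) : Fin r →₀ ℕ := Finsupp.equivFunOnFinite.symm (fun i => (γ i : ℕ))

theorem modExp_eq_box {N : ℕ} (hN : 0 < N) (α : Fin r →₀ ℕ) :
    ∃ γ : Fin r → Fin N, modExp N α = boxExp N γ :=
  ⟨fun i => ⟨α i % N, Nat.mod_lt _ hN⟩, rfl⟩

section

variable {N : ℕ} {M : Type u} [AddCommGroup M] [Module (MvPolynomial (Fin r) K) M]

theorem Push.finite (hN : 0 < N) [Module.Finite (MvPolynomial (Fin r) K) M] :
    Module.Finite (MvPolynomial (Fin r) K) (Push N M) := by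
  classical
  obtain ⟨S, hS⟩ := (Module.Finite.fg_top : (⊤ : Submodule (MvPolynomial (Fin r) K) M).FG)
  let T : Set (Push N M) := Set.range (fun p : (Fin r → Fin N) × S =>
    (Push.toAdd (N := N)).symm ((monomial (boxExp N p.1) (1 : K)) • (p.2 : M)))
  have hT : T.Finite := Set.finite_range _
  refine ⟨⟨hT.toFinset, ?_⟩⟩
  rw [Set.Finite.coe_toFinset]
  set P := Submodule.span (MvPolynomial (Fin r) K) T with hP
  have key : ∀ s ∈ S, ∀ f : MvPolynomial (Fin r) K, (Push.toAdd (N := N)).symm (f • s) ∈ P := by
    intro s hs f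
    induction f using MvPolynomial.induction_on' with
    | monomial α c =>
      obtain ⟨γ, hγ⟩ := modExp_eq_box hN α
      have h1 : (monomial α c : MvPolynomial (Fin r) K) =
          expand N (monomial (divExp N α) c) * monomial (boxExp N γ) 1 := by
        rw [expand_monomial, monomial_mul, mul_one, ← hγ, divMod_exp]
      have h2 : (Push.toAdd (N := N)).symm ((monomial α c) • s) =
          (monomial (divExp N α) c : MvPolynomial (Fin r) K) •
            (Push.toAdd (N := N)).symm ((monomial (boxExp N γ) (1 : K)) • s) := by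
        rw [h1, mul_smul]
        rfl
      rw [h2]
      exact P.smul_mem _ (Submodule.subset_span ⟨(γ, ⟨s, hs⟩), rfl⟩)
    | add p q hp hq =>
      rw [add_smul, map_add]
      exact P.add_mem hp hq
  rw [eq_top_iff]
  intro x _
  have hx : Push.toAdd x ∈ Submodule.span (MvPolynomial (Fin r) K) (S : Set M) := by
    rw [hS]
    trivial
  have : ∀ f : MvPolynomial (Fin r) K, (Push.toAdd (N := N)).symm (f • Push.toAdd x) ∈ P := by
    generalize Push.toAdd x = x' at hx
    induction hx using Submodule.span_induction with
    | mem y hy => exact key y hy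
    | zero =>
      intro f
      rw [smul_zero, map_zero]
      exact P.zero_mem
    | add y z _ _ hy hz =>
      intro f
      rw [smul_add, map_add]
      exact P.add_mem (hy f) (hz f)
    | smul g y _ hy =>
      intro f
      rw [← mul_smul]
      exact hy (f * g)
  simpa using this 1

theorem expand_mem_irr (hN : 0 < N) {f : MvPolynomial (Fin r) K} (hf : f ∈ irr K r) :
    expand N f ∈ irr K r := by
  have h : irr K r ≤ (irr K r).comap (expand N : MvPolynomial (Fin r) K →ₐ[K] _).toRingHom := by
    unfold irr
    rw [Ideal.span_le]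
    rintro _ ⟨i, rfl⟩
    rw [SetLike.mem_coe, Ideal.mem_comap]
    have : (expand N : MvPolynomial (Fin r) K →ₐ[K] _).toRingHom (X i) = X i ^ N := expand_X N i
    rw [this]
    exact Ideal.pow_mem_of_mem _ (X_mem_irr i) N hN
  exact h hf

theorem irr_smul_push_lt (hN : 0 < N)
    (hM : irr K r • (⊤ : Submodule (MvPolynomial (Fin r) K) M) < ⊤) :
    irr K r • (⊤ : Submodule (MvPolynomial (Fin r) K) (Push N M)) < ⊤ := by
  rw [lt_top_iff_ne_top] at hM ⊢
  intro h
  apply hM
  rw [eq_top_iff]
  intro x _
  have hx : (Push.toAdd (N := N)).symm x ∈ irr K r •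
      (⊤ : Submodule (MvPolynomial (Fin r) K) (Push N M)) := by
    rw [h]
    trivial
  have key : ∀ y : Push N M, y ∈ irr K r • (⊤ : Submodule (MvPolynomial (Fin r) K) (Push N M)) →
      Push.toAdd y ∈ irr K r • (⊤ : Submodule (MvPolynomial (Fin r) K) M) := by
    intro y hy
    refine Submodule.smul_induction_on hy ?_ ?_
    · intro f hf y _
      rw [Push.toAdd_smul]
      exact Submodule.smul_mem_smul (expand_mem_irr hN hf) trivial
    · intro y z hy hz
      rw [map_add]
      exact Submodule.add_mem _ hy hz
  exact key _ hx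

open RingTheory.Sequence in
theorem isRegular_push_iff (rs : List (MvPolynomial (Fin r) K)) :
    IsRegular (Push N M) rs ↔ IsRegular M (rs.map (expand N)) := by
  apply AddEquiv.isRegular_congr (e := Push.toAdd)
  rw [List.forall₂_map_right_iff, List.forall₂_same]
  intro f _ x
  exact Push.toAdd_smul f x

theorem exists_pow_mem_span_expand (N : ℕ) :
    ∃ s : ℕ, (irr K r) ^ s ≤ Ideal.span (Set.range (fun i : Fin r => (X i : MvPolynomial (Fin r) K) ^ N)) := by
  have hfg : (irr K r).FG := IsNoetherian.noetherian _
  apply Ideal.exists_pow_le_of_le_radical_of_fg _ hfg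
  unfold irr
  rw [Ideal.span_le]
  rintro _ ⟨i, rfl⟩
  exact ⟨N, Ideal.subset_span ⟨i, rfl⟩⟩

theorem DGE_of_push (hN : 0 < N) [Module.Finite (MvPolynomial (Fin r) K) M]
    (hM : irr K r • (⊤ : Submodule (MvPolynomial (Fin r) K) M) < ⊤) {k : ℕ}
    (h : DGE (irr K r) (Push N M) k) : DGE (irr K r) M k := by
  have := Push.finite (M := M) (K := K) (r := r) hN
  rw [DGE_iff_exists_isRegular (irr_smul_push_lt hN hM)] at h
  rw [DGE_iff_exists_isRegular hM]
  obtain ⟨rs, hlen, hmem, hreg⟩ := h
  refine ⟨rs.map (expand N), by simpa using hlen, ?_, (isRegular_push_iff rs).mp hreg⟩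
  intro f hf
  rw [List.mem_map] at hf
  obtain ⟨g, hg, rfl⟩ := hf
  exact expand_mem_irr hN (hmem g hg)

/-- An element of `M` killed by the `N`-th powers of the variables vanishes, if the irrelevant
ideal contains an `M`-regular element. -/
theorem eq_zero_of_pow_smul {y : MvPolynomial (Fin r) K} (hy : y ∈ irr K r)
    (hreg : IsSMulRegular M y) (u : M)
    (hu : ∀ i : Fin r, (X i : MvPolynomial (Fin r) K) ^ N • u = 0) : u = 0 := by
  obtain ⟨s, hs⟩ := exists_pow_mem_span_expand (K := K) (r := r) N
  have h1 : y ^ s ∈ Ideal.span (Set.range (fun i : Fin r => (X i : MvPolynomial (Fin r) K) ^ N)) :=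
    hs (Ideal.pow_mem_pow hy s)
  have h2 : ∀ f ∈ Ideal.span (Set.range (fun i : Fin r => (X i : MvPolynomial (Fin r) K) ^ N)),
      f • u = 0 := by
    intro f hf
    induction hf using Submodule.span_induction with
    | mem g hg =>
      obtain ⟨i, rfl⟩ := hg
      exact hu i
    | zero => exact zero_smul _ _
    | add g h _ _ hg hh => rw [add_smul, hg, hh, add_zero]
    | smul a g _ hg => rw [smul_eq_mul, mul_smul, hg, smul_zero]
  have h3 := h2 _ h1
  exact (hreg.pow s).right_eq_zero_of_smul h3

open Pointwise in
theorem irr_smul_quot_lt {x : MvPolynomial (Fin r) K} (hx : x ∈ irr K r)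
    (hM : irr K r • (⊤ : Submodule (MvPolynomial (Fin r) K) M) < ⊤) :
    irr K r • (⊤ : Submodule (MvPolynomial (Fin r) K) (QuotSMulTop x M)) < ⊤ := by
  rw [lt_top_iff_ne_top] at hM ⊢
  intro h
  apply hM
  have h1 := congrArg (Submodule.comap (Submodule.mkQ (x • (⊤ : Submodule _ M)))) h
  rw [Submodule.comap_top, Submodule.comap_smul_top_of_surjective _ _ (Submodule.mkQ_surjective _),
    Submodule.ker_mkQ, sup_eq_left.mpr] at h1
  · exact h1
  · rw [← Submodule.ideal_span_singleton_smul]
    exact Submodule.smul_mono_left ((Ideal.span_singleton_le_iff_mem _).mpr hx)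

theorem DGE_push_succ {C : Type u} [AddCommGroup C] [Module (MvPolynomial (Fin r) K) C]
    {x : MvPolynomial (Fin r) K} (hx : x ∈ irr K r) (q : M →ₗ[MvPolynomial (Fin r) K] C)
    (hq : Function.Surjective q) (hreg : IsSMulRegular (Push N M) x)
    (hex : ∀ u : M, q u = 0 ↔ ∃ v : M, expand N x • v = u) {k : ℕ}
    (h : DGE (irr K r) (Push N C) k) : DGE (irr K r) (Push N M) (k + 1) := by
  have hinj := lsmul_injective_of_regular hreg
  have hsurj : Function.Surjective (Push.map (N := N) q) := hq
  have hexact : Function.Exact (LinearMap.lsmul (MvPolynomial (Fin r) K) (Push N M) x)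
      (Push.map (N := N) q) := by
    intro z
    exact hex z
  exact DGE_succ_of_mul hx hinj hsurj hexact h

theorem DGE_push (hN : 0 < N) [Module.Finite (MvPolynomial (Fin r) K) M]
    (hM : irr K r • (⊤ : Submodule (MvPolynomial (Fin r) K) M) < ⊤) {k : ℕ}
    (h : DGE (irr K r) M k) : DGE (irr K r) (Push N M) k := by
  induction k generalizing M with
  | zero => exact DGE_zero
  | succ k ih =>
    -- an element of `m` regular on the push-forward
    have hfin := Push.finite (M := M) (K := K) (r := r) hN
    have h1 : DGE (irr K r) M 1 := h.mono (by omega)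
    rw [DGE_iff_exists_isRegular hM] at h1
    obtain ⟨rs, hlen, hmem, hreg⟩ := h1
    obtain ⟨y, rfl⟩ := List.length_eq_one_iff.mp hlen
    have hy : y ∈ irr K r := hmem y (by simp)
    have hyreg : IsSMulRegular M y := by
      rw [RingTheory.Sequence.isRegular_cons_iff] at hreg
      exact hreg.1
    have h2 : DGE (irr K r) (Push N M) 1 := by
      intro i hi
      have hi0 : i = 0 := by omega
      subst hi0
      have : Subsingleton ((MvPolynomial (Fin r) K ⧸ irr K r) →ₗ[MvPolynomial (Fin r) K]
          (Push N M)) := by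
        constructor
        intro f g
        have hz : ∀ f : (MvPolynomial (Fin r) K ⧸ irr K r) →ₗ[MvPolynomial (Fin r) K]
            (Push N M), f 1 = 0 := by
          intro f
          apply (Push.toAdd (N := N) (M := M)).injective
          rw [map_zero]
          apply eq_zero_of_pow_smul (N := N) hy hyreg
          intro i
          have e1 : (X i : MvPolynomial (Fin r) K) • (1 : MvPolynomial (Fin r) K ⧸ irr K r) = 0 := by
            have : (X i : MvPolynomial (Fin r) K) • (1 : MvPolynomial (Fin r) K ⧸ irr K r) =
              Ideal.Quotient.mk (irr K r) (X i * 1) := rfl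
            rw [this, mul_one, Ideal.Quotient.eq_zero_iff_mem]
            exact X_mem_irr i
          have e2 : (X i : MvPolynomial (Fin r) K) • f 1 = 0 := by
            rw [← map_smul, e1, map_zero]
          have e3 := congrArg (Push.toAdd (N := N) (M := M)) e2
          rw [Push.toAdd_smul, expand_X, map_zero] at e3
          exact e3
        apply LinearMap.ext
        intro z
        obtain ⟨z, rfl⟩ := Ideal.Quotient.mk_surjective z
        have e4 : (Ideal.Quotient.mk (irr K r) z) = z • (1 : MvPolynomial (Fin r) K ⧸ irr K r) := by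
          have : z • (1 : MvPolynomial (Fin r) K ⧸ irr K r) =
              Ideal.Quotient.mk (irr K r) (z * 1) := rfl
          rw [this, mul_one]
        rw [e4, map_smul, map_smul, hz f, hz g]
      exact (CategoryTheory.Abelian.Ext.addEquiv₀.trans ModuleCat.homAddEquiv).subsingleton
    rw [DGE_iff_exists_isRegular (irr_smul_push_lt hN hM)] at h2
    obtain ⟨rs, hlen, hmem', hreg'⟩ := h2
    obtain ⟨x, rfl⟩ := List.length_eq_one_iff.mp hlen
    have hx : x ∈ irr K r := hmem' x (by simp)
    have hxreg : IsSMulRegular (Push N M) x := by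
      rw [RingTheory.Sequence.isRegular_cons_iff] at hreg'
      exact hreg'.1
    -- the quotient of `M` by the expanded element
    have hxreg' : IsSMulRegular M (expand N x) := by
      rw [isSMulRegular_iff_right_eq_zero_of_smul]
      intro a ha
      have e1 : x • (Push.toAdd (N := N)).symm a = 0 := by
        apply (Push.toAdd (N := N) (M := M)).injective
        rw [Push.toAdd_smul, AddEquiv.apply_symm_apply, map_zero]
        exact ha
      have e2 := hxreg.right_eq_zero_of_smul e1
      have e3 := congrArg (Push.toAdd (N := N) (M := M)) e2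
      rw [AddEquiv.apply_symm_apply, map_zero] at e3
      exact e3
    have h3 : DGE (irr K r) (QuotSMulTop (expand N x) M) k := DGE_quot_of_regular hxreg' h
    have h4 := ih (irr_smul_quot_lt (expand_mem_irr hN hx) hM) h3
    have hex := LinearMap.exact_lsmul_mkQ_smul_top M (expand N x)
    exact DGE_push_succ hx _ (Submodule.mkQ_surjective _) hxreg (fun u => hex u) h4

theorem DGE_push_iff (hN : 0 < N) [Module.Finite (MvPolynomial (Fin r) K) M]
    (hM : irr K r • (⊤ : Submodule (MvPolynomial (Fin r) K) M) < ⊤) {k : ℕ} :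
    DGE (irr K r) (Push N M) k ↔ DGE (irr K r) M k :=
  ⟨DGE_of_push hN hM, DGE_push hN hM⟩

end

end Pool.Agent.Lib.MP_a8bb4d_al
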