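import Pool.Agent.Lib.MP_a8bb4d_al.Push

/-!
# Depth of quotients by intersections of ideals generated by variables
-/

set_option autoImplicit false

namespace Pool.Agent.Lib.MP_a8bb4d_al

open MvPolynomial

universe u

section general

variable {R : Type u} [CommRing R] {m : Ideal R} (I J : Ideal R)

/-- the diagonal map `R/(I ∩ J) → R/I × R/J` -/
noncomputable def diagMap : (R ⧸ (I ⊓ J)) →ₗ[R] (R ⧸ I) × (R ⧸ J) :=
  (Submodule.factor (inf_le_left : I ⊓ J ≤ I)).prod (Submodule.factor (inf_le_right : I ⊓ J ≤ J))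

/-- the difference map `R/I × R/J → R/(I + J)` -/
noncomputable def diffMap : (R ⧸ I) × (R ⧸ J) →ₗ[R] (R ⧸ (I ⊔ J)) :=
  (Submodule.factor (le_sup_left : I ≤ I ⊔ J)).comp (LinearMap.fst R (R ⧸ I) (R ⧸ J)) -
    (Submodule.factor (le_sup_right : J ≤ I ⊔ J)).comp (LinearMap.snd R (R ⧸ I) (R ⧸ J))

theorem diagMap_injective : Function.Injective (diagMap I J) := by
  rw [← LinearMap.ker_eq_bot, LinearMap.ker_eq_bot']
  intro x hx
  obtain ⟨x, rfl⟩ := Submodule.Quotient.mk_surjective _ x
  have h1 : (Submodule.Quotient.mk x : R ⧸ I) = 0 := congrArg Prod.fst hx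
  have h2 : (Submodule.Quotient.mk x : R ⧸ J) = 0 := congrArg Prod.snd hx
  rw [Submodule.Quotient.mk_eq_zero] at h1 h2 ⊢
  exact ⟨h1, h2⟩

theorem diffMap_surjective : Function.Surjective (diffMap I J) := by
  intro x
  obtain ⟨x, rfl⟩ := Submodule.Quotient.mk_surjective _ x
  refine ⟨(Submodule.Quotient.mk x, 0), ?_⟩
  simp [diffMap]

theorem diag_diff_exact : Function.Exact (diagMap I J) (diffMap I J) := by
  intro y
  obtain ⟨a, b⟩ := y
  obtain ⟨a, rfl⟩ := Submodule.Quotient.mk_surjective _ a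
  obtain ⟨b, rfl⟩ := Submodule.Quotient.mk_surjective _ b
  have h1 : diffMap I J (Submodule.Quotient.mk a, Submodule.Quotient.mk b) =
      Submodule.Quotient.mk (a - b) := by
    simp [diffMap]
  rw [h1, Submodule.Quotient.mk_eq_zero]
  constructor
  · intro h
    obtain ⟨i, hi, j, hj, hij⟩ := Submodule.mem_sup.mp h
    refine ⟨Submodule.Quotient.mk (a - i), ?_⟩
    have e1 : (Submodule.Quotient.mk (a - i) : R ⧸ I) = Submodule.Quotient.mk a := by
      rw [Submodule.Quotient.eq]
      have : a - i - a = -i := by ring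
      rw [this]
      exact I.neg_mem hi
    have e2 : (Submodule.Quotient.mk (a - i) : R ⧸ J) = Submodule.Quotient.mk b := by
      rw [Submodule.Quotient.eq]
      have : a - i - b = j := by
        have : a = b + (i + j) := by rw [hij]; ring
        rw [this]; ring
      rw [this]
      exact hj
    exact Prod.ext e1 e2
  · rintro ⟨c, hc⟩
    obtain ⟨c, rfl⟩ := Submodule.Quotient.mk_surjective _ c
    have e1 : (Submodule.Quotient.mk c : R ⧸ I) = Submodule.Quotient.mk a := congrArg Prod.fst hc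
    have e2 : (Submodule.Quotient.mk c : R ⧸ J) = Submodule.Quotient.mk b := congrArg Prod.snd hc
    rw [Submodule.Quotient.eq] at e1 e2
    have : a - b = -(c - a) + (c - b) := by ring
    rw [this]
    exact Submodule.add_mem_sup (I.neg_mem e1) e2

variable {I J}

theorem DGE_inf {k : ℕ} (hI : DGE m (R ⧸ I) (k + 1)) (hJ : DGE m (R ⧸ J) (k + 1))
    (hs : DGE m (R ⧸ (I ⊔ J)) k) : DGE m (R ⧸ (I ⊓ J)) (k + 1) :=
  DGE_left (diagMap_injective I J) (diffMap_surjective I J) (diag_diff_exact I J)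
    (DGE_prod hI hJ) hs

theorem not_DGE_inf {k : ℕ} (hI : DGE m (R ⧸ I) (k + 1)) (hJ : DGE m (R ⧸ J) (k + 1))
    (hs : ¬ DGE m (R ⧸ (I ⊔ J)) (k + 1)) : ¬ DGE m (R ⧸ (I ⊓ J)) (k + 2) :=
  not_DGE_left (diagMap_injective I J) (diffMap_surjective I J) (diag_diff_exact I J)
    (DGE_prod hI hJ) hs

end general

variable {K : Type u} [Field K] {r : ℕ}

theorem mem_restrictSupportIdeal {E : Set (Fin r →₀ ℕ)} {hE : IsUpperSet E}
    {f : MvPolynomial (Fin r) K} :
    f ∈ restrictSupportIdeal K E hE ↔ ∀ α ∈ f.support, α ∈ E := Iff.rfl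

/-- the exponents whose support is not contained in any of the sets in `𝒢` -/
def srSet (𝒢 : Finset (Finset (Fin r))) : Set (Fin r →₀ ℕ) := {α | ∀ G ∈ 𝒢, ¬ α.support ⊆ G}

theorem srSet_upper (𝒢 : Finset (Finset (Fin r))) : IsUpperSet (srSet 𝒢) := by
  intro α β h hα G hG hβ
  apply hα G hG
  refine Finset.Subset.trans ?_ hβ
  intro i hi
  rw [Finsupp.mem_support_iff] at hi ⊢
  have := h i
  omega

/-- the intersection of the ideals `(x_i : i ∉ G)` for `G ∈ 𝒢` -/
noncomputable def SR (K : Type u) [Field K] (𝒢 : Finset (Finset (Fin r))) :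
    Ideal (MvPolynomial (Fin r) K) :=
  restrictSupportIdeal K (srSet 𝒢) (srSet_upper 𝒢)

theorem mem_SR {𝒢 : Finset (Finset (Fin r))} {f : MvPolynomial (Fin r) K} :
    f ∈ SR K 𝒢 ↔ ∀ α ∈ f.support, ∀ G ∈ 𝒢, ¬ α.support ⊆ G := Iff.rfl

theorem SR_empty : SR K (∅ : Finset (Finset (Fin r))) = ⊤ := by
  rw [eq_top_iff]
  intro f _
  rw [mem_SR]
  intro α _ G hG
  exact absurd hG (Finset.notMem_empty G)

theorem SR_insert (G : Finset (Fin r)) (𝒢 : Finset (Finset (Fin r))) :
    SR K (insert G 𝒢) = SR K 𝒢 ⊓ SR K {G} := by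
  ext f
  rw [Submodule.mem_inf, mem_SR, mem_SR, mem_SR]
  constructor
  · intro h
    exact ⟨fun α hα G' hG' => h α hα G' (Finset.mem_insert_of_mem hG'),
      fun α hα G' hG' => by
        rw [Finset.mem_singleton] at hG'
        exact h α hα G' (hG' ▸ Finset.mem_insert_self _ _)⟩
  · rintro ⟨h1, h2⟩ α hα G' hG'
    rw [Finset.mem_insert] at hG'
    rcases hG' with rfl | hG'
    · exact h2 α hα _ (Finset.mem_singleton_self _)
    · exact h1 α hα G' hG'

theorem SR_insert_of_subset {G G' : Finset (Fin r)} {𝒢 : Finset (Finset (Fin r))} (hG' : G' ∈ 𝒢)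
    (h : G ⊆ G') : SR K (insert G 𝒢) = SR K 𝒢 := by
  ext f
  rw [mem_SR, mem_SR]
  constructor
  · intro hf α hα G₁ hG₁
    exact hf α hα G₁ (Finset.mem_insert_of_mem hG₁)
  · intro hf α hα G₁ hG₁
    rw [Finset.mem_insert] at hG₁
    rcases hG₁ with rfl | hG₁
    · intro hs
      exact hf α hα G' hG' (hs.trans h)
    · exact hf α hα G₁ hG₁

/-- Sums of monomial ideals correspond to unions of exponent sets. -/
theorem restrictSupportIdeal_sup {E E' : Set (Fin r →₀ ℕ)} (hE : IsUpperSet E)
    (hE' : IsUpperSet E') :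
    restrictSupportIdeal K E hE ⊔ restrictSupportIdeal K E' hE' =
      restrictSupportIdeal K (E ∪ E') (hE.union hE') := by
  classical
  apply le_antisymm
  · apply sup_le
    · intro f hf
      rw [mem_restrictSupportIdeal] at hf ⊢
      exact fun α hα => Or.inl (hf α hα)
    · intro f hf
      rw [mem_restrictSupportIdeal] at hf ⊢
      exact fun α hα => Or.inr (hf α hα)
  · intro f hf
    rw [mem_restrictSupportIdeal] at hf
    rw [f.as_sum]
    apply Ideal.sum_mem
    intro α hα
    rcases hf α hα with h | h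
    · apply Ideal.mem_sup_left
      rw [mem_restrictSupportIdeal]
      intro β hβ
      have := MvPolynomial.support_monomial_subset hβ
      rw [Finset.mem_singleton] at this
      rwa [this]
    · apply Ideal.mem_sup_right
      rw [mem_restrictSupportIdeal]
      intro β hβ
      have := MvPolynomial.support_monomial_subset hβ
      rw [Finset.mem_singleton] at this
      rwa [this]

theorem SR_sup (G : Finset (Fin r)) (𝒢 : Finset (Finset (Fin r))) :
    SR K 𝒢 ⊔ SR K {G} = SR K (𝒢.image (fun G' => G ∩ G')) := by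
  unfold SR
  rw [restrictSupportIdeal_sup]
  congr 1
  ext α
  simp only [srSet, Set.mem_union, Set.mem_ofPred_eq, Finset.mem_singleton, forall_eq,
    Finset.mem_image, forall_exists_index, and_imp, forall_apply_eq_imp_iff₂,
    Finset.subset_inter_iff, not_and]
  constructor
  · rintro (h | h) G' hG' h1
    · exact h G' hG'
    · exact absurd h1 h
  · intro h
    by_cases h1 : α.support ⊆ G
    · exact Or.inl fun G' hG' => h G' hG' h1
    · exact Or.inr h1

theorem SR_singleton_eq_span (G : Finset (Fin r)) :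
    SR K {G} = Ideal.span ((X : Fin r → MvPolynomial (Fin r) K) '' {i | i ∉ G}) := by
  ext f
  rw [mem_SR, mem_ideal_span_X_image]
  constructor
  · intro h α hα
    have h1 := h α hα G (Finset.mem_singleton_self G)
    rw [Finset.not_subset] at h1
    obtain ⟨i, hi, hiG⟩ := h1
    exact ⟨i, hiG, Finsupp.mem_support_iff.mp hi⟩
  · intro h α hα G' hG' hs
    rw [Finset.mem_singleton] at hG'
    subst hG'
    obtain ⟨i, hi, hi'⟩ := h α hα
    exact hi (hs (Finsupp.mem_support_iff.mpr hi'))

theorem SR_singleton_empty : SR K {(∅ : Finset (Fin r))} = irr K r := by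
  rw [SR_singleton_eq_span, irr]
  congr 1
  simp

theorem irr_ne_top : irr K r ≠ ⊤ := by
  rw [← SR_singleton_empty, Ideal.ne_top_iff_one, mem_SR]
  intro h
  have h1 := h 0 (by
    rw [mem_support_iff, coeff_zero_one]
    exact one_ne_zero) ∅ (Finset.mem_singleton_self _)
  exact h1 (by simp)

instance : Nontrivial (MvPolynomial (Fin r) K ⧸ irr K r) :=
  Ideal.Quotient.nontrivial_iff.mpr irr_ne_top

theorem SR_insert_singleton {i : Fin r} {G : Finset (Fin r)} (hi : i ∉ G) :
    SR K {G} = SR K {insert i G} ⊔ Ideal.span {(X i : MvPolynomial (Fin r) K)} := by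
  rw [SR_singleton_eq_span, SR_singleton_eq_span, ← Ideal.span_union]
  congr 1
  ext f
  simp only [Set.mem_image, Set.mem_ofPred_eq, Set.mem_union, Set.mem_singleton_iff,
    Finset.mem_insert, not_or]
  constructor
  · rintro ⟨j, hj, rfl⟩
    by_cases h : j = i
    · exact Or.inr (by rw [h])
    · exact Or.inl ⟨j, ⟨h, hj⟩, rfl⟩
  · rintro (⟨j, ⟨_, hj⟩, rfl⟩ | rfl)
    · exact ⟨j, hj, rfl⟩
    · exact ⟨i, hi, rfl⟩

theorem X_mul_mem_SR {i : Fin r} {G : Finset (Fin r)} (hi : i ∈ G) {f : MvPolynomial (Fin r) K}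
    (h : X i * f ∈ SR K {G}) : f ∈ SR K {G} := by
  classical
  rw [mem_SR] at h ⊢
  intro α hα G' hG' hs
  rw [Finset.mem_singleton] at hG'
  subst hG'
  apply h (Finsupp.single i 1 + α) _ G' (Finset.mem_singleton_self _)
  · intro j hj
    have := Finsupp.support_add hj
    rw [Finset.mem_union] at this
    rcases this with h1 | h1
    · have := Finsupp.support_single_subset h1
      rw [Finset.mem_singleton] at this
      rwa [this]
    · exact hs h1
  · rw [mem_support_iff, coeff_X_mul]
    exact mem_support_iff.mp hα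

theorem lsmul_X_injective {i : Fin r} {G : Finset (Fin r)} (hi : i ∈ G) :
    Function.Injective (LinearMap.lsmul (MvPolynomial (Fin r) K)
      (MvPolynomial (Fin r) K ⧸ SR K {G}) (X i)) := by
  rw [← LinearMap.ker_eq_bot, LinearMap.ker_eq_bot']
  intro x hx
  obtain ⟨x, rfl⟩ := Submodule.Quotient.mk_surjective _ x
  have h1 : (Submodule.Quotient.mk (X i * x) : MvPolynomial (Fin r) K ⧸ SR K {G}) = 0 := hx
  rw [Submodule.Quotient.mk_eq_zero] at h1 ⊢
  exact X_mul_mem_SR hi h1

theorem lsmul_X_exact {i : Fin r} {G : Finset (Fin r)} (hi : i ∉ G) :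
    Function.Exact (LinearMap.lsmul (MvPolynomial (Fin r) K)
      (MvPolynomial (Fin r) K ⧸ SR K {insert i G}) (X i))
      (Submodule.factor (by rw [SR_insert_singleton (K := K) hi]; exact le_sup_left :
        SR K {insert i G} ≤ SR K {G})) := by
  intro x
  obtain ⟨x, rfl⟩ := Submodule.Quotient.mk_surjective _ x
  have h0 : (Submodule.factor (by rw [SR_insert_singleton (K := K) hi]; exact le_sup_left :
        SR K {insert i G} ≤ SR K {G})) (Submodule.Quotient.mk x) =
        (Submodule.Quotient.mk x : MvPolynomial (Fin r) K ⧸ SR K {G}) := rfl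
  rw [h0, Submodule.Quotient.mk_eq_zero]
  constructor
  · intro hx
    have hx' : x ∈ SR K {insert i G} ⊔ Ideal.span {(X i : MvPolynomial (Fin r) K)} := by
      rwa [← SR_insert_singleton hi]
    obtain ⟨a, ha, b, hb, hab⟩ := Submodule.mem_sup.mp hx'
    obtain ⟨c, rfl⟩ := Ideal.mem_span_singleton.mp hb
    refine ⟨Submodule.Quotient.mk c, ?_⟩
    have : (LinearMap.lsmul (MvPolynomial (Fin r) K)
      (MvPolynomial (Fin r) K ⧸ SR K {insert i G}) (X i)) (Submodule.Quotient.mk c) =
        Submodule.Quotient.mk (X i * c) := rfl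
    rw [this, Submodule.Quotient.eq, ← hab]
    have : X i * c - (a + X i * c) = -a := by ring
    rw [this]
    exact Submodule.neg_mem _ ha
  · rintro ⟨c, hc⟩
    obtain ⟨c, rfl⟩ := Submodule.Quotient.mk_surjective _ c
    have h1 : (Submodule.Quotient.mk (X i * c) : MvPolynomial (Fin r) K ⧸ SR K {insert i G}) =
      Submodule.Quotient.mk x := hc
    rw [Submodule.Quotient.eq] at h1
    have h2 : x = -(X i * c - x) + X i * c := by ring
    rw [SR_insert_singleton (K := K) hi, h2]
    exact Submodule.add_mem_sup (Submodule.neg_mem _ h1)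
      (Ideal.mul_mem_right _ _ (Ideal.mem_span_singleton_self _))

theorem DGE_SR_singleton (G : Finset (Fin r)) :
    DGE (irr K r) (MvPolynomial (Fin r) K ⧸ SR K {G}) G.card ∧
      ¬ DGE (irr K r) (MvPolynomial (Fin r) K ⧸ SR K {G}) (G.card + 1) := by
  classical
  induction G using Finset.induction_on with
  | empty =>
    rw [SR_singleton_empty]
    exact ⟨DGE_zero, not_DGE_one_self⟩
  | insert i G hi ih =>
    rw [Finset.card_insert_of_notMem hi]
    have hinj := lsmul_X_injective (K := K) (Finset.mem_insert_self i G)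
    have hex := lsmul_X_exact (K := K) hi
    have hle : SR K {insert i G} ≤ SR K {G} := by
      rw [SR_insert_singleton (K := K) hi]; exact le_sup_left
    have hsurj : Function.Surjective (Submodule.factor hle) := Submodule.factor_surjective hle
    have h1 := DGE_succ_of_mul (X_mem_irr (K := K) i) hinj hsurj hex ih.1
    exact ⟨h1, not_DGE_left hinj hsurj hex h1 ih.2⟩

/-- The main inductive tool, lower bound. -/
theorem DGE_SR_insert {G : Finset (Fin r)} {𝒢 : Finset (Finset (Fin r))} {k : ℕ}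
    (hG : k + 1 ≤ G.card) (h : DGE (irr K r) (MvPolynomial (Fin r) K ⧸ SR K 𝒢) (k + 1))
    (h' : DGE (irr K r) (MvPolynomial (Fin r) K ⧸ SR K (𝒢.image (fun G' => G ∩ G'))) k) :
    DGE (irr K r) (MvPolynomial (Fin r) K ⧸ SR K (insert G 𝒢)) (k + 1) := by
  rw [SR_insert]
  apply DGE_inf h ((DGE_SR_singleton G).1.mono hG)
  rwa [SR_sup]

/-- The main inductive tool, upper bound. -/
theorem not_DGE_SR_insert {G : Finset (Fin r)} {𝒢 : Finset (Finset (Fin r))} {k : ℕ}
    (hG : k + 1 ≤ G.card) (h : DGE (irr K r) (MvPolynomial (Fin r) K ⧸ SR K 𝒢) (k + 1))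
    (h' : ¬ DGE (irr K r) (MvPolynomial (Fin r) K ⧸ SR K (𝒢.image (fun G' => G ∩ G'))) (k + 1)) :
    ¬ DGE (irr K r) (MvPolynomial (Fin r) K ⧸ SR K (insert G 𝒢)) (k + 2) := by
  rw [SR_insert]
  apply not_DGE_inf h ((DGE_SR_singleton G).1.mono hG)
  rwa [SR_sup]

theorem DGE_SR_empty (k : ℕ) :
    DGE (irr K r) (MvPolynomial (Fin r) K ⧸ SR K (∅ : Finset (Finset (Fin r)))) k := by
  rw [SR_empty]
  have : Subsingleton (MvPolynomial (Fin r) K ⧸ (⊤ : Ideal (MvPolynomial (Fin r) K))) :=
    Ideal.Quotient.subsingleton_iff.mpr rfl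
  exact DGE_of_subsingleton

end Pool.Agent.Lib.MP_a8bb4d_al
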