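import Pool.Agent.Lib.MP_a8bb4d_al.Geometry
import Pool.Agent.Lib.MP_a8bb4d_al.Squarefree

/-!
# Depth of the ideals attached to sets of violated constraints
-/

set_option autoImplicit false
set_option linter.unusedSectionVars false

namespace Pool.Agent.Lib.MP_a8bb4d_al

open MvPolynomial

universe u

variable {r : ℕ} {ι : Type} [Fintype ι] [DecidableEq ι] {a : ι → Fin r → ℝ} {b : ι → ℝ}

theorem first_crossing {J₀ : Finset ι} (hJ₀ : IsFace a b J₀) {z : Fin r → ℝ} (hz : IsPos z)
    (hzJ : ∀ j ∈ J₀, L a j z = b j) (hV : (viol a b z).Nonempty) :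
    ∃ (z' : Fin r → ℝ) (S : Finset ι), S.Nonempty ∧ S ⊆ viol a b z ∧ IsPos z' ∧
      (∀ j ∈ J₀ ∪ S, L a j z' = b j) ∧ viol a b z' = viol a b z \ S ∧
      (∀ j ∉ J₀ ∪ S, j ∉ viol a b z' → b j < L a j z') ∧
      (∀ j ∈ S, EE a J₀ ∩ zeroSet a j = EE a (J₀ ∪ S)) ∧ rk a (J₀ ∪ S) = rk a J₀ + 1 := by
  classical
  obtain ⟨w, hw, hsweep⟩ := exists_sweep hJ₀ hzJ
  have hct := fun j (hj : j ∈ viol a b z) => crossing_time hzJ hw hj
  choose! τ hτ0 hτ1 hτ using hct
  obtain ⟨j₀, hj₀, hmin⟩ := Finset.exists_min_image (viol a b z) τ hV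
  have ht0 := hτ0 j₀ hj₀
  have ht1 := hτ1 j₀ hj₀
  have hj₀t := ((hτ j₀ hj₀ (τ j₀)).2.1).mpr rfl
  obtain ⟨hs1, hs2⟩ := hsweep (τ j₀) ht0 ht1 j₀ hj₀ hj₀t
  obtain ⟨hp, hJ, hout⟩ := segment_facts hz hzJ hw ht0 ht1
  set S := (viol a b z).filter (fun j => L a j (z + τ j₀ • (w - z)) = b j) with hS
  have hviol : viol a b (z + τ j₀ • (w - z)) = viol a b z \ S := by
    ext j
    rw [Finset.mem_sdiff, mem_viol]
    constructor
    · intro h
      have hjv : j ∈ viol a b z := by
        by_contra hjv
        by_cases hjJ : j ∈ J₀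
        · have := hJ j hjJ
          linarith
        · have := hout j hjJ hjv
          linarith
      refine ⟨hjv, fun hjS => ?_⟩
      have := (Finset.mem_filter.mp hjS).2
      linarith
    · rintro ⟨hjv, hjS⟩
      rw [(hτ j hjv _).1]
      apply lt_of_le_of_ne (hmin j hjv)
      intro h
      apply hjS
      exact Finset.mem_filter.mpr ⟨hjv, ((hτ j hjv _).2.1).mpr h⟩
  refine ⟨z + τ j₀ • (w - z), S, ⟨j₀, Finset.mem_filter.mpr ⟨hj₀, hj₀t⟩⟩, Finset.filter_subset _ _,
    hp, ?_, hviol, ?_, hs1, hs2⟩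
  · intro j hj
    rcases Finset.mem_union.mp hj with hj | hj
    · exact hJ j hj
    · exact (Finset.mem_filter.mp hj).2
  · intro j hj hjv
    rw [Finset.mem_union, not_or] at hj
    rw [hviol, Finset.mem_sdiff, not_and, not_not] at hjv
    by_cases h : j ∈ viol a b z
    · exact absurd (hjv h) hj.2
    · exact hout j hj.1 h

theorem last_crossing {J₀ : Finset ι} (hJ₀ : IsFace a b J₀) {z : Fin r → ℝ} (hz : IsPos z)
    (hzJ : ∀ j ∈ J₀, L a j z = b j) (hV : (viol a b z).Nonempty) :
    ∃ S : Finset ι, S.Nonempty ∧ S ⊆ viol a b z ∧ IsFace a b (J₀ ∪ S) ∧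
      (∀ j ∈ S, EE a J₀ ∩ zeroSet a j = EE a (J₀ ∪ S)) ∧ rk a (J₀ ∪ S) = rk a J₀ + 1 := by
  classical
  obtain ⟨w, hw, hsweep⟩ := exists_sweep hJ₀ hzJ
  have hct := fun j (hj : j ∈ viol a b z) => crossing_time hzJ hw hj
  choose! τ hτ0 hτ1 hτ using hct
  obtain ⟨j₀, hj₀, hmax⟩ := Finset.exists_max_image (viol a b z) τ hV
  have ht0 := hτ0 j₀ hj₀
  have ht1 := hτ1 j₀ hj₀
  have hj₀t := ((hτ j₀ hj₀ (τ j₀)).2.1).mpr rfl
  obtain ⟨hs1, hs2⟩ := hsweep (τ j₀) ht0 ht1 j₀ hj₀ hj₀t
  obtain ⟨hp, hJ, hout⟩ := segment_facts hz hzJ hw ht0 ht1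
  set S := (viol a b z).filter (fun j => L a j (z + τ j₀ • (w - z)) = b j) with hS
  refine ⟨S, ⟨j₀, Finset.mem_filter.mpr ⟨hj₀, hj₀t⟩⟩, Finset.filter_subset _ _,
    ⟨z + τ j₀ • (w - z), hp, ?_, ?_⟩, hs1, hs2⟩
  · intro j hj
    rcases Finset.mem_union.mp hj with hj | hj
    · exact hJ j hj
    · exact (Finset.mem_filter.mp hj).2
  · intro j hj
    rw [Finset.mem_union, not_or] at hj
    by_cases h : j ∈ viol a b z
    · rw [(hτ j h _).2.2]
      apply lt_of_le_of_ne (hmax j h)
      intro h'
      exact hj.2 (Finset.mem_filter.mpr ⟨h, ((hτ j h _).2.1).mpr h'.symm⟩)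
    · exact hout j hj.1 h

/-- the sets of coordinates attached to a face and a set of violated constraints -/
noncomputable def fam (a : ι → Fin r → ℝ) (J₀ V : Finset ι) : Finset (Finset (Fin r)) :=
  V.image (fun j => EE a J₀ ∩ zeroSet a j)

theorem fam_empty (J₀ : Finset ι) : fam a J₀ ∅ = ∅ := rfl

theorem fam_split {J₀ V V' S : Finset ι} {G : Finset (Fin r)} (hV : V = V' ∪ S) (hS : S.Nonempty)
    (hG : ∀ j ∈ S, EE a J₀ ∩ zeroSet a j = G) : fam a J₀ V = insert G (fam a J₀ V') := by
  unfold fam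
  subst hV
  rw [Finset.image_union]
  have : S.image (fun j => EE a J₀ ∩ zeroSet a j) = {G} := by
    ext H
    rw [Finset.mem_image, Finset.mem_singleton]
    constructor
    · rintro ⟨j, hj, rfl⟩
      exact hG j hj
    · rintro rfl
      obtain ⟨j, hj⟩ := hS
      exact ⟨j, hj, hG j hj⟩
  rw [this, Finset.union_comm]
  rfl

theorem EE_anti {J₀ J₁ : Finset ι} (h : J₀ ⊆ J₁) : EE a J₁ ⊆ EE a J₀ := by
  intro i hi
  rw [mem_EE] at hi ⊢
  exact fun j hj => hi j (h hj)

theorem fam_inter {J₀ J₁ V : Finset ι} (h : J₀ ⊆ J₁) :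
    (fam a J₀ V).image (fun G' => EE a J₁ ∩ G') = fam a J₁ V := by
  unfold fam
  rw [Finset.image_image]
  apply Finset.image_congr
  intro j _
  simp only [Function.comp_apply]
  rw [← Finset.inter_assoc, Finset.inter_eq_left.mpr (EE_anti h)]

/-- depth at least `k` for the quotient attached to `𝒢` -/
abbrev Dep (K : Type u) [Field K] (𝒢 : Finset (Finset (Fin r))) (k : ℕ) : Prop :=
  DGE (irr K r) (MvPolynomial (Fin r) K ⧸ SR K 𝒢) k

/-- If `J₁` is not a face, then some violated constraint does not see the coordinates unseen by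
`J₁`. -/
theorem exists_of_not_face (ha : ∀ j i, 0 ≤ a j i) {J₁ : Finset ι} (hJ₁ : ¬ IsFace a b J₁)
    {z : Fin r → ℝ} (hz : IsPos z) (hzJ : ∀ j ∈ J₁, L a j z = b j)
    (hout : ∀ j ∉ J₁, j ∉ viol a b z → b j < L a j z) :
    ∃ j ∈ viol a b z, EE a J₁ ⊆ zeroSet a j := by
  classical
  by_contra hcon
  push Not at hcon
  apply hJ₁
  -- push the point far in the unseen directions
  let e : Fin r → ℝ := fun i => if i ∈ EE a J₁ then 1 else 0
  have he0 : ∀ i, 0 ≤ e i := by
    intro i
    simp only [e]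
    split_ifs <;> norm_num
  have heJ : ∀ j ∈ J₁, L a j e = 0 := by
    intro j hj
    rw [L_apply]
    apply Finset.sum_eq_zero
    intro i _
    simp only [e]
    split_ifs with h
    · rw [(mem_EE a).mp h j hj, zero_mul]
    · rw [mul_zero]
  have henn : ∀ j, 0 ≤ L a j e := by
    intro j
    rw [L_apply]
    exact Finset.sum_nonneg (fun i _ => mul_nonneg (ha j i) (he0 i))
  have hepos : ∀ j ∈ viol a b z, 0 < L a j e := by
    intro j hj
    obtain ⟨i, hi, hi'⟩ := Finset.not_subset.mp (hcon j hj)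
    rw [mem_zeroSet] at hi'
    rw [L_apply]
    apply Finset.sum_pos' (fun i _ => mul_nonneg (ha j i) (he0 i))
    refine ⟨i, Finset.mem_univ i, ?_⟩
    simp only [e, if_pos hi, mul_one]
    exact lt_of_le_of_ne (ha j i) (Ne.symm hi')
  have hex : ∃ c : ℝ, 0 ≤ c ∧ ∀ j ∈ viol a b z, b j < L a j (z + c • e) := by
    have h1 : ∀ j ∈ viol a b z, ∀ᶠ c : ℝ in Filter.atTop, b j < L a j (z + c • e) := by
      intro j hj
      have h2 : (fun c : ℝ => L a j (z + c • e)) = fun c : ℝ => L a j z + c * L a j e := by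
        funext c
        rw [map_add, map_smul, smul_eq_mul]
      have h3 : Filter.Tendsto (fun c : ℝ => L a j (z + c • e)) Filter.atTop Filter.atTop := by
        rw [h2]
        exact Filter.tendsto_atTop_add_const_left _ _ (Filter.tendsto_id.atTop_mul_const (hepos j hj))
      exact h3.eventually (Filter.eventually_gt_atTop (b j))
    have h2 : ∀ᶠ c : ℝ in Filter.atTop, ∀ j ∈ viol a b z, b j < L a j (z + c • e) :=
      (Filter.eventually_all_finset (viol a b z)).mpr h1
    obtain ⟨c, hc1, hc2⟩ := ((Filter.eventually_ge_atTop (0 : ℝ)).and h2).exists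
    exact ⟨c, hc1, hc2⟩
  obtain ⟨c, hc0, hc⟩ := hex
  refine ⟨z + c • e, ?_, ?_, ?_⟩
  · intro i
    have := hz i
    have h1 := mul_nonneg hc0 (he0 i)
    simp only [Pi.add_apply, Pi.smul_apply, smul_eq_mul]
    linarith
  · intro j hj
    rw [map_add, map_smul, heJ j hj, smul_zero, add_zero, hzJ j hj]
  · intro j hj
    by_cases hjv : j ∈ viol a b z
    · exact hc j hjv
    · have h1 := hout j hj hjv
      have h2 := mul_nonneg hc0 (henn j)
      rw [map_add, map_smul, smul_eq_mul]
      linarith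

variable {K : Type u} [Field K]

/-- **Lower bound.** -/
theorem lower_bound (ha : ∀ j i, 0 ≤ a j i) {D : ℕ}
    (hD : ∀ J : Finset ι, J.Nonempty → IsFace a b J → D + 1 ≤ (EE a J).card + rk a J) :
    ∀ (n : ℕ) (J₀ : Finset ι), J₀ᶜ.card ≤ n → IsFace a b J₀ → ∀ (v : ℕ) (z : Fin r → ℝ),
      IsPos z → (∀ j ∈ J₀, L a j z = b j) → (viol a b z).card ≤ v → ∀ k, k + rk a J₀ ≤ D →
        Dep K (fam a J₀ (viol a b z)) k := by
  classical
  intro n
  induction n with
  | zero =>
    intro J₀ hcard hJ₀ v z hz hzJ _ k _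
    have hall : J₀ = Finset.univ := by
      rw [← Finset.compl_eq_empty_iff]
      exact Finset.card_eq_zero.mp (Nat.le_zero.mp hcard)
    have hviol : viol a b z = ∅ := by
      ext j
      rw [mem_viol]
      have := hzJ j (by rw [hall]; exact Finset.mem_univ j)
      constructor
      · intro h
        linarith
      · intro h
        exact absurd h (Finset.notMem_empty j)
    rw [hviol, fam_empty]
    exact DGE_SR_empty k
  | succ n ihn =>
    intro J₀ hcard hJ₀ v
    induction v with
    | zero =>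
      intro z hz hzJ hvcard k _
      have hviol : viol a b z = ∅ := Finset.card_eq_zero.mp (Nat.le_zero.mp hvcard)
      rw [hviol, fam_empty]
      exact DGE_SR_empty k
    | succ v ihv =>
      intro z hz hzJ hvcard k hk
      by_cases hV : (viol a b z).Nonempty
      · obtain ⟨z', S, hSne, hSV, hz', hz'J, hviol, hout, hG, hrk⟩ := first_crossing hJ₀ hz hzJ hV
        have hsplit : fam a J₀ (viol a b z) =
            insert (EE a (J₀ ∪ S)) (fam a J₀ (viol a b z')) := by
          apply fam_split _ hSne hG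
          rw [hviol, Finset.sdiff_union_of_subset hSV]
        have hcardv : (viol a b z').card ≤ v := by
          rw [hviol, Finset.card_sdiff_of_subset hSV]
          have := hSne.card_pos
          omega
        have h1 : Dep K (fam a J₀ (viol a b z')) k :=
          ihv z' hz' (fun j hj => hz'J j (Finset.mem_union_left _ hj)) hcardv k hk
        rw [hsplit]
        by_cases hface : IsFace a b (J₀ ∪ S)
        · cases k with
          | zero => exact DGE_zero
          | succ k =>
            have hcardG := hD (J₀ ∪ S) (hSne.mono Finset.subset_union_right) hface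
            rw [hrk] at hcardG
            apply DGE_SR_insert (by omega) h1
            rw [fam_inter Finset.subset_union_left]
            apply ihn (J₀ ∪ S) _ hface _ z' hz' hz'J le_rfl k (by omega)
            -- the complement gets smaller
            have hlt : (J₀ ∪ S)ᶜ ⊂ J₀ᶜ := by
              rw [Finset.ssubset_iff_of_subset (Finset.compl_subset_compl.mpr
                Finset.subset_union_left)]
              obtain ⟨j, hj⟩ := hSne
              refine ⟨j, ?_, ?_⟩
              · rw [Finset.mem_compl]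
                intro hjJ
                have h2 := (mem_viol (a := a) (b := b)).mp (hSV hj)
                have h3 := hzJ j hjJ
                linarith
              · rw [Finset.mem_compl, not_not]
                exact Finset.mem_union_right _ hj
            have := Finset.card_lt_card hlt
            omega
        · obtain ⟨j, hj, hsub⟩ := exists_of_not_face ha hface hz' hz'J hout
          have hsub' : EE a (J₀ ∪ S) ⊆ EE a J₀ ∩ zeroSet a j :=
            Finset.subset_inter (EE_anti Finset.subset_union_left) hsub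
          have hmem : EE a J₀ ∩ zeroSet a j ∈ fam a J₀ (viol a b z') :=
            Finset.mem_image_of_mem _ hj
          unfold Dep
          rw [SR_insert_of_subset hmem hsub']
          exact h1
      · rw [Finset.not_nonempty_iff_eq_empty] at hV
        rw [hV, fam_empty]
        exact DGE_SR_empty k

theorem rk_lt_of_face {J J' : Finset ι} (hJ : IsFace a b J) (hJ' : IsFace a b J') (h : J ⊂ J') :
    rk a J < rk a J' := by
  obtain ⟨w, hw⟩ := hJ
  obtain ⟨w', hw'⟩ := hJ'
  obtain ⟨j, hj', hj⟩ := Finset.exists_of_ssubset h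
  apply Submodule.finrank_lt_finrank_of_lt
  apply lt_of_le_of_ne
  · apply Submodule.span_mono
    apply Set.image_mono
    intro k hk
    exact Finset.mem_coe.mpr (h.1 hk)
  · intro heq
    have hmem : L a j ∈ Submodule.span ℝ (L a '' (J : Set ι)) := by
      rw [heq]
      exact Submodule.subset_span ⟨j, hj', rfl⟩
    have h1 := eval_span_eq_zero hmem (u := w - w') (by
      intro k hk
      rw [map_sub, hw.2.1 k hk, hw'.2.1 k (h.1 hk), sub_self])
    have h2 := hw.2.2 j hj
    have h3 := hw'.2.1 j hj'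
    rw [map_sub] at h1
    linarith

/-- A point slightly beyond `w'` seen from `w`: it violates exactly the constraints active at `w'`
but not at `w`. -/
theorem exists_beyond {J J' : Finset ι} (hJ : IsFace a b J) (hJ' : IsFace a b J') (h : J ⊆ J') :
    ∃ z, IsPos z ∧ (∀ j ∈ J, L a j z = b j) ∧ viol a b z = J' \ J := by
  obtain ⟨w, hw⟩ := hJ
  obtain ⟨w', hw'⟩ := hJ'
  obtain ⟨ε, hε, hp, hs⟩ := exists_small hw' (w' - w)
  refine ⟨w' + ε • (w' - w), hp, ?_, ?_⟩
  · intro j hj
    rw [map_add, map_smul, map_sub, hw.2.1 j hj, hw'.2.1 j (h hj), sub_self, smul_zero, add_zero]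
  · ext j
    rw [mem_viol, Finset.mem_sdiff]
    constructor
    · intro hlt
      have hj' : j ∈ J' := by
        by_contra hj'
        have := hs j hj'
        linarith
      refine ⟨hj', fun hj => ?_⟩
      have : L a j (w' + ε • (w' - w)) = b j := by
        rw [map_add, map_smul, map_sub, hw.2.1 j hj, hw'.2.1 j (h hj), sub_self, smul_zero,
          add_zero]
      linarith
    · rintro ⟨hj', hj⟩
      have h1 := hw.2.2 j hj
      have h2 := hw'.2.1 j hj'
      rw [map_add, map_smul, map_sub, smul_eq_mul, h2]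
      have h3 := mul_pos hε (sub_pos.mpr h1)
      linarith

/-- **Upper bound.** -/
theorem upper_bound (ha : ∀ j i, 0 ≤ a j i) {D : ℕ}
    (hD : ∀ J : Finset ι, J.Nonempty → IsFace a b J → D + 1 ≤ (EE a J).card + rk a J)
    {Js : Finset ι} (hJs : IsFace a b Js) (hmin : (EE a Js).card + rk a Js = D + 1) :
    ∀ (n : ℕ) (J₀ : Finset ι), J₀ᶜ.card ≤ n → IsFace a b J₀ → J₀ ⊂ Js → ∀ k, k + rk a J₀ = D →
        ¬ Dep K (fam a J₀ (Js \ J₀)) (k + 1) := by
  classical
  intro n
  induction n with
  | zero =>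
    intro J₀ hcard hJ₀ hss
    exfalso
    obtain ⟨j, hj', hj⟩ := Finset.exists_of_ssubset hss
    have hall : J₀ = Finset.univ := by
      rw [← Finset.compl_eq_empty_iff]
      exact Finset.card_eq_zero.mp (Nat.le_zero.mp hcard)
    exact hj (by rw [hall]; exact Finset.mem_univ j)
  | succ n ihn =>
    intro J₀ hcard hJ₀ hss k hk
    obtain ⟨z, hz, hzJ, hviol⟩ := exists_beyond hJ₀ hJs hss.1
    have hVne : (viol a b z).Nonempty := by
      rw [hviol]
      obtain ⟨j, hj', hj⟩ := Finset.exists_of_ssubset hss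
      exact ⟨j, Finset.mem_sdiff.mpr ⟨hj', hj⟩⟩
    obtain ⟨S, hSne, hSV, hface, hG, hrk⟩ := last_crossing hJ₀ hz hzJ hVne
    rw [hviol] at hSV
    have hJ1 : J₀ ∪ S ⊆ Js :=
      Finset.union_subset hss.1 (hSV.trans Finset.sdiff_subset)
    have hsd : (Js \ J₀) \ S = Js \ (J₀ ∪ S) := by
      ext j
      simp only [Finset.mem_sdiff, Finset.mem_union]
      tauto
    have hsplit : fam a J₀ (Js \ J₀) =
        insert (EE a (J₀ ∪ S)) (fam a J₀ (Js \ (J₀ ∪ S))) := by
      apply fam_split _ hSne hG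
      rw [← hsd, Finset.sdiff_union_of_subset hSV]
    have hcardG := hD (J₀ ∪ S) (hSne.mono Finset.subset_union_right) hface
    rw [hrk] at hcardG
    by_cases heq : J₀ ∪ S = Js
    · rw [hsplit, heq, Finset.sdiff_self, fam_empty]
      have h1 := (DGE_SR_singleton (K := K) (EE a Js)).2
      rw [heq] at hrk
      have h2 : (EE a Js).card = k := by omega
      rw [h2] at h1
      exact h1
    · have hss' : J₀ ∪ S ⊂ Js := lt_of_le_of_ne hJ1 heq
      have hrklt := rk_lt_of_face hface hJs hss'
      obtain ⟨k', rfl⟩ : ∃ k', k = k' + 1 := ⟨k - 1, by omega⟩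
      rw [hsplit]
      apply not_DGE_SR_insert (by omega)
      · -- lower bound for the remaining constraints
        obtain ⟨z', hz', hz'J, hviol'⟩ := exists_beyond hface hJs hJ1
        have h1 := lower_bound (K := K) ha hD (n + 1) J₀ hcard hJ₀ _ z' hz'
          (fun j hj => hz'J j (Finset.mem_union_left _ hj)) le_rfl (k' + 1) (by omega)
        rw [hviol'] at h1
        exact h1
      · rw [fam_inter Finset.subset_union_left]
        apply ihn (J₀ ∪ S) _ hface hss' k' (by omega)
        have hlt : (J₀ ∪ S)ᶜ ⊂ J₀ᶜ := by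
          rw [Finset.ssubset_iff_of_subset (Finset.compl_subset_compl.mpr
            Finset.subset_union_left)]
          obtain ⟨j, hj⟩ := hSne
          refine ⟨j, ?_, ?_⟩
          · rw [Finset.mem_compl]
            exact (Finset.mem_sdiff.mp (hSV hj)).2
          · rw [Finset.mem_compl, not_not]
            exact Finset.mem_union_right _ hj
        have := Finset.card_lt_card hlt
        omega

end Pool.Agent.Lib.MP_a8bb4d_al
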